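import Pool.Agent.MZA.St

set_option autoImplicit false

/-!
# MZA Main: the main inequality
-/

namespace Pool.Agent.MZA

open Finset Filter
open Pool.Agent.Helper21 (mzv H zl Adm)

theorem main_H_pos (w : List ℕ) : 0 < H w w.length := by
  induction w with
  | nil => rw [Pool.Agent.Helper21.H_nil]; exact one_pos
  | cons a w ih =>
    rw [Pool.Agent.Helper21.H_cons, List.length_cons, Finset.sum_range_succ]
    have h1 : 0 ≤ ∑ m ∈ range w.length, (1 / ((m + 1 : ℕ) : ℝ)) ^ a * H w m := by
      apply Finset.sum_nonneg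
      intro m _
      have := Pool.Agent.Helper21.H_nonneg w m
      positivity
    have h2 : 0 < (1 / ((w.length + 1 : ℕ) : ℝ)) ^ a * H w w.length := by positivity
    linarith

theorem main_zl_pos (w : List ℕ) (hw : Adm w) : 0 < zl w :=
  lt_of_lt_of_le (main_H_pos w)
    (le_ciSup (Pool.Agent.Helper21.H_bddAbove w hw.1 hw.2) w.length)

theorem main_mzv (w : List ℕ) (hw : Adm w) : mzv (fun i : Fin w.length => w.get i) = zl w := by
  rw [Pool.Agent.Helper21.mzv_eq_zl]
  · rw [List.ofFn_get]
  · intro i
    exact hw.1 _ (List.get_mem w i)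
  · intro h
    cases w with
    | nil => simp at h
    | cons a t => exact hw.2 a t rfl

/-- the positions of `v` with an entry at least `b` -/
theorem main_count (b : ℕ) (v : List ℕ) :
    b * ((range v.length).filter fun i => b ≤ v.getD i 0).card ≤ v.sum := by
  have h1 : v.sum = ∑ i ∈ range v.length, v.getD i 0 := by
    rw [← Fin.sum_univ_eq_sum_range (fun i => v.getD i 0) v.length]
    conv_lhs => rw [← List.ofFn_get v, List.sum_ofFn]
    refine Finset.sum_congr rfl fun i _ => ?_
    rw [List.getD_eq_getElem v 0 i.2]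
    rfl
  rw [h1, mul_comm, ← smul_eq_mul]
  refine le_trans (Finset.card_nsmul_le_sum _ (fun i => v.getD i 0) b ?_)
    (Finset.sum_le_sum_of_subset (Finset.filter_subset _ _))
  intro i hi
  exact (Finset.mem_filter.1 hi).2

theorem thm_Main (h1 : St_Stf) (h2 : St_Zev) (h3 : St_Cnt) : St_Main := by
  classical
  intro n j hn hj x y hx hT
  obtain ⟨hfn, hcn⟩ := h3 n hn
  obtain ⟨hfN, -⟩ := h3 (n + 2 * j) (by omega)
  have hoffN : (off (n + 2 * j) y).Finite := hfN.subset fun w hw => hw.1
  have hoffn : (off n x).Finite := hfn.subset fun w hw => hw.1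
  set F : Finset (List ℕ) := hoffN.toFinset with hF
  have hcF : (off (n + 2 * j) y).ncard = F.card := Set.ncard_eq_toFinset_card _ hoffN
  set B : Finset (List ℕ) := F.biUnion fun v =>
    ((range v.length).filter fun i => 2 * j ≤ v.getD i 0).image (del (2 * j) v) with hB
  have hBc : B.card ≤ (n + 2 * j) / (2 * j) * F.card := by
    rw [mul_comm]
    refine Finset.card_biUnion_le_card_mul _ _ _ ?_
    intro v hv
    have hv2 : v ∈ off (n + 2 * j) y := (Set.Finite.mem_toFinset hoffN).1 hv
    refine le_trans Finset.card_image_le ?_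
    rw [Nat.le_div_iff_mul_le (by omega), mul_comm]
    refine le_trans (main_count (2 * j) v) ?_
    rw [hv2.1.2.2]
  have hy : y ≠ 0 := by
    intro h
    apply hT
    rw [h, zero_div]
    exact isAlgebraic_zero
  have hpi : Real.pi ^ (2 * j) ≠ 0 := pow_ne_zero _ Real.pi_ne_zero
  have hsub : Idx n ⊆ off n x ∪ (B : Set (List ℕ)) := by
    intro w hw
    by_cases hoff : w ∈ off n x
    · exact Or.inl hoff
    right
    have hadm : Adm w := ⟨hw.1, hw.2.1⟩
    have hmz := main_mzv w hadm
    have halg : IsAlgebraic ℚ (zl w / x) := by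
      by_contra h
      apply hoff
      refine ⟨hw, ?_⟩
      rw [hmz]
      exact h
    obtain ⟨hprod, hmem⟩ := h1 (2 * j) w (by omega) hadm
    obtain ⟨q, hq, hz⟩ := h2 j hj
    -- some term is not algebraic
    have hex : ∃ v ∈ st (2 * j) w, ¬ IsAlgebraic ℚ (zl v / y) := by
      by_contra hcon
      push Not at hcon
      have hsum : ∀ l : List (List ℕ), (∀ v ∈ l, IsAlgebraic ℚ (zl v / y)) →
          IsAlgebraic ℚ ((l.map zl).sum / y) := by
        intro l
        induction l with
        | nil =>
          intro _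
          rw [List.map_nil, List.sum_nil, zero_div]
          exact isAlgebraic_zero
        | cons a l ih =>
          intro h
          rw [List.map_cons, List.sum_cons, add_div]
          exact (h a (List.mem_cons_self)).add (ih fun v hv => h v (List.mem_cons_of_mem _ hv))
      have hS := hsum _ hcon
      rw [← hprod, hz] at hS
      apply hT
      have hwz : zl w ≠ 0 := (main_zl_pos w hadm).ne'
      have hq' : (q : ℝ) ≠ 0 := by exact_mod_cast hq.ne'
      have hqa : IsAlgebraic ℚ ((q : ℝ)) := isAlgebraic_algebraMap q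
      have hkey : y / (x * Real.pi ^ (2 * j)) =
          (q : ℝ) * (zl w / x) * ((q : ℝ) * Real.pi ^ (2 * j) * zl w / y)⁻¹ := by
        field_simp
      rw [hkey]
      exact (hqa.mul halg).mul hS.inv
    obtain ⟨v, hv, hvy⟩ := hex
    obtain ⟨hvadm, hvsum, -, i, hi, hbi, hdel⟩ := hmem v hv
    have hvF : v ∈ F := by
      rw [hF, Set.Finite.mem_toFinset]
      refine ⟨⟨hvadm.1, hvadm.2, ?_⟩, ?_⟩
      · rw [hvsum, hw.2.2]
      · rw [main_mzv v hvadm]
        exact hvy
    rw [Finset.mem_coe, hB, Finset.mem_biUnion]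
    exact ⟨v, hvF, Finset.mem_image.2 ⟨i, Finset.mem_filter.2 ⟨Finset.mem_range.2 hi, hbi⟩, hdel⟩⟩
  rw [← hcn, hcF]
  calc (Idx n).ncard ≤ (off n x ∪ (B : Set (List ℕ))).ncard :=
        Set.ncard_le_ncard hsub (hoffn.union B.finite_toSet)
    _ ≤ (off n x).ncard + (B : Set (List ℕ)).ncard := Set.ncard_union_le _ _
    _ ≤ (off n x).ncard + (n + 2 * j) / (2 * j) * F.card := by
        rw [Set.ncard_coe_finset]
        exact Nat.add_le_add_left hBc _

end Pool.Agent.MZA
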