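import Mathlib
import Pool.Agent.Helper21.MZVSpace
import Pool.Agent.Helper21.PiTrans

set_option autoImplicit false

/-!
# Abundance of transcendental multiple zeta values (MP_2000e9_nt)

`A` denotes the real numbers that are algebraic over the rationals, `I_N` the set of the indices of
weight `N` (`2^(N-2)` of them).  Main inequality: if `y / (x π^(2j))` is transcendental, then

`2^(n-2) ≤ #{w ∈ I_n : ζ(w)/x ∉ A} + ⌊(n+2j)/(2j)⌋ #{v ∈ I_(n+2j) : ζ(v)/y ∉ A}`.

Proof.  If `ζ(w) = a x` with `a ∈ A`, `a ≠ 0`, then `ζ(2j) ζ(w) / y = q a / (y / (x π^(2j)))` is not in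
`A`; it is the sum of the `ζ(v)/y` over the terms `v` of the quasi-shuffle product of `(2j)` and `w`
(insert `2j` somewhere, or add `2j` to one entry), so one of these `v` has `ζ(v)/y ∉ A`.  A given `v` comes
from at most `⌊(n+2j)/(2j)⌋` indices `w` (choose an entry `≥ 2j` of `v`; delete it if it is `2j`,
subtract `2j` otherwise).
-/

namespace Pool.Agent.MZA

open Finset Filter
open Pool.Agent.Helper21 (mzv H zl Adm)

/-- The indices of the convergent multiple zeta values of weight `N`: lists of positive integers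
with sum `N` and first entry at least `2`. -/
def Idx (N : ℕ) : Set (List ℕ) :=
  {w | (∀ a ∈ w, 1 ≤ a) ∧ (∀ a t, w = a :: t → 2 ≤ a) ∧ w.sum = N}

/-- The indices `w` of weight `N` for which `ζ(w)/x` is not algebraic. -/
def off (N : ℕ) (x : ℝ) : Set (List ℕ) :=
  {w | w ∈ Idx N ∧ ¬ IsAlgebraic ℚ (mzv (fun i : Fin w.length => w.get i) / x)}

/-- Those with `r` entries. -/
def offd (N r : ℕ) (x : ℝ) : Set (List ℕ) := {w | w ∈ off N x ∧ w.length = r}

/-- The terms of the quasi-shuffle product of `(b)` and `w`, with multiplicity. -/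
def st (b : ℕ) : List ℕ → List (List ℕ)
  | [] => [[b]]
  | a :: t => (b :: a :: t) :: ((a + b) :: t) :: (st b t).map (fun v => a :: v)

/-- Remove `b` from the entry number `i`. -/
def del (b : ℕ) (v : List ℕ) (i : ℕ) : List ℕ :=
  if v.getD i 0 = b then v.eraseIdx i else v.set i (v.getD i 0 - b)

/-- Add `b` to one of the entries. -/
def adds (b : ℕ) : List ℕ → List (List ℕ)
  | [] => []
  | a :: t => ((a + b) :: t) :: (adds b t).map (fun v => a :: v)

/-- STF.  Product of `ζ(b)` and `ζ(w)`.

Proof.  `H [b] n * H w n = ((st b w).map (fun v => H v n)).sum` for all `n` by induction on `w` and then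
on `n` (as in `exists_stuffle` in Helper21/MZVBasic.lean, which one can imitate: for `w = a :: t`,
`H [b] (n+1) = H [b] n + (n+1)^{-b}`, `H (a :: t) (n+1) = H (a :: t) n + (n+1)^{-a} H t n`), then `n → ∞` with
`tendsto_zl` as in `zl_mul_mem` (Helper21/MZVSpace.lean).  The statements about the members of
`st b w` by induction on `w`: `v = b :: a :: t`: `i = 0`; `v = (a + b) :: t`: `i = 0`
(`a + b ≠ b`); `v = a :: v'` with `v' ∈ st b t`: index `i + 1`. -/
def St_Stf : Prop := ∀ (b : ℕ) (w : List ℕ), 2 ≤ b → Adm w →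
  zl [b] * zl w = ((st b w).map zl).sum ∧
  ∀ v ∈ st b w, Adm v ∧ v.sum = w.sum + b ∧ (v.length = w.length ∨ v.length = w.length + 1) ∧
    ∃ i < v.length, b ≤ v.getD i 0 ∧ del b v i = w

/-- ZEV.  `ζ(2j)` is a positive rational multiple of `π^(2j)`.

Proof.  `hasSum_zeta_nat` in Mathlib; `zl [b]` is the limit of `H [b] n = ∑_{m < n} (1/(m+1))^b`, see
`zl_two` in Helper21/MZVSpace.lean.  Positive as a sum of positive terms. -/
def St_Zev : Prop := ∀ j : ℕ, 1 ≤ j → ∃ q : ℚ, 0 < q ∧ zl [2 * j] = q * Real.pi ^ (2 * j)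

/-- CNT.  The number of indices.

Proof.  By induction: the lists of positive integers with sum `M ≥ 1` are `2^(M-1)` in number (the
first entry is `1`: remove it (`M ≥ 2`), or at least `2`: subtract `1`; or Mathlib:
`composition_card`); the indices of weight `N ≥ 2` correspond to the lists with sum `N - 1` by
subtracting `1` from the first entry. -/
def St_Cnt : Prop := ∀ N : ℕ, 2 ≤ N → (Idx N).Finite ∧ (Idx N).ncard = 2 ^ (N - 2)

/-- MAIN.  See the docstring of the file; `Helper21.mzv_eq_zl` gives `mzv w.get = zl w` for indices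
`w`; the values are positive (`H_mono`, or `zl w ≥ H w r > 0`).  The number of `w` that come from a given
`v`: `w` is in the image of `{i < v.length : 2j ≤ v_i}` under `del (2j) v`, and
`2j * #{i : 2j ≤ v_i} ≤ ∑ v_i = n + 2j`. -/
def St_Main : Prop := ∀ n j : ℕ, 2 ≤ n → 1 ≤ j → ∀ x y : ℝ, x ≠ 0 →
  ¬ IsAlgebraic ℚ (y / (x * Real.pi ^ (2 * j))) →
  2 ^ (n - 2) ≤ (off n x).ncard + (n + 2 * j) / (2 * j) * (off (n + 2 * j) y).ncard

/-- FEW.  Most MZVs are not few.

Proof.  One may assume `δ < 1`.  Call `n ≥ 2` bad if `|off n 1| < 2^((1-δ)n)`.  Let `n < n'` be bad,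
of the same parity, `n' = n + 2j`.  MAIN with `x = y = 1` (`1/π^(2j)` is transcendental:
`Helper21.transcendental_pi`) gives `2^(n-2) ≤ 2^((1-δ)n) + n' 2^((1-δ)n')`.  If `δ n ≥ 3`, the first
term is at most `2^(n-3)`, so `2^(n-3) ≤ n' 2^((1-δ)n')`, i.e. `n - 3 ≤ log_2 n' + (1-δ) n'`, so for
`n ≥ n₀(δ)` (as `log_2 n' + 3 ≤ δ n'/2` for large `n'`) `n ≤ (1 - δ/2) n'`, `n' ≥ (1 + δ/2) n`.  So the bad
`n ≥ n₀` of one parity, in increasing order, grow at least like a geometric series with ratio
`1 + δ/2`: at most `1 + log X / log(1 + δ/2)` of them are `≤ X`.  Together with the parities and the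
`n < n₀` this is `≤ C log X` for `X ≥ 2`. -/
def St_Few : Prop := ∀ δ : ℝ, 0 < δ → ∃ C : ℝ, ∀ X : ℕ, 2 ≤ X →
  (({n : ℕ | 2 ≤ n ∧ n ≤ X ∧ ((off n 1).ncard : ℝ) < 2 ^ ((1 - δ) * n)}.ncard : ℕ) : ℝ) ≤
    C * Real.log X

/-- SYM.  Symmetric sums (Hoffman).  `permutations'` of Mathlib lists all arrangements, with
multiplicity.

Proof.  Write `P w = w.permutations'` (`P [] = [[]]`, `P (a :: t) = (P t).flatMap (permutations'Aux a)`,
`permutations'Aux a v` = the insertions of `a` into `v`).  (a) `st b v` is a permutation of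
`permutations'Aux b v ++ adds b v` (induction on `v`).  (b) `(P w).flatMap (adds b)` is a permutation of
`(adds b w).flatMap P` (induction on `w`; for `w = a :: t` use
`(permutations'Aux a v).flatMap (adds b) ~ permutations'Aux (a + b) v ++ (adds b v).flatMap
(permutations'Aux a)`, by induction on `v`, and `((P t).flatMap (adds b)).flatMap
(permutations'Aux a) ~ ((adds b t).flatMap P).flatMap (permutations'Aux a)`; work with the sums of an
arbitrary function `f : List ℕ → ℝ` over the lists instead of permutations if that is easier).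
So, with `S w = ((P w).map zl).sum` and STF for all `v ∈ P w` (all their entries are `≥ 2`):
`zl [b] * S w = S (b :: w) + ((adds b w).map S).sum`.  By induction on the length and ZEV:
`S w = q π^(w.sum)` with `q` rational if all entries are even and `≥ 2`; `S w > 0` as all `zl v > 0`. -/
def St_Sym : Prop := ∀ w : List ℕ, (∀ a ∈ w, 2 ≤ a ∧ Even a) →
  ∃ q : ℚ, 0 < q ∧ (w.permutations'.map zl).sum = q * Real.pi ^ w.sum

/-- DEP.  Fixed depth.

Proof.  Let `Q` be the set of the lists `c` of `r` positive integers with sum `m`; there are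
`(m-1).choose (r-1)` (induction, or `Finset.Nat.card_antidiagonalTuple` / stars and bars in Mathlib).
For `c ∈ Q` put `w = c.map (2 * ·)`.  By SYM `∑_{v ∈ P w} ζ(v)/x = q π^(2m)/x`, `q ≠ 0`, is not
algebraic (`x / π^(2m)` is not), so some arrangement `v` of `w` has `ζ(v)/x` not algebraic, i.e.
`v ∈ offd (2m) r x`.  Each `v` is chosen for at most `r!` lists `c` (`c` is an arrangement of
`v.map (· / 2)`; at most `r!` members of `permutations`). -/
def St_Dep : Prop := ∀ m r : ℕ, 1 ≤ m → 1 ≤ r → ∀ x : ℝ, ¬ IsAlgebraic ℚ (x / Real.pi ^ (2 * m)) →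
  (m - 1).choose (r - 1) ≤ r.factorial * (offd (2 * m) r x).ncard

end Pool.Agent.MZA
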