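import Mathlib
import Pool.Agent.MZA.St

set_option autoImplicit false

/-!
# Abundance of transcendental multiple zeta values, second part (MP_2000e9_nt)

`A` denotes the real algebraic numbers, `|w|` the weight of an index `w`, `ζ(w) = zl w`.

(ALL) There is `C` such that for every weight `N ≥ C` and every real `x` that is not an algebraic
multiple of `π^N`, at least `2^N / N^C` of the `2^(N-2)` multiple zeta values of weight `N` are
not algebraic multiples of `x`; with `x = 1`: at least `2^N / N^C` are transcendental.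

(LOC) For every index `u ≠ []` and all `0 < i < j < k` at least one of the multiple zeta values
obtained from `u` by adding `2a` to one entry and inserting `2b` somewhere, `a ≠ b` in `{i, j, k}`, is
transcendental.

(FDL) For every `r ≥ 2` there is `c > 0` such that for all but `O(log X)` weights `n ≤ X` at least
`c n^(r-1)` of the `(n-2 choose r-1)` multiple zeta values of weight `n` and depth `r` are
transcendental.
-/

namespace Pool.Agent.MZA

open Finset Filter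
open Pool.Agent.Helper21 (mzv H zl Adm)

/-! ## All depths -/

/-- The terms of the quasi-shuffle product, with multiplicity. -/
def qs : List ℕ → List ℕ → List (List ℕ)
  | [], v => [v]
  | a :: u, [] => [a :: u]
  | a :: u, b :: v => (qs u (b :: v)).map (fun t => a :: t) ++
      ((qs (a :: u) v).map (fun t => b :: t) ++ (qs u v).map (fun t => (a + b) :: t))
  termination_by u v => u.length + v.length

/-- The lists `x` that can give `v` in `qs w x`. -/
def rem : List ℕ → List ℕ → List (List ℕ)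
  | [], v => [v]
  | _ :: _, [] => []
  | a :: u, c :: v => rem u v ++ ((rem (a :: u) v).map (fun t => c :: t) ++
      (rem u v).map (fun t => (c - a) :: t))

/-- QSH.  Quasi-shuffle product.

Proof.  `exists_stuffle` in Helper21/MZVBasic.lean is this recursion (its list `ws` is `qs u v`); the
limit as in `zl_mul_mem` (Helper21/MZVSpace.lean).  `x ∈ rem w v` for `v ∈ qs w x` by induction
along `qs`: for `w = a :: u`, `x = b :: y`: `v = a :: t`, `t ∈ qs u x`: `x ∈ rem u t`, first part of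
`rem w v`; `v = b :: t`, `t ∈ qs w y`: `y ∈ rem w t`, second part; `v = (a + b) :: t`, `t ∈ qs u y`:
`y ∈ rem u t`, third part with `a + b - a = b`.  (`x = []`: `v = w`; show `[] ∈ rem w w`; `w = []`:
`x ∈ rem [] x`.)  The bound for the length of `rem w v` by induction: with `p = w.length`,
`l = v.length`: `2 (2(l-1))^(p-1) + (2(l-1))^p ≤ (2l)^p`. -/
def St_Qsh : Prop :=
  (∀ w x : List ℕ, Adm w → Adm x → zl w * zl x = ((qs w x).map zl).sum ∧
    ∀ v ∈ qs w x, Adm v ∧ v.sum = w.sum + x.sum ∧ x ∈ rem w v) ∧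
  ∀ w v : List ℕ, (rem w v).length ≤ (2 * v.length) ^ w.length

/-- DIC.  Either all MZVs are algebraic multiples of `π^weight`, or two of equal weight have a
ratio that is not algebraic.

Proof.  Suppose all ratios of MZVs of equal weight are algebraic, and let `w` be an index of weight
`m ≥ 1`.  `ζ(w)^2 = ∑_{v ∈ qs w w} ζ(v)` and each `ζ(v)` is an algebraic multiple of
`ζ(2m) = q π^(2m)` (ZEV).  So `(ζ(w)/π^m)^2` is algebraic and so is `ζ(w)/π^m`
(`IsAlgebraic.of_pow` or similar).  For `w = []`: `zl [] = 1`. -/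
def St_Dic : Prop := (∀ w : List ℕ, Adm w → IsAlgebraic ℚ (zl w / Real.pi ^ w.sum)) ∨
  ∃ w w' : List ℕ, Adm w ∧ Adm w' ∧ w.sum = w'.sum ∧ ¬ IsAlgebraic ℚ (zl w / zl w')

/-- ALL.

Proof.  By DIC there are two cases.  (I) all `ζ(v)`, `v ∈ I_N`, are in `A π^N` (and positive,
`main_zl_pos` in Main.lean); as `x/π^N ∉ A`, `ζ(v)/x ∉ A` for all `v` (if `ζ(v)/x = a ∈ A` then
`a ≠ 0` and `x/π^N = (ζ(v)/π^N)/a`), and `|I_N| = 2^(N-2) ≥ 2^N/N^C` if `C ≥ 2`, `N ≥ 2` (CNT).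
(II) `w, w'` of weight `m` with `ζ(w)/ζ(w') ∉ A`; `m ≥ 2`.  Let `N ≥ m + 2`.  For `y ∈ I_(N-m)` not both
`ζ(w) ζ(y)/x` and `ζ(w') ζ(y)/x` are in `A` (their quotient is `ζ(w)/ζ(w')`), so by QSH there is
`v ∈ qs w y` or `v ∈ qs w' y` with `ζ(v)/x ∉ A`, `v ∈ off N x`, and `y ∈ rem w v` or `y ∈ rem w' v`.  So
`2^(N-m-2) = |I_(N-m)| ≤ ((2N)^m + (2N)^m) |off N x|` (`w.length ≤ m`, `v.length ≤ N`), and
`2^(N-m-2) / (2 (2N)^m) ≥ 2^N/N^C` for `N ≥ C` if `C` is large in terms of `m`. -/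
def St_All : Prop := ∃ C : ℕ, ∀ N : ℕ, C ≤ N → ∀ x : ℝ, ¬ IsAlgebraic ℚ (x / Real.pi ^ N) →
  (2 : ℝ) ^ N / (N : ℝ) ^ C ≤ (off N x).ncard

/-! ## Fixed depth -/

/-- MON.  With `μ_i = ∑_p ζ(u + 2i@p)` (the sum over `adds (2i) u`): `μ_i / ζ(2i)` is strictly
increasing in `i`.

Proof.  Truncated sums.  Define `W [] n m = 0`,
`W (a :: t) n m = (if m < n then (m+1)^(-a) H t m else 0) + ∑_{l < n} (l+1)^(-a) W t l m`
(weight of the tuples that contain the number `m + 1`).  (a) for every `c`: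
`((adds c u).map (fun v => H v n)).sum = ∑_{m < n} (m+1)^(-c) W u n m` (induction on `u`).
(b) `W u n (m+1) ≤ W u n m` for `m + 1 < n`: induction on `u`; for `u = a :: t`
`W u n m - W u n (m+1) = ∑_{m+1 < l < n} (l+1)^(-a) (W t l m - W t l (m+1)) + (m+2)^(-a) W t (m+1) m
 + (m+1)^(-a) H t m - (m+2)^(-a) H t (m+1)`, and `W t (m+1) m = H t (m+1) - H t m` (the tuples with
first entry `m + 1`; `W t l m = 0` for `l ≤ m`), so it is `≥ ((m+1)^(-a) - (m+2)^(-a)) H t m ≥ 0`.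
(c) for `u ≠ []` there is `δ > 0` with `W u n 0 - W u n 1 ≥ δ` for all large `n` (same formula:
`u = [a]`: `1 - 2^(-a) > 0`; `u = a :: t`, `t ≠ []`: one term `l` of the sum and induction).
(d) with `Z_i = H [2i] n = ∑_{m<n} (m+1)^(-2i)`, `M_i = ∑_{m<n} (m+1)^(-2i) W u n m`, for `j < i`:
`M_i Z_j - M_j Z_i = ∑_{m < m' < n} (W m - W m') ((m+1)^(-2i) (m'+1)^(-2j) - (m+1)^(-2j) (m'+1)^(-2i))`,
all terms `≥ 0` (`W` is decreasing by (b)), the term `m = 0`, `m' = 1` is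
`≥ δ (4^(-j) - 4^(-i)) > 0`.  Let `n → ∞` (`tendsto_zl`; the members of `adds (2i) u` are admissible,
`adds_mem` in Sym.lean may help). -/
def St_Mon : Prop := ∀ u : List ℕ, u ≠ [] → Adm u → ∀ i j : ℕ, 0 < j → j < i →
  ((adds (2 * j) u).map zl).sum * zl [2 * i] < ((adds (2 * i) u).map zl).sum * zl [2 * j]

/-- LOC.

Proof.  Suppose all these `ζ(v)` are algebraic.  Let `μ_a = ∑_{w ∈ adds (2a) u} ζ(w)`.  By STF and
`st b w = ` insertions of `b` into `w` and `adds b w` (`sf_st` in Sym.lean):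
`ζ(2b) μ_a = ∑_{w ∈ adds (2a) u} (∑_{v ∈ permutations'Aux (2b) w} ζ(v)) +
∑_{w ∈ adds (2a) u} ∑_{v ∈ adds (2b) w} ζ(v)`.
The second sum is symmetric in `a, b` (`(adds b u).flatMap (adds c)` is a permutation of
`(adds c u).flatMap (adds b)`, induction on `u`).  So `κ_ab = ζ(2b) μ_a - ζ(2a) μ_b` is algebraic for
`a ≠ b` in `{i, j, k}`, and `κ_ij, κ_jk, κ_ik ≠ 0` by MON.  With `ζ(2a) = q_a π^(2a)` (ZEV) and
`e_a = μ_a/ζ(2a)`: `e_a - e_b = κ_ab / (q_a q_b π^(2a+2b))`, so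
`0 = (e_i - e_j) + (e_j - e_k) + (e_k - e_i)` gives, times `π^(2(i+j+k))`,
`κ_ij/(q_i q_j) π^(2k) + κ_jk/(q_j q_k) π^(2i) + κ_ki/(q_k q_i) π^(2j) = 0`, a nontrivial polynomial
relation for `π` with real algebraic coefficients, `0 < i < j < k`: contradiction with the
transcendence of `π` (`Helper21.transcendental_pi`; over `algebraicClosure ℚ ℝ`). -/
def St_Loc : Prop := ∀ u : List ℕ, u ≠ [] → Adm u → ∀ i j k : ℕ, 0 < i → i < j → j < k →
  ∃ a ∈ [i, j, k], ∃ b ∈ [i, j, k], a ≠ b ∧ ∃ w ∈ adds (2 * a) u,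
    ∃ v ∈ w.permutations'Aux (2 * b), ¬ IsAlgebraic ℚ (zl v)

/-- The indices of depth `r - 1` and weight `K - 4i`, `i ≥ 1`. -/
def src (K r : ℕ) : Set (List ℕ) :=
  {u | u ∈ Idx u.sum ∧ u.length = r - 1 ∧ u.sum + 4 ≤ K ∧ u.sum % 4 = K % 4}

/-- WIN.

Proof.  Let `K = n₁ + n₂ - n₃`, `u ∈ src K r`, `i = (K - |u|)/4`, `j = i + (n₃ - n₂)/2`,
`k = i + (n₃ - n₁)/2`; then `|u| + 2i + 2j = n₁`, `|u| + 2i + 2k = n₂`, `|u| + 2j + 2k = n₃`.  By LOC there
are `(a, b)` and `v` with `ζ(v)` not algebraic, `v` of weight one of the `n_l` and depth `r`, i.e.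
`v ∈ offd n_l r 1`.  Given `n_l` (so `{a, b}` as a set of two of the three letters `i, j, k`), `v`, the
order of `(a, b)` (2 possibilities), the position `q < r` of the inserted entry `2b` and the position
`p < r - 1` of the entry to which `2a` was added, `u` is determined: the entry `q` of `v` is
`2b = 2i + const`, so `i` and `a` are known; delete the entry `q` and subtract `2a` from the entry
`p`.  So `|src K r| ≤ 2 r (r-1) ∑_l |offd n_l r 1|`. -/
def St_Win : Prop := ∀ r n₁ n₂ n₃ : ℕ, 2 ≤ r → n₁ < n₂ → n₂ < n₃ → n₃ < n₁ + n₂ →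
  n₁ % 2 = n₂ % 2 → n₂ % 2 = n₃ % 2 →
  (src (n₁ + n₂ - n₃) r).ncard ≤
    2 * r * (r - 1) * ((offd n₁ r 1).ncard + (offd n₂ r 1).ncard + (offd n₃ r 1).ncard)

/-- FDL.

Proof.  `|src K r| ≥ c₀ K^(r-1)` for `K ≥ K₀(r)`: take the entries `u_2, …, u_(r-1)` in
`[1, K/(4r)]` and `i` in `[1, K/16]`, `u_1 = K - 4i - u_2 - … ≥ K/2 ≥ 2`; these `u` are different.  Let
`n` be called bad if `|offd n r 1| < c n^(r-1)`, `c = c(r)` small.  If `n₁ < n₂ < n₃ ≤ (6/5) n₁` are bad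
of the same parity and `n₁ ≥ X₀(r)`, `K = n₁ + n₂ - n₃ ≥ (4/5) n₁`, so WIN gives
`c₀ ((4/5) n₁)^(r-1) ≤ 2 r (r-1) 3 c ((6/5) n₁)^(r-1)`: contradiction for small `c`.  So `[X, 6X/5]`
contains at most `4` bad `n` for `X ≥ X₀`, and `[1, X]` contains at most
`X₀ + 4 (1 + log X / log (6/5)) ≤ C log X` of them. -/
def St_Fdl : Prop := ∀ r : ℕ, 2 ≤ r → ∃ c C : ℝ, 0 < c ∧ ∀ X : ℕ, 2 ≤ X →
  (({n : ℕ | 1 ≤ n ∧ n ≤ X ∧ ((offd n r 1).ncard : ℝ) < c * (n : ℝ) ^ (r - 1)}.ncard : ℕ) : ℝ) ≤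
    C * Real.log X

end Pool.Agent.MZA
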