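import Mathlib
import Pool.Agent.MZA.St2
import Pool.Agent.MZA.Main

set_option autoImplicit false

namespace Pool.Agent.MZA

open Finset Filter
open Pool.Agent.Helper21 (mzv H zl Adm)

namespace AllAux

theorem exists_off (x : ℝ) (L : List (List ℕ)) (h : ¬ IsAlgebraic ℚ ((L.map zl).sum / x)) :
    ∃ v ∈ L, ¬ IsAlgebraic ℚ (zl v / x) := by
  induction L with
  | nil => exact absurd (by simpa using (isAlgebraic_zero : IsAlgebraic ℚ (0 : ℝ))) h
  | cons v L ih =>
    by_contra hcon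
    push Not at hcon
    apply h
    rw [List.map_cons, List.sum_cons, add_div]
    refine (hcon v (by simp)).add ?_
    by_contra h2
    obtain ⟨u, hu, hu2⟩ := ih h2
    exact hu2 (hcon u (by simp [hu]))

theorem mem_off {N : ℕ} {x : ℝ} {v : List ℕ} (hv : Adm v) (hs : v.sum = N)
    (h : ¬ IsAlgebraic ℚ (zl v / x)) : v ∈ off N x := by
  refine ⟨⟨hv.1, hv.2, hs⟩, ?_⟩
  rw [main_mzv v hv]
  exact h

theorem ne_zero_of {N : ℕ} {x : ℝ} (hx : ¬ IsAlgebraic ℚ (x / Real.pi ^ N)) : x ≠ 0 := by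
  rintro rfl
  apply hx
  simpa using (isAlgebraic_zero : IsAlgebraic ℚ (0 : ℝ))

theorem off_fin (h3 : St_Cnt) {N : ℕ} (hN : 2 ≤ N) (x : ℝ) : (off N x).Finite :=
  (h3 N hN).1.subset (fun _ hw => hw.1)

/-- The first case. -/
theorem case_one (h3 : St_Cnt) (h : ∀ w : List ℕ, Adm w → IsAlgebraic ℚ (zl w / Real.pi ^ w.sum))
    (N : ℕ) (hN : 2 ≤ N) (x : ℝ) (hx : ¬ IsAlgebraic ℚ (x / Real.pi ^ N)) :
    2 ^ (N - 2) ≤ (off N x).ncard := by
  have hx0 := ne_zero_of hx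
  rw [← (h3 N hN).2]
  apply Set.ncard_le_ncard _ (off_fin h3 hN x)
  intro w hw
  have hadm : Adm w := ⟨hw.1, hw.2.1⟩
  refine mem_off hadm hw.2.2 ?_
  intro hal
  have hz : 0 < zl w := main_zl_pos w hadm
  have h1 := h w hadm
  rw [hw.2.2] at h1
  apply hx
  have e : x / Real.pi ^ N = (zl w / Real.pi ^ N) * (zl w / x)⁻¹ := by
    have := Real.pi_pos
    field_simp
  rw [e]
  exact h1.mul hal.inv

theorem length_le_sum (w : List ℕ) (h : ∀ a ∈ w, 1 ≤ a) : w.length ≤ w.sum := by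
  induction w with
  | nil => simp
  | cons a t ih =>
    have h1 := ih (fun b hb => h b (by simp [hb]))
    have h2 := h a (by simp)
    rw [List.length_cons, List.sum_cons]
    omega

/-- The second case. -/
theorem case_two (h1 : St_Qsh) (h3 : St_Cnt) (w w' : List ℕ) (hw : Adm w) (hw' : Adm w')
    (hs : w.sum = w'.sum) (hr : ¬ IsAlgebraic ℚ (zl w / zl w')) (N : ℕ) (hN : w.sum + 2 ≤ N)
    (x : ℝ) (hx : ¬ IsAlgebraic ℚ (x / Real.pi ^ N)) :
    2 ^ (N - w.sum - 2) ≤ (off N x).ncard * (2 * (2 * N) ^ w.sum) := by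
  classical
  have hx0 := ne_zero_of hx
  have hfin := off_fin h3 (show 2 ≤ N by omega) x
  set F := hfin.toFinset with hF
  obtain ⟨hf1, hf2⟩ := h3 (N - w.sum) (by omega)
  have key : ∀ u : List ℕ, Adm u → u.sum = w.sum → ∀ y ∈ Idx (N - w.sum),
      ¬ IsAlgebraic ℚ (zl u * zl y / x) → ∃ v ∈ F, y ∈ rem u v := by
    intro u hu hus y hy hal
    have hya : Adm y := ⟨hy.1, hy.2.1⟩
    obtain ⟨g1, g2⟩ := h1.1 u y hu hya
    rw [g1] at hal
    obtain ⟨v, hv, hv2⟩ := exists_off x _ hal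
    obtain ⟨q1, q2, q3⟩ := g2 v hv
    refine ⟨v, ?_, q3⟩
    rw [hF, Set.Finite.mem_toFinset]
    refine mem_off q1 ?_ hv2
    rw [q2, hus, hy.2.2]
    omega
  have hsub : hf1.toFinset ⊆ F.biUnion (fun v => (rem w v).toFinset ∪ (rem w' v).toFinset) := by
    intro y hy
    rw [Set.Finite.mem_toFinset] at hy
    have hya : Adm y := ⟨hy.1, hy.2.1⟩
    have hor : ¬ IsAlgebraic ℚ (zl w * zl y / x) ∨ ¬ IsAlgebraic ℚ (zl w' * zl y / x) := by
      by_contra hcon
      push Not at hcon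
      apply hr
      have hz : 0 < zl y := main_zl_pos y hya
      have hz' : 0 < zl w' := main_zl_pos w' hw'
      have e : zl w / zl w' = (zl w * zl y / x) * (zl w' * zl y / x)⁻¹ := by
        field_simp
      rw [e]
      exact hcon.1.mul hcon.2.inv
    rw [Finset.mem_biUnion]
    rcases hor with h | h
    · obtain ⟨v, hv, hv2⟩ := key w hw rfl y hy h
      exact ⟨v, hv, Finset.mem_union_left _ (List.mem_toFinset.2 hv2)⟩
    · obtain ⟨v, hv, hv2⟩ := key w' hw' hs.symm y hy h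
      exact ⟨v, hv, Finset.mem_union_right _ (List.mem_toFinset.2 hv2)⟩
  have hlen : ∀ u : List ℕ, Adm u → u.sum = w.sum → ∀ v ∈ F,
      (rem u v).toFinset.card ≤ (2 * N) ^ w.sum := by
    intro u hu hus v hv
    rw [hF, Set.Finite.mem_toFinset] at hv
    have hvl : v.length ≤ N := by
      rw [← hv.1.2.2]; exact length_le_sum v hv.1.1
    have hul : u.length ≤ w.sum := by
      rw [← hus]; exact length_le_sum u hu.1
    calc (rem u v).toFinset.card ≤ (rem u v).length := List.toFinset_card_le _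
      _ ≤ (2 * v.length) ^ u.length := h1.2 u v
      _ ≤ (2 * N) ^ u.length := Nat.pow_le_pow_left (by omega) _
      _ ≤ (2 * N) ^ w.sum := Nat.pow_le_pow_right (by omega) hul
  have hcard : hf1.toFinset.card ≤ F.card * (2 * (2 * N) ^ w.sum) := by
    refine (Finset.card_le_card hsub).trans (Finset.card_biUnion_le_card_mul _ _ _ ?_)
    intro v hv
    refine (Finset.card_union_le _ _).trans ?_
    have g1 := hlen w hw rfl v hv
    have g2 := hlen w' hw' hs.symm v hv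
    omega
  rw [← Set.ncard_eq_toFinset_card _ hf1, ← Set.ncard_eq_toFinset_card _ hfin, hf2] at hcard
  exact hcard

end AllAux

open AllAux in
theorem thm_All (h1 : St_Qsh) (h2 : St_Dic) (h3 : St_Cnt) : St_All := by
  rcases h2 with h2 | ⟨w, w', hw, hw', hs, hr⟩
  · refine ⟨2, fun N hN x hx => ?_⟩
    have h4 := case_one h3 h2 N hN x hx
    have h5 : ((2 : ℝ) ^ (N - 2)) ≤ ((off N x).ncard : ℝ) := by exact_mod_cast h4
    have h6 : (2 : ℝ) ^ N = 2 ^ (N - 2) * 4 := by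
      obtain ⟨k, rfl⟩ : ∃ k, N = k + 2 := ⟨N - 2, by omega⟩
      rw [pow_add]; norm_num
    have h7 : (2 : ℝ) ≤ N := by exact_mod_cast hN
    rw [div_le_iff₀ (by positivity), h6]
    have h8 : (4 : ℝ) ≤ (N : ℝ) ^ 2 := by nlinarith
    have h9 : (0 : ℝ) ≤ 2 ^ (N - 2) := by positivity
    calc (2 : ℝ) ^ (N - 2) * 4 ≤ 2 ^ (N - 2) * (N : ℝ) ^ 2 := mul_le_mul_of_nonneg_left h8 h9
      _ ≤ _ := mul_le_mul_of_nonneg_right h5 (by positivity)
  · refine ⟨3 * w.sum + 3, fun N hN x hx => ?_⟩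
    have h4 := case_two h1 h3 w w' hw hw' hs hr N (by omega) x hx
    set m := w.sum with hm
    have h5 : ((2 : ℝ) ^ (N - m - 2)) ≤ ((off N x).ncard : ℝ) * (2 * (2 * N) ^ m) := by
      exact_mod_cast h4
    have h6 : (2 : ℝ) ^ N = 2 ^ (N - m - 2) * 2 ^ (m + 2) := by
      rw [← pow_add]; congr 1; omega
    have h7 : (2 : ℝ) ≤ N := by
      have : 2 ≤ N := by omega
      exact_mod_cast this
    have hNpos : (0 : ℝ) < N := by linarith
    rw [div_le_iff₀ (by positivity), h6]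
    have h8 : (2 : ℝ) ^ (m + 2) * (2 * (2 * N) ^ m) ≤ (N : ℝ) ^ (3 * m + 3) := by
      have e1 : (2 : ℝ) ^ (m + 2) * (2 * (2 * N) ^ m) = 2 ^ (2 * m + 3) * (N : ℝ) ^ m := by
        rw [mul_pow]
        have : (2 : ℝ) ^ (2 * m + 3) = 2 ^ (m + 2) * (2 * 2 ^ m) := by
          rw [← pow_succ', ← pow_add]; congr 1; omega
        rw [this]; ring
      have e2 : (N : ℝ) ^ (3 * m + 3) = (N : ℝ) ^ (2 * m + 3) * (N : ℝ) ^ m := by
        rw [← pow_add]; congr 1; omega
      rw [e1, e2]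
      exact mul_le_mul_of_nonneg_right (pow_le_pow_left₀ (by norm_num) h7 _) (by positivity)
    calc (2 : ℝ) ^ (N - m - 2) * 2 ^ (m + 2)
        ≤ ((off N x).ncard : ℝ) * (2 * (2 * N) ^ m) * 2 ^ (m + 2) :=
          mul_le_mul_of_nonneg_right h5 (by positivity)
      _ = ((off N x).ncard : ℝ) * (2 ^ (m + 2) * (2 * (2 * N) ^ m)) := by ring
      _ ≤ _ := mul_le_mul_of_nonneg_left h8 (by positivity)

end Pool.Agent.MZA
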