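import Pool.Agent.MZA.St

set_option autoImplicit false

/-!
# The number of indices of weight `N` (MP_2000e9_nt)

The indices of weight `N` correspond to the compositions of `N - 1`, by adding one to the first block.
-/

namespace Pool.Agent.MZA

/-- Add one to the first entry. -/
def cntInc : List ℕ → List ℕ
  | [] => []
  | a :: t => (a + 1) :: t

theorem cntInc_inj : Function.Injective cntInc := by
  intro u v h
  cases u with
  | nil =>
    cases v with
    | nil => rfl
    | cons b t => simp [cntInc] at h
  | cons a s =>
    cases v with
    | nil => simp [cntInc] at h
    | cons b t =>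
      simp only [cntInc, List.cons.injEq, Nat.add_right_cancel_iff] at h
      obtain ⟨h1, h2⟩ := h
      subst h1
      subst h2
      rfl

theorem cnt_range (N : ℕ) (hN : 2 ≤ N) :
    Idx N = Set.range (fun c : Composition (N - 1) => cntInc c.blocks) := by
  apply Set.Subset.antisymm
  · rintro w ⟨h1, h2, h3⟩
    cases w with
    | nil =>
      exfalso
      simp at h3
      omega
    | cons a t =>
      have ha : 2 ≤ a := h2 a t rfl
      have hs : a + t.sum = N := by simpa using h3
      refine ⟨⟨(a - 1) :: t, ?_, ?_⟩, ?_⟩
      · intro i hi
        rcases List.mem_cons.1 hi with h | h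
        · omega
        · exact h1 i (List.mem_cons_of_mem _ h)
      · rw [List.sum_cons]
        omega
      · change cntInc ((a - 1) :: t) = a :: t
        simp only [cntInc]
        rw [Nat.sub_add_cancel (by omega)]
  · rintro _ ⟨c, rfl⟩
    have hp : ∀ i ∈ c.blocks, 0 < i := fun i hi => c.blocks_pos hi
    have hs : c.blocks.sum = N - 1 := c.blocks_sum
    change cntInc c.blocks ∈ Idx N
    generalize c.blocks = l at hp hs
    cases l with
    | nil =>
      exfalso
      simp at hs
      omega
    | cons a t =>
      have ha : 0 < a := hp a (by simp)
      rw [List.sum_cons] at hs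
      refine ⟨?_, ?_, ?_⟩
      · intro b hb
        simp only [cntInc] at hb
        rcases List.mem_cons.1 hb with h | h
        · omega
        · exact hp b (List.mem_cons_of_mem _ h)
      · intro b s hbs
        simp only [cntInc, List.cons.injEq] at hbs
        omega
      · simp only [cntInc, List.sum_cons]
        omega

/-- There are `2 ^ (N - 2)` indices of weight `N`. -/
theorem thm_Cnt : St_Cnt := by
  intro N hN
  have hinj : Function.Injective (fun c : Composition (N - 1) => cntInc c.blocks) := by
    intro c d h
    exact Composition.ext (cntInc_inj h)
  rw [cnt_range N hN]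
  refine ⟨Set.finite_range _, ?_⟩
  rw [← Set.image_univ, Set.ncard_image_of_injective _ hinj, Set.ncard_univ,
    Nat.card_eq_fintype_card, composition_card]
  congr 1

end Pool.Agent.MZA
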