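import Pool.Agent.MZA.St

set_option autoImplicit false

/-!
# MZA, module Dep: counting in fixed depth
-/

namespace Pool.Agent.MZA

open Finset
open Pool.Agent.Helper21 (mzv H zl Adm)

/-- add one to the first entry -/
def dep_inc : List ℕ → List ℕ
  | [] => []
  | a :: t => (a + 1) :: t

/-- the lists of `r` positive integers with sum `m` -/
def depL : ℕ → ℕ → List (List ℕ)
  | 0, 0 => [[]]
  | 0, _ + 1 => []
  | _ + 1, 0 => []
  | m + 1, r + 1 => (depL m r).map (fun l => 1 :: l) ++ (depL m (r + 1)).map dep_inc

theorem depL_length (m r : ℕ) : (depL (m + 1) (r + 1)).length = m.choose r := by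
  induction m generalizing r with
  | zero =>
    cases r with
    | zero => simp [depL]
    | succ r => simp [depL]
  | succ m ih =>
    rw [depL, List.length_append, List.length_map, List.length_map, ih]
    cases r with
    | zero => simp [depL]
    | succ r => rw [ih, Nat.choose_succ_succ]

theorem depL_mem (m r : ℕ) : ∀ l ∈ depL m r, l.length = r ∧ l.sum = m ∧ ∀ a ∈ l, 1 ≤ a := by
  induction m generalizing r with
  | zero =>
    cases r with
    | zero => simp [depL]
    | succ r => simp [depL]
  | succ m ih =>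
    cases r with
    | zero => simp [depL]
    | succ r =>
      intro l hl
      rw [depL, List.mem_append, List.mem_map, List.mem_map] at hl
      rcases hl with ⟨l', hl', rfl⟩ | ⟨l', hl', rfl⟩
      · obtain ⟨h1, h2, h3⟩ := ih r l' hl'
        refine ⟨by simp [h1], by simp [h2, add_comm], ?_⟩
        intro a ha
        rcases List.mem_cons.1 ha with rfl | ha
        · exact le_rfl
        · exact h3 a ha
      · obtain ⟨h1, h2, h3⟩ := ih (r + 1) l' hl'
        cases l' with
        | nil => simp at h1
        | cons b t =>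
          rw [List.length_cons] at h1
          rw [List.sum_cons] at h2
          refine ⟨by simp only [dep_inc, List.length_cons]; omega,
            by simp only [dep_inc, List.sum_cons]; omega, ?_⟩
          intro a ha
          rcases List.mem_cons.1 ha with rfl | ha
          · omega
          · exact h3 a (List.mem_cons_of_mem _ ha)

theorem dep_inc_inj {l l' : List ℕ} (h : dep_inc l = dep_inc l') : l = l' := by
  cases l with
  | nil =>
    cases l' with
    | nil => rfl
    | cons a t => simp [dep_inc] at h
  | cons a t =>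
    cases l' with
    | nil => simp [dep_inc] at h
    | cons b s =>
      simp only [dep_inc, List.cons.injEq, add_left_inj] at h
      rw [h.1, h.2]

theorem depL_nodup (m r : ℕ) : (depL m r).Nodup := by
  induction m generalizing r with
  | zero =>
    cases r with
    | zero => simp [depL]
    | succ r => simp [depL]
  | succ m ih =>
    cases r with
    | zero => simp [depL]
    | succ r =>
      rw [depL, List.nodup_append]
      refine ⟨(ih r).map fun a b h => (List.cons.inj h).2, (ih (r + 1)).map fun a b h =>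
        dep_inc_inj h, ?_⟩
      intro l hl l' hl' hll
      rw [List.mem_map] at hl hl'
      obtain ⟨a, ha, rfl⟩ := hl
      obtain ⟨b, hb, rfl⟩ := hl'
      obtain ⟨h1, -, h3⟩ := depL_mem m (r + 1) b hb
      cases b with
      | nil => simp at h1
      | cons c t =>
        simp only [dep_inc, List.cons.injEq] at hll
        have := h3 c List.mem_cons_self
        omega

theorem dep_alg_sum (l : List (List ℕ)) (x : ℝ) (h : ∀ v ∈ l, IsAlgebraic ℚ (zl v / x)) :
    IsAlgebraic ℚ ((l.map zl).sum / x) := by
  induction l with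
  | nil =>
    rw [List.map_nil, List.sum_nil, zero_div]
    exact isAlgebraic_zero
  | cons v l ih =>
    rw [List.map_cons, List.sum_cons, add_div]
    exact (h v List.mem_cons_self).add (ih fun w hw => h w (List.mem_cons_of_mem _ hw))

theorem dep_exists (h : St_Sym) (m : ℕ) (c : List ℕ) (hc : ∀ a ∈ c, 1 ≤ a) (hs : c.sum = m) (x : ℝ)
    (hx : ¬ IsAlgebraic ℚ (x / Real.pi ^ (2 * m))) :
    ∃ v : List ℕ, v.Perm (c.map (fun a => 2 * a)) ∧ ¬ IsAlgebraic ℚ (zl v / x) := by
  have hw : ∀ a ∈ c.map (fun a => 2 * a), 2 ≤ a ∧ Even a := by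
    intro a ha
    rw [List.mem_map] at ha
    obtain ⟨b, hb, rfl⟩ := ha
    have := hc b hb
    exact ⟨by omega, even_two_mul b⟩
  obtain ⟨q, hq, he⟩ := h _ hw
  have hsum : (c.map (fun a => 2 * a)).sum = 2 * m := by
    rw [List.sum_map_mul_left, List.map_id', hs]
  rw [hsum] at he
  by_contra hcon
  push Not at hcon
  have h1 := dep_alg_sum (c.map (fun a => 2 * a)).permutations' x
    fun v hv => hcon v (List.mem_permutations'.1 hv)
  rw [he] at h1
  apply hx
  have h2 : x / Real.pi ^ (2 * m) = (q : ℝ) * ((q : ℝ) * Real.pi ^ (2 * m) / x)⁻¹ := by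
    have hq0 : (q : ℝ) ≠ 0 := by exact_mod_cast hq.ne'
    have hp : Real.pi ^ (2 * m) ≠ 0 := pow_ne_zero _ Real.pi_ne_zero
    by_cases hx0 : x = 0
    · subst hx0
      simp
    · field_simp
  rw [h2]
  have h3 : IsAlgebraic ℚ (q : ℝ) := isAlgebraic_algebraMap (A := ℝ) q
  exact h3.mul h1.inv

theorem dep_finite (N r : ℕ) (x : ℝ) : (offd N r x).Finite := by
  have h1 : (Set.range fun f : Fin r → Fin (N + 1) => List.ofFn fun i => (f i : ℕ)).Finite :=
    Set.finite_range _
  refine h1.subset ?_
  rintro w ⟨⟨⟨-, -, hs⟩, -⟩, hl⟩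
  subst hl
  refine ⟨fun i => ⟨w.get i, ?_⟩, List.ofFn_get w⟩
  have := List.single_le_sum (l := w) (fun _ _ => Nat.zero_le _) (w.get i) (List.get_mem w i)
  omega

theorem thm_Dep (h : St_Sym) : St_Dep := by
  classical
  intro m r hm hr x hx
  obtain ⟨m, rfl⟩ : ∃ m', m = m' + 1 := ⟨m - 1, by omega⟩
  obtain ⟨r, rfl⟩ : ∃ r', r = r' + 1 := ⟨r - 1, by omega⟩
  set Q : Finset (List ℕ) := (depL (m + 1) (r + 1)).toFinset with hQ
  have hcard : Q.card = m.choose r := by
    rw [hQ, List.toFinset_card_of_nodup (depL_nodup _ _), depL_length]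
  have hQm : ∀ c ∈ Q, c.length = r + 1 ∧ c.sum = m + 1 ∧ ∀ a ∈ c, 1 ≤ a := fun c hc =>
    depL_mem _ _ c (List.mem_toFinset.1 hc)
  have hex : ∀ c : List ℕ, ∃ v : List ℕ, c ∈ Q → v.Perm (c.map (fun a => 2 * a)) ∧
      ¬ IsAlgebraic ℚ (zl v / x) := by
    intro c
    by_cases hc : c ∈ Q
    · obtain ⟨h1, h2, h3⟩ := hQm c hc
      obtain ⟨v, hv⟩ := dep_exists h (m + 1) c h3 h2 x hx
      exact ⟨v, fun _ => hv⟩
    · exact ⟨[], fun h => absurd h hc⟩
  choose f hf using hex
  have himg : ((Q.image f : Finset (List ℕ)) : Set (List ℕ)) ⊆ offd (2 * (m + 1)) (r + 1) x := by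
    intro v hv
    rw [Finset.mem_coe, Finset.mem_image] at hv
    obtain ⟨c, hc, rfl⟩ := hv
    obtain ⟨h1, h2, h3⟩ := hQm c hc
    obtain ⟨p, hp⟩ := hf c hc
    have hge : ∀ a ∈ f c, 2 ≤ a := by
      intro a ha
      rw [p.mem_iff, List.mem_map] at ha
      obtain ⟨b, hb, rfl⟩ := ha
      have := h3 b hb
      omega
    have hsum : (f c).sum = 2 * (m + 1) := by
      rw [p.sum_eq, List.sum_map_mul_left, List.map_id', h2]
    refine ⟨⟨⟨fun a ha => le_trans (by norm_num) (hge a ha), fun a t hat => hge a ?_, hsum⟩, ?_⟩, ?_⟩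
    · rw [hat]
      exact List.mem_cons_self
    · rw [Pool.Agent.Helper21.mzv_eq_zl _ (fun i => le_trans (by norm_num)
        (hge _ (List.get_mem _ i))) (fun h0 => hge _ (List.get_mem _ _)), List.ofFn_get]
      exact hp
    · rw [p.length_eq, List.length_map, h1]
  have hfib : ∀ v ∈ Q.image f, (Q.filter fun c => f c = v).card ≤ (r + 1).factorial := by
    intro v hv
    rw [Finset.mem_image] at hv
    obtain ⟨c0, hc0, rfl⟩ := hv
    have hlen : ((f c0).map (fun a => a / 2)).length = r + 1 := by
      rw [List.length_map, (hf c0 hc0).1.length_eq, List.length_map, (hQm c0 hc0).1]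
    have hsub : (Q.filter fun c => f c = f c0) ⊆
        ((f c0).map (fun a => a / 2)).permutations.toFinset := by
      intro c hc
      rw [Finset.mem_filter] at hc
      obtain ⟨hc, he⟩ := hc
      rw [List.mem_toFinset, List.mem_permutations]
      have hp := ((hf c hc).1.map (fun a => a / 2)).symm
      rw [List.map_map, he] at hp
      have hid : c.map ((fun a => a / 2) ∘ fun a => 2 * a) = c := by
        conv_rhs => rw [← List.map_id c]
        apply List.map_congr_left
        intro a _
        simp only [Function.comp_apply, id]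
        omega
      rw [hid] at hp
      exact hp
    refine (Finset.card_le_card hsub).trans ?_
    refine (List.toFinset_card_le _).trans ?_
    rw [List.length_permutations, hlen]
  have hmain := Finset.card_le_mul_card_image Q _ hfib
  rw [hcard] at hmain
  have hle : (Q.image f).card ≤ (offd (2 * (m + 1)) (r + 1) x).ncard := by
    rw [← Set.ncard_coe_finset]
    exact Set.ncard_le_ncard himg (dep_finite _ _ _)
  have := hmain.trans (Nat.mul_le_mul_left _ hle)
  simpa using this

end Pool.Agent.MZA
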