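import Mathlib
import Pool.Agent.MZA.St2
import Pool.Agent.MZA.Main

set_option autoImplicit false

namespace Pool.Agent.MZA

open Finset Filter
open Pool.Agent.Helper21 (mzv H zl Adm)

private theorem dic_sum (L : List (List ℕ)) (c : ℝ) (h : ∀ v ∈ L, IsAlgebraic ℚ (zl v / c)) :
    IsAlgebraic ℚ ((L.map zl).sum / c) := by
  induction L with
  | nil =>
    simp only [List.map_nil, List.sum_nil, zero_div]
    exact isAlgebraic_zero
  | cons v L ih =>
    rw [List.map_cons, List.sum_cons, add_div]
    exact (h v (List.mem_cons_self ..)).add (ih fun u hu => h u (List.mem_cons_of_mem _ hu))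

theorem thm_Dic (h1 : St_Qsh) (h2 : St_Zev) : St_Dic := by
  by_cases hex : ∃ w w' : List ℕ, Adm w ∧ Adm w' ∧ w.sum = w'.sum ∧
      ¬ IsAlgebraic ℚ (zl w / zl w')
  · exact Or.inr hex
  · left
    push Not at hex
    intro w hw
    have hpi : (0 : ℝ) < Real.pi := Real.pi_pos
    by_cases hw0 : w.sum = 0
    · have hnil : w = [] := by
        cases w with
        | nil => rfl
        | cons a t =>
          have h3 := hw.2 a t rfl
          rw [List.sum_cons] at hw0
          omega
      subst hnil
      rw [Pool.Agent.Helper21.zl_nil]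
      simpa using (isAlgebraic_one : IsAlgebraic ℚ (1 : ℝ))
    · obtain ⟨q, hq, hz⟩ := h2 w.sum (by omega)
      obtain ⟨hprod, hmem⟩ := h1.1 w w hw hw
      have hq0 : (q : ℝ) ≠ 0 := by exact_mod_cast hq.ne'
      have hqa : IsAlgebraic ℚ (q : ℝ) := isAlgebraic_algebraMap q
      have hadm : Adm [2 * w.sum] := by
        refine ⟨fun a ha => ?_, fun a t ht => ?_⟩
        · rw [List.mem_singleton] at ha
          omega
        · rw [List.cons.injEq] at ht
          omega
      have hterm : ∀ v ∈ qs w w, IsAlgebraic ℚ (zl v / Real.pi ^ (2 * w.sum)) := by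
        intro v hv
        obtain ⟨hva, hvs, -⟩ := hmem v hv
        have h3 := hex v [2 * w.sum] hva hadm (by rw [hvs, List.sum_singleton]; ring)
        rw [hz] at h3
        have h4 : zl v / Real.pi ^ (2 * w.sum) =
            (q : ℝ) * (zl v / ((q : ℝ) * Real.pi ^ (2 * w.sum))) := by
          field_simp
        rw [h4]
        exact hqa.mul h3
      have h5 := dic_sum (qs w w) (Real.pi ^ (2 * w.sum)) hterm
      rw [← hprod] at h5
      have h6 : (zl w / Real.pi ^ w.sum) ^ 2 = zl w * zl w / Real.pi ^ (2 * w.sum) := by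
        rw [div_pow, sq, ← pow_mul, Nat.mul_comm]
      rw [← h6] at h5
      exact h5.of_pow (by norm_num)

end Pool.Agent.MZA
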