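import Mathlib
import Pool.Agent.MZA.St2
import Pool.Agent.MZA.Main

set_option autoImplicit false

/-!
# Final forms (MP_2000e9_nt)
-/

namespace Pool.Agent.MZA

open Finset Filter
open Pool.Agent.Helper21 (mzv H zl Adm)

/-- The indices of weight `N` with a transcendental multiple zeta value. -/
def tra (N : ℕ) : Set (List ℕ) :=
  {w | w ∈ Idx N ∧ Transcendental ℚ (mzv (fun i : Fin w.length => w.get i))}

theorem off_one (N : ℕ) : off N 1 = tra N := by
  ext w
  simp only [off, tra, Set.mem_ofPred_eq, div_one]
  rfl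

theorem adds_set (b : ℕ) (u : List ℕ) : ∀ w ∈ adds b u, ∃ p < u.length,
    w = u.set p (u.getD p 0 + b) := by
  induction u with
  | nil => intro w hw; simp [adds] at hw
  | cons a t ih =>
    intro w hw
    simp only [adds, List.mem_cons, List.mem_map] at hw
    rcases hw with rfl | ⟨v, hv, rfl⟩
    · exact ⟨0, by simp, by simp⟩
    · obtain ⟨p, hp, rfl⟩ := ih v hv
      exact ⟨p + 1, by simpa using hp, by simp⟩

theorem ins_insertIdx (b : ℕ) (w : List ℕ) : ∀ v ∈ w.permutations'Aux b, ∃ q ≤ w.length,
    v = w.insertIdx q b := by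
  induction w with
  | nil =>
    intro v hv
    simp only [List.permutations'Aux, List.mem_singleton] at hv
    exact ⟨0, le_rfl, by rw [hv]; rfl⟩
  | cons a t ih =>
    intro v hv
    simp only [List.permutations'Aux, List.mem_cons, List.mem_map] at hv
    rcases hv with rfl | ⟨v', hv', rfl⟩
    · exact ⟨0, Nat.zero_le _, by simp⟩
    · obtain ⟨q, hq, rfl⟩ := ih v' hv'
      exact ⟨q + 1, by simpa using hq, by simp⟩

theorem adds_adm (b : ℕ) (u : List ℕ) (hu : Adm u) : ∀ w ∈ adds b u, Adm w := by
  intro w hw
  obtain ⟨p, hp, rfl⟩ := adds_set b u w hw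
  constructor
  · intro a ha
    rcases List.mem_or_eq_of_mem_set ha with h | h
    · exact hu.1 a h
    · have h1 : 1 ≤ u.getD p 0 := by
        rw [List.getD_eq_getElem _ _ hp]
        exact hu.1 _ (List.getElem_mem hp)
      omega
  · intro a t hat
    cases u with
    | nil => simp at hp
    | cons c s =>
      have h2 := hu.2 c s rfl
      cases p with
      | zero =>
        simp only [List.set_cons_zero, List.getD_cons_zero] at hat
        have := (List.cons.inj hat).1
        omega
      | succ p =>
        simp only [List.set_cons_succ] at hat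
        have := (List.cons.inj hat).1
        omega

theorem ins_adm (b : ℕ) (hb : 2 ≤ b) (w : List ℕ) (hw : Adm w) :
    ∀ v ∈ w.permutations'Aux b, Adm v := by
  intro v hv
  obtain ⟨q, hq, rfl⟩ := ins_insertIdx b w v hv
  constructor
  · intro a ha
    rw [List.mem_insertIdx hq] at ha
    rcases ha with rfl | h
    · omega
    · exact hw.1 a h
  · intro a t hat
    cases q with
    | zero =>
      rw [List.insertIdx_zero] at hat
      have := (List.cons.inj hat).1
      omega
    | succ q =>
      cases w with
      | nil => simp at hq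
      | cons c s =>
        rw [List.insertIdx_succ_cons] at hat
        have := (List.cons.inj hat).1
        have h2 := hw.2 c s rfl
        omega

theorem adds_sum (b : ℕ) (u : List ℕ) : ∀ w ∈ adds b u, w.sum = u.sum + b := by
  induction u with
  | nil => intro w hw; simp [adds] at hw
  | cons a t ih =>
    intro w hw
    simp only [adds, List.mem_cons, List.mem_map] at hw
    rcases hw with rfl | ⟨v, hv, rfl⟩
    · simp only [List.sum_cons]; ring
    · simp only [List.sum_cons, ih v hv]; ring

theorem ins_sum (b : ℕ) (w : List ℕ) : ∀ v ∈ w.permutations'Aux b, v.sum = w.sum + b := by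
  induction w with
  | nil =>
    intro v hv
    simp only [List.permutations'Aux, List.mem_singleton] at hv
    rw [hv]; simp
  | cons a t ih =>
    intro v hv
    simp only [List.permutations'Aux, List.mem_cons, List.mem_map] at hv
    rcases hv with rfl | ⟨v', hv', rfl⟩
    · simp only [List.sum_cons]; ring
    · simp only [List.sum_cons, ih v' hv']; ring

/-- The local statement in terms of positions. -/
theorem loc_final (h : St_Loc) : ∀ u : List ℕ, u ≠ [] → u ∈ Idx u.sum → ∀ i j k : ℕ, 0 < i → i < j →
    j < k → ∃ a ∈ [i, j, k], ∃ b ∈ [i, j, k], a ≠ b ∧ ∃ p < u.length, ∃ q ≤ u.length,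
      (u.set p (u.getD p 0 + 2 * a)).insertIdx q (2 * b) ∈ tra (u.sum + 2 * a + 2 * b) := by
  intro u hu hI i j k hi hij hjk
  have hA : Adm u := ⟨hI.1, hI.2.1⟩
  obtain ⟨a, ha, b, hb, hab, w, hw, v, hv, ht⟩ := h u hu hA i j k hi hij hjk
  refine ⟨a, ha, b, hb, hab, ?_⟩
  have hb0 : 0 < b := by
    simp only [List.mem_cons, List.not_mem_nil, or_false] at hb
    omega
  have hwA := adds_adm (2 * a) u hA w hw
  have hvA := ins_adm (2 * b) (by omega) w hwA v hv
  have hs : v.sum = u.sum + 2 * a + 2 * b := by
    rw [ins_sum _ _ v hv, adds_sum _ _ w hw]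
  obtain ⟨p, hp, rfl⟩ := adds_set (2 * a) u w hw
  obtain ⟨q, hq, rfl⟩ := ins_insertIdx (2 * b) _ v hv
  rw [List.length_set] at hq
  refine ⟨p, hp, q, hq, ⟨hvA.1, hvA.2, hs⟩, ?_⟩
  rw [main_mzv _ hvA]
  exact ht

end Pool.Agent.MZA
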