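import Mathlib
import Pool.Agent.MZA.St2
import Pool.Agent.MZA.Fin
import Pool.Agent.MZA.Cnt

set_option autoImplicit false

/-!
# MZA Exi: every weight except at most one of 3, 5, 7 has a transcendental multiple zeta value

For odd `N ≥ 9` the numbers `ζ(3) π^(N-3)` and `ζ(3)^3 π^(N-9)` are in `Z_N`; if both are algebraic
multiples of `x` then `(ζ(3)/π^3)^2` is algebraic, so `ζ(3)/π^3` is, and `x` is an algebraic multiple
of `π^N`.
-/

namespace Pool.Agent.MZA

open Finset Filter
open Pool.Agent.Helper21 (mzv mzvSpace H zl Adm)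

theorem exi_span {N : ℕ} {x : ℝ} (h : off N x = ∅) : ∀ z ∈ mzvSpace N, IsAlgebraic ℚ (z / x) := by
  intro z hz
  rw [Pool.Agent.Helper21.mzvSpace_eq] at hz
  induction hz using Submodule.span_induction with
  | mem y hy =>
    obtain ⟨w, hw, hN, rfl⟩ := hy
    by_contra hcon
    have h1 : w ∈ off N x := by
      refine ⟨⟨hw.1, hw.2, hN⟩, ?_⟩
      rw [main_mzv w hw]
      exact hcon
    rw [h] at h1
    exact h1
  | zero => rw [zero_div]; exact isAlgebraic_zero
  | add a b _ _ ha hb => rw [add_div]; exact ha.add hb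
  | smul q a _ ha =>
    rw [Rat.smul_def, mul_div_assoc]
    exact (isAlgebraic_algebraMap q).mul ha

theorem exi_off {N : ℕ} (hN : Even N ∨ 9 ≤ N) {x : ℝ} (hx : ¬ IsAlgebraic ℚ (x / Real.pi ^ N)) :
    (off N x).Nonempty := by
  by_contra hcon
  rw [Set.not_nonempty_iff_eq_empty] at hcon
  have h := exi_span hcon
  have hpi : ∀ n : ℕ, Real.pi ^ n ≠ 0 := fun n => pow_ne_zero _ Real.pi_ne_zero
  have hx0 : x ≠ 0 := by
    rintro rfl
    apply hx
    rw [zero_div]
    exact isAlgebraic_zero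
  rcases Nat.even_or_odd N with he | ho
  · have h1 := (h _ (Pool.Agent.Helper21.pi_pow_mem he)).inv
    rw [inv_div] at h1
    exact hx h1
  · have h9 : 9 ≤ N := by
      rcases hN with h1 | h1
      · exact absurd h1 (Nat.not_even_iff_odd.2 ho)
      · exact h1
    have hz := Pool.Agent.Helper21.zl_three_pos
    have h3 : zl [3] * Real.pi ^ (N - 3) ∈ mzvSpace N := by
      have := Pool.Agent.Helper21.mul_mem_mzvSpace Pool.Agent.Helper21.zl_three_mem
        (Pool.Agent.Helper21.pi_pow_mem (n := N - 3) (by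
          obtain ⟨k, rfl⟩ := ho
          exact ⟨k - 1, by omega⟩))
      have e : 3 + (N - 3) = N := by omega
      rwa [e] at this
    have h33 : zl [3] ^ 3 * Real.pi ^ (N - 9) ∈ mzvSpace N := by
      have := Pool.Agent.Helper21.mul_mem_mzvSpace
        (Pool.Agent.Helper21.pow_mem_mzvSpace Pool.Agent.Helper21.zl_three_mem 3)
        (Pool.Agent.Helper21.pi_pow_mem (n := N - 9) (by
          obtain ⟨k, rfl⟩ := ho
          exact ⟨k - 4, by omega⟩))
      have e : 3 * 3 + (N - 9) = N := by omega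
      rwa [e] at this
    have a1 := h _ h3
    have a2 := h _ h33
    have e1 : Real.pi ^ (N - 3) = Real.pi ^ (N - 9) * Real.pi ^ 6 := by
      rw [← pow_add]
      congr 1
      omega
    have a3 : IsAlgebraic ℚ ((zl [3] / Real.pi ^ 3) ^ 2) := by
      have a4 := a2.mul a1.inv
      have e2 : zl [3] ^ 3 * Real.pi ^ (N - 9) / x * (zl [3] * Real.pi ^ (N - 3) / x)⁻¹ =
          (zl [3] / Real.pi ^ 3) ^ 2 := by
        rw [e1]
        have := hpi (N - 9)
        field_simp
      rwa [e2] at a4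
    have a5 : IsAlgebraic ℚ (zl [3] / Real.pi ^ 3) := IsAlgebraic.of_pow (by norm_num) a3
    apply hx
    have a6 := a5.mul a1.inv
    have e3 : zl [3] / Real.pi ^ 3 * (zl [3] * Real.pi ^ (N - 3) / x)⁻¹ = x / Real.pi ^ N := by
      have e4 : Real.pi ^ N = Real.pi ^ (N - 3) * Real.pi ^ 3 := by
        rw [← pow_add]
        congr 1
        omega
      rw [e4]
      have := hpi (N - 3)
      field_simp
    rwa [e3] at a6

theorem exi_three {N : ℕ} (ho : Odd N) (h3 : 3 ≤ N) (h : tra N = ∅) :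
    IsAlgebraic ℚ (zl [3] * Real.pi ^ (N - 3)) := by
  rw [← off_one] at h
  have h1 : zl [3] * Real.pi ^ (N - 3) ∈ mzvSpace N := by
    have := Pool.Agent.Helper21.mul_mem_mzvSpace Pool.Agent.Helper21.zl_three_mem
      (Pool.Agent.Helper21.pi_pow_mem (n := N - 3) (by
        obtain ⟨k, rfl⟩ := ho
        exact ⟨k - 1, by omega⟩))
    have e : 3 + (N - 3) = N := by omega
    rwa [e] at this
  have h2 := exi_span h _ h1
  rwa [div_one] at h2

theorem exi_pi (n : ℕ) (hn : 1 ≤ n) : ¬ IsAlgebraic ℚ (Real.pi ^ n) := by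
  intro h
  exact Pool.Agent.Helper21.transcendental_pi (IsAlgebraic.of_pow (by omega) h)

theorem exi_one {N : ℕ} (hN : 1 ≤ N) : ¬ IsAlgebraic ℚ ((1 : ℝ) / Real.pi ^ N) := by
  intro h
  have h1 := h.inv
  rw [one_div, inv_inv] at h1
  exact exi_pi N hN h1

theorem exi_two {M N : ℕ} (hM : Odd M) (hN : Odd N) (h3 : 3 ≤ M) (hMN : M < N) (h1 : tra M = ∅)
    (h2 : tra N = ∅) : False := by
  have a1 := exi_three hM h3 h1
  have a2 := exi_three hN (by omega) h2
  have hz := Pool.Agent.Helper21.zl_three_pos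
  have a3 := a2.mul a1.inv
  have e1 : Real.pi ^ (N - 3) = Real.pi ^ (M - 3) * Real.pi ^ (N - M) := by
    rw [← pow_add]
    congr 1
    omega
  have e2 : zl [3] * Real.pi ^ (N - 3) * (zl [3] * Real.pi ^ (M - 3))⁻¹ = Real.pi ^ (N - M) := by
    rw [e1]
    have : Real.pi ^ (M - 3) ≠ 0 := pow_ne_zero _ Real.pi_ne_zero
    field_simp
  rw [e2] at a3
  exact exi_pi (N - M) (by omega) a3

/-- Every weight `N ≥ 2`, except at most one of the weights `3, 5, 7`, has a transcendental multiple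
zeta value. -/
theorem thm_Exi : ∃ N₀ ∈ ({3, 5, 7} : Set ℕ), ∀ N : ℕ, 2 ≤ N → N ≠ N₀ → (tra N).Nonempty := by
  have hgen : ∀ N : ℕ, 2 ≤ N → N ≠ 3 → N ≠ 5 → N ≠ 7 → (tra N).Nonempty := by
    intro N hN n3 n5 n7
    rw [← off_one]
    apply exi_off _ (exi_one (by omega))
    rcases Nat.even_or_odd N with he | ho
    · exact Or.inl he
    · right
      obtain ⟨k, rfl⟩ := ho
      omega
  by_cases h3 : tra 3 = ∅
  · refine ⟨3, by simp, fun N hN hN3 => ?_⟩
    by_cases h5 : N = 5
    · subst h5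
      by_contra hcon
      rw [Set.not_nonempty_iff_eq_empty] at hcon
      exact exi_two (by decide) (by decide) le_rfl (by norm_num) h3 hcon
    by_cases h7 : N = 7
    · subst h7
      by_contra hcon
      rw [Set.not_nonempty_iff_eq_empty] at hcon
      exact exi_two (by decide) (by decide) le_rfl (by norm_num) h3 hcon
    exact hgen N hN hN3 h5 h7
  by_cases h5 : tra 5 = ∅
  · refine ⟨5, by simp, fun N hN hN5 => ?_⟩
    by_cases h3' : N = 3
    · subst h3'
      exact Set.nonempty_iff_ne_empty.2 h3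
    by_cases h7 : N = 7
    · subst h7
      by_contra hcon
      rw [Set.not_nonempty_iff_eq_empty] at hcon
      exact exi_two (by decide) (by decide) (by norm_num) (by norm_num) h5 hcon
    exact hgen N hN h3' hN5 h7
  refine ⟨7, by simp, fun N hN hN7 => ?_⟩
  by_cases h3' : N = 3
  · subst h3'
    exact Set.nonempty_iff_ne_empty.2 h3
  by_cases h5' : N = 5
  · subst h5'
    exact Set.nonempty_iff_ne_empty.2 h5
  exact hgen N hN h3' h5' hN7

/-- The bound of St_All holds for every weight `N ≥ 2` except `3, 5, 7`. -/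
theorem thm_AllN (h : St_All) : ∃ C : ℕ, ∀ N : ℕ, 2 ≤ N → N ≠ 3 → N ≠ 5 → N ≠ 7 → ∀ x : ℝ,
    ¬ IsAlgebraic ℚ (x / Real.pi ^ N) → (2 : ℝ) ^ N / (N : ℝ) ^ C ≤ (off N x).ncard := by
  obtain ⟨C, hC⟩ := h
  refine ⟨C, ?_⟩
  intro N hN n3 n5 n7 x hx
  rcases Nat.lt_or_ge N C with h1 | h1
  · have h2 : (off N x).Nonempty := by
      apply exi_off _ hx
      rcases Nat.even_or_odd N with he | ho
      · exact Or.inl he
      · right
        obtain ⟨k, rfl⟩ := ho
        omega
    have hf : (off N x).Finite := (thm_Cnt N hN).1.subset fun w hw => hw.1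
    have h3 : 1 ≤ (off N x).ncard := (Set.ncard_pos hf).2 h2
    have h4 : (1 : ℝ) ≤ (off N x).ncard := by exact_mod_cast h3
    refine le_trans ?_ h4
    have hNR : (2 : ℝ) ≤ N := by exact_mod_cast hN
    rw [div_le_one (by positivity)]
    calc (2 : ℝ) ^ N ≤ 2 ^ C := pow_le_pow_right₀ (by norm_num) h1.le
      _ ≤ (N : ℝ) ^ C := pow_le_pow_left₀ (by norm_num) hNR C
  · exact hC N h1 x hx

end Pool.Agent.MZA
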