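import Mathlib
import Pool.Agent.MZA.St2
import Pool.Agent.Helper21.MZVAlg

set_option autoImplicit false

/-!
# Abundance of transcendental multiple zeta values, third part (MP_2000e9_nt)

`A = algebraicClosure ℚ ℝ`, the real algebraic numbers; `algSpace N` is the `A`-span of the multiple
zeta values of weight `N`.
-/

namespace Pool.Agent.MZA

open Finset Filter
open Pool.Agent.Helper21 (mzv mzvSpace algSpace H zl Adm)

/-- The indices `w` of weight `N` with `ζ(w) ∉ V`. -/
def out (N : ℕ) (V : Submodule (algebraicClosure ℚ ℝ) ℝ) : Set (List ℕ) :=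
  {w | w ∈ Idx N ∧ mzv (fun i : Fin w.length => w.get i) ∉ V}

/-- ROB.  If some `A Z_m` has dimension `> k`, then for all large `N` every `k`-dimensional
`A`-subspace of `ℝ` misses at least `2^N/N^C` of the MZVs of weight `N`.

Proof.  `algSpace m` is the `A`-span of the `ζ(w)`, `w ∈ I_m` (`Helper21.mzvSpace_eq`, `Idx`,
`main_mzv` in Main.lean), so there are `w_0, …, w_k ∈ I_m` with `ζ(w_i)` linearly independent over `A`
(`exists_linearIndependent`, or `Submodule.exists_fun_fin_finrank_span_eq` applied to the set of the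
`ζ(w)`; a maximal independent subset of a spanning set has `finrank` elements).  `m ≥ 2` or `m = 0`
(`k = 0`; if `m = 0` then `w_0 = []`).  Let `N ≥ m + 2`, `y ∈ I_(N-m)`.  The `k + 1` numbers
`ζ(w_i) ζ(y)` are linearly independent (`ζ(y) > 0`, `main_zl_pos`), so they are not all in `V`, and by QSH
some `v ∈ qs w_i y` has `ζ(v) ∉ V`, `y ∈ rem w_i v`.  So
`2^(N-m-2) = |I_(N-m)| ≤ (k+1) (2N)^m |out N V|` (`w.length ≤ m`, `v.length ≤ N`), and
`2^(N-m-2) ≥ (k+1) (2N)^m 2^N / N^C` for `N ≥ C` if `C` is large in terms of `k` and `m`. -/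
def St_Rob : Prop := ∀ k m : ℕ, k < Module.finrank (algebraicClosure ℚ ℝ) (algSpace m) →
  ∃ C : ℕ, ∀ N : ℕ, C ≤ N → ∀ V : Submodule (algebraicClosure ℚ ℝ) ℝ,
    Module.Finite (algebraicClosure ℚ ℝ) V → Module.finrank (algebraicClosure ℚ ℝ) V ≤ k →
    (2 : ℝ) ^ N / (N : ℝ) ^ C ≤ (out N V).ncard

/-- RDI.  The dichotomy.

Proof.  If all `z/π^n`, `z ∈ mzvSpace n`, are algebraic for all `n`, the first alternative holds
(`Helper21.zl_mem`, `main_mzv`).  Otherwise let `z ∈ mzvSpace n` with `z/π^n` not algebraic.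
`Helper21.exists_ratio` gives `n' > 0` and `x, y ∈ mzvSpace n'` with `x/y` transcendental, and
`Helper21.growthAlg` gives `k + 1 ≤ finrank (algSpace (k n'))` for every `k` (`m = k n' ≠ k n' + 1`);
apply ROB. -/
def St_Rdi : Prop :=
  (∀ N : ℕ, ∀ w ∈ Idx N, IsAlgebraic ℚ (mzv (fun i : Fin w.length => w.get i) / Real.pi ^ N)) ∨
  ∀ k : ℕ, ∃ C : ℕ, ∀ N : ℕ, C ≤ N → ∀ V : Submodule (algebraicClosure ℚ ℝ) ℝ,
    Module.Finite (algebraicClosure ℚ ℝ) V → Module.finrank (algebraicClosure ℚ ℝ) V ≤ k →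
    (2 : ℝ) ^ N / (N : ℝ) ^ C ≤ (out N V).ncard

end Pool.Agent.MZA
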