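import Mathlib
import Pool.Agent.MZA.St3

set_option autoImplicit false

/-!
# Abundance of transcendental multiple zeta values, fourth part (MP_2000e9_nt)

Subspaces whose dimension grows with the weight.
-/

namespace Pool.Agent.MZA

open Finset Filter
open Pool.Agent.Helper21 (mzv mzvSpace algSpace H zl Adm)

/-- REM.  Proof: induction on `v`; `2 * 2^(p-1) * choose (l-1) (p-1) + 2^p * choose (l-1) p =
2^p * choose l p`. -/
def St_Rem : Prop := ∀ w v : List ℕ,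
  (rem w v).length ≤ 2 ^ w.length * v.length.choose w.length

/-- EXP.  Proof: as St_Rob (St3.lean), with the bound of REM for the number of `y` that come from one
`v` (`w.length ≤ m`, `v.length ≤ N`, `choose` is monotone in the first argument,
`choose N p ≤ ∑_{p ≤ m} choose N p`, `2^p ≤ 2^m`). -/
def St_Exp : Prop := ∀ k m N : ℕ, k < Module.finrank (algebraicClosure ℚ ℝ) (algSpace m) →
  m + 2 ≤ N → ∀ V : Submodule (algebraicClosure ℚ ℝ) ℝ,
  Module.Finite (algebraicClosure ℚ ℝ) V → Module.finrank (algebraicClosure ℚ ℝ) V ≤ k →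
  2 ^ (N - m - 2) ≤ (k + 1) * (2 ^ m * ∑ p ∈ range (m + 1), N.choose p) * (out N V).ncard

/-- LIN.

Proof.  If all `z/π^n`, `z ∈ mzvSpace n`, are algebraic for all `n`, the first alternative holds
(as in Rdi).  Otherwise `Helper21.exists_ratio` and `Helper21.growthAlg` give `n' > 0` with
`k + 1 ≤ finrank (algSpace (k n'))` for all `k`.  Let `0 < δ < 1`.  Choose `t ∈ (0, 1)` with
`log_2(1 + t) ≤ δ/8` and `η ∈ (0, δ/16)` with `η log_2(1/t) ≤ δ/8`.  For `p ≤ η N`: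
`choose N p ≤ (1+t)^N t^(-p) ≤ 2^(δN/8) 2^(δN/8)` (binomial theorem).  Let `ε = η/(2 n')` and let
`V` have dimension `≤ ε N`, `k = ⌊ε N⌋`, `m = k n' ≤ η N/2`.  EXP gives
`2^(N-m-2) ≤ (k+1) 2^m (m+1) 2^(δN/4) |out N V|`, so
`|out N V| ≥ 2^(N - 2m - 2 - δN/4) / ((k+1)(m+1)) ≥ 2^((1-δ)N)` for large `N`. -/
def St_Lin : Prop :=
  (∀ N : ℕ, ∀ w ∈ Idx N, IsAlgebraic ℚ (mzv (fun i : Fin w.length => w.get i) / Real.pi ^ N)) ∨
  ∀ δ : ℝ, 0 < δ → ∃ ε : ℝ, 0 < ε ∧ ∃ C : ℕ, ∀ N : ℕ, C ≤ N →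
    ∀ V : Submodule (algebraicClosure ℚ ℝ) ℝ,
    Module.Finite (algebraicClosure ℚ ℝ) V →
    (Module.finrank (algebraicClosure ℚ ℝ) V : ℝ) ≤ ε * N →
    (2 : ℝ) ^ ((1 - δ) * N) ≤ (out N V).ncard

end Pool.Agent.MZA
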