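import Mathlib
import Pool.Agent.MZA.St4
import Pool.Agent.MZA.Main

set_option autoImplicit false

/-!
# MZA Exp: multiple zeta values outside a subspace of small dimension, explicit form
-/

namespace Pool.Agent.MZA

open Finset Filter
open Pool.Agent.Helper21 (mzv mzvSpace algSpace H zl Adm)

theorem exp_span (m : ℕ) : algSpace m =
    Submodule.span (algebraicClosure ℚ ℝ) {x : ℝ | ∃ w : List ℕ, Adm w ∧ w.sum = m ∧ x = zl w} := by
  unfold algSpace
  rw [Pool.Agent.Helper21.mzvSpace_eq, Submodule.span_span_of_tower]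

/-- independent multiple zeta values of weight `m` -/
theorem exp_indep {k m : ℕ} (h : k < Module.finrank (algebraicClosure ℚ ℝ) (algSpace m)) :
    ∃ w : Fin (k + 1) → List ℕ, (∀ i, Adm (w i) ∧ (w i).sum = m) ∧
      LinearIndependent (algebraicClosure ℚ ℝ) (fun i => zl (w i)) := by
  have hfin := Pool.Agent.Helper21.finite_algSpace m
  rw [exp_span] at h hfin
  obtain ⟨f, hf1, _, hf3⟩ := Submodule.exists_fun_fin_finrank_span_eq (algebraicClosure ℚ ℝ)
    {x : ℝ | ∃ w : List ℕ, Adm w ∧ w.sum = m ∧ x = zl w}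
  choose w hw1 hw2 hw3 using hf1
  refine ⟨fun i => w (Fin.castLE h i), fun i => ⟨hw1 _, hw2 _⟩, ?_⟩
  have e : (fun i : Fin (k + 1) => zl (w (Fin.castLE h i))) = f ∘ Fin.castLE h := by
    funext i
    exact (hw3 _).symm
  rw [e]
  exact hf3.comp _ (Fin.castLE_injective h)

theorem exp_choose {p m l N : ℕ} (hp : p ≤ m) (hl : l ≤ N) :
    2 ^ p * l.choose p ≤ 2 ^ m * ∑ q ∈ range (m + 1), N.choose q := by
  apply Nat.mul_le_mul (Nat.pow_le_pow_right (by norm_num) hp)
  refine (Nat.choose_le_choose p hl).trans ?_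
  exact Finset.single_le_sum (f := fun q => N.choose q) (fun _ _ => Nat.zero_le _)
    (Finset.mem_range.2 (by omega))

theorem thm_Exp (h1 : St_Qsh) (h2 : St_Cnt) (h3 : St_Rem) : St_Exp := by
  classical
  intro k m N hk hmN V hVf hV
  obtain ⟨w, hw, hli⟩ := exp_indep hk
  obtain ⟨hfN, -⟩ := h2 N (by omega)
  obtain ⟨-, hcy⟩ := h2 (N - m) (by omega)
  have hout : (out N V).Finite := hfN.subset fun w hw => hw.1
  set F : Finset (List ℕ) := hout.toFinset with hF
  have hcF : (out N V).ncard = F.card := Set.ncard_eq_toFinset_card _ hout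
  set B : Finset (List ℕ) := ((Finset.univ : Finset (Fin (k + 1))) ×ˢ F).biUnion fun q =>
    (rem (w q.1) q.2).toFinset with hB
  have hBc : B.card ≤ (k + 1) * (2 ^ m * ∑ p ∈ range (m + 1), N.choose p) * F.card := by
    have e1 : B.card ≤ ((Finset.univ : Finset (Fin (k + 1))) ×ˢ F).card *
        (2 ^ m * ∑ p ∈ range (m + 1), N.choose p) := by
      refine Finset.card_biUnion_le_card_mul _ _ _ ?_
      intro q hq
      have hq2 : q.2 ∈ out N V := (Set.Finite.mem_toFinset hout).1 (Finset.mem_product.1 hq).2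
      refine (List.toFinset_card_le _).trans ((h3 _ _).trans ?_)
      apply exp_choose
      · rw [← (hw q.1).2]
        exact List.length_le_sum_of_one_le _ (hw q.1).1.1
      · rw [← hq2.1.2.2]
        exact List.length_le_sum_of_one_le _ hq2.1.1
    rw [Finset.card_product, Finset.card_univ, Fintype.card_fin] at e1
    refine e1.trans (le_of_eq ?_)
    ring
  have hsub : Idx (N - m) ⊆ (B : Set (List ℕ)) := by
    intro y hy
    have hadm : Adm y := ⟨hy.1, hy.2.1⟩
    have hy0 : 0 < zl y := main_zl_pos y hadm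
    -- some product is not in `V`
    have hex : ∃ i, zl (w i) * zl y ∉ V := by
      by_contra hcon
      push Not at hcon
      have hli2 : LinearIndependent (algebraicClosure ℚ ℝ) (fun i => zl (w i) * zl y) := by
        have h4 := hli.map' (LinearMap.mulRight (algebraicClosure ℚ ℝ) (zl y)) (by
          rw [LinearMap.ker_eq_bot]
          intro a b hab
          exact mul_right_cancel₀ hy0.ne' hab)
        exact h4
      have hli3 : LinearIndependent (algebraicClosure ℚ ℝ)
          (fun i => (⟨zl (w i) * zl y, hcon i⟩ : V)) := by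
        apply LinearIndependent.of_comp V.subtype
        exact hli2
      have h5 := hli3.fintype_card_le_finrank
      rw [Fintype.card_fin] at h5
      omega
    obtain ⟨i, hi⟩ := hex
    obtain ⟨hprod, hmem⟩ := h1.1 (w i) y (hw i).1 hadm
    have hex2 : ∃ v ∈ qs (w i) y, zl v ∉ V := by
      by_contra hcon
      push Not at hcon
      apply hi
      rw [hprod]
      apply list_sum_mem
      intro x hx
      obtain ⟨v, hv, rfl⟩ := List.mem_map.1 hx
      exact hcon v hv
    obtain ⟨v, hv, hvV⟩ := hex2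
    obtain ⟨hvadm, hvsum, hvrem⟩ := hmem v hv
    have hvF : v ∈ F := by
      rw [hF, Set.Finite.mem_toFinset]
      refine ⟨⟨hvadm.1, hvadm.2, ?_⟩, ?_⟩
      · rw [hvsum, (hw i).2, hy.2.2]
        omega
      · rw [main_mzv v hvadm]
        exact hvV
    rw [Finset.mem_coe, hB, Finset.mem_biUnion]
    exact ⟨(i, v), Finset.mem_product.2 ⟨Finset.mem_univ _, hvF⟩, List.mem_toFinset.2 hvrem⟩
  rw [← hcy, hcF]
  calc (Idx (N - m)).ncard ≤ (B : Set (List ℕ)).ncard := Set.ncard_le_ncard hsub B.finite_toSet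
    _ = B.card := Set.ncard_coe_finset _
    _ ≤ (k + 1) * (2 ^ m * ∑ p ∈ range (m + 1), N.choose p) * F.card := hBc

end Pool.Agent.MZA
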