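import Mathlib
import Pool.Agent.MZA.St2

set_option autoImplicit false

namespace Pool.Agent.MZA

open Finset Filter

namespace FdlAux

theorem src_finite (K r : ℕ) : (src K r).Finite := by
  apply (Set.finite_range
    (fun f : Fin (r - 1) → Fin (K + 1) => List.ofFn (fun j => (f j : ℕ)))).subset
  rintro u ⟨_, hu2, hu3, _⟩
  have hle : ∀ a ∈ u, a ≤ K := fun a ha =>
    (List.single_le_sum (fun _ _ => Nat.zero_le _) a ha).trans (by omega)
  refine ⟨fun j => ⟨u.get (j.cast hu2.symm), Nat.lt_succ_of_le (hle _ (List.get_mem _ _))⟩, ?_⟩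
  apply List.ext_get
  · simp [hu2]
  · intro n h1 h2
    simp

/-- The indices `u`. -/
def gg (K s q : ℕ) (p : Fin q × (Fin s → Fin q)) : List ℕ :=
  (K - 4 * ((p.1 : ℕ) + 1) - ∑ j, ((p.2 j : ℕ) + 1)) :: List.ofFn (fun j => (p.2 j : ℕ) + 1)

theorem sum_le (s q : ℕ) (v : Fin s → Fin q) : ∑ j, ((v j : ℕ) + 1) ≤ s * q := by
  have h : ∑ j, ((v j : ℕ) + 1) ≤ ∑ _j : Fin s, q :=
    Finset.sum_le_sum (fun j _ => (v j).isLt)
  simpa using h

theorem gg_mem (K s q : ℕ) (hq : 1 ≤ q) (hK : 16 * (s + 2) * q ≤ K)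
    (p : Fin q × (Fin s → Fin q)) : gg K s q p ∈ src K (s + 2) := by
  have h1 := sum_le s q p.2
  have h2 : (p.1 : ℕ) + 1 ≤ q := p.1.isLt
  have h3 : 16 * (s + 2) * q = 16 * (s * q) + 32 * q := by ring
  have h4 : (gg K s q p).sum + 4 * ((p.1 : ℕ) + 1) = K := by
    rw [gg, List.sum_cons, List.sum_ofFn]
    omega
  refine ⟨⟨?_, ?_, rfl⟩, ?_, ?_, ?_⟩
  · intro a ha
    rw [gg, List.mem_cons, List.mem_ofFn] at ha
    rcases ha with rfl | ⟨j, rfl⟩
    · omega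
    · omega
  · intro a t h
    rw [gg] at h
    have := (List.cons.inj h).1
    omega
  · simp [gg]
  · omega
  · omega

theorem gg_inj (K s q : ℕ) (hq : 1 ≤ q) (hK : 16 * (s + 2) * q ≤ K) :
    Function.Injective (gg K s q) := by
  intro p p' h
  rw [gg, gg] at h
  obtain ⟨h1, h2⟩ := List.cons.inj h
  have h3 : p.2 = p'.2 := by
    have := List.ofFn_injective h2
    funext j
    have := congrFun this j
    exact Fin.ext (by simpa using this)
  have h4 := sum_le s q p.2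
  have h5 : (p.1 : ℕ) + 1 ≤ q := p.1.isLt
  have h5' : (p'.1 : ℕ) + 1 ≤ q := p'.1.isLt
  have h6 : 16 * (s + 2) * q = 16 * (s * q) + 32 * q := by ring
  rw [← h3] at h1
  have h7 : (p.1 : ℕ) = (p'.1 : ℕ) := by omega
  exact Prod.ext (Fin.ext h7) h3

theorem src_card (K s q : ℕ) (hq : 1 ≤ q) (hK : 16 * (s + 2) * q ≤ K) :
    q ^ (s + 1) ≤ (src K (s + 2)).ncard := by
  have h1 : (gg K s q '' Set.univ).ncard = q ^ (s + 1) := by
    rw [Set.ncard_image_of_injective _ (gg_inj K s q hq hK), Set.ncard_univ,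
      Nat.card_eq_fintype_card]
    simp [pow_succ, mul_comm]
  rw [← h1]
  apply Set.ncard_le_ncard _ (src_finite _ _)
  rintro _ ⟨p, _, rfl⟩
  exact gg_mem K s q hq hK p

theorem src_lower (K s : ℕ) (hK : 16 * (s + 2) ≤ K) :
    ((K : ℝ) / (32 * (s + 2))) ^ (s + 1) ≤ ((src K (s + 2)).ncard : ℝ) := by
  have h0 : 0 < 16 * (s + 2) := by omega
  have h1 : 1 ≤ K / (16 * (s + 2)) := (Nat.one_le_div_iff h0).2 hK
  have h2 : 16 * (s + 2) * (K / (16 * (s + 2))) ≤ K := Nat.mul_div_le _ _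
  have h3 := src_card K s (K / (16 * (s + 2))) h1 h2
  have h4 : K < 16 * (s + 2) * (K / (16 * (s + 2)) + 1) := Nat.lt_mul_div_succ K h0
  set q := K / (16 * (s + 2)) with hq
  have h5 : K ≤ 32 * (s + 2) * q := by nlinarith
  have h6 : (K : ℝ) / (32 * (s + 2)) ≤ q := by
    rw [div_le_iff₀ (by positivity)]
    have : (K : ℝ) ≤ 32 * (s + 2) * q := by exact_mod_cast h5
    linarith
  calc ((K : ℝ) / (32 * (s + 2))) ^ (s + 1) ≤ (q : ℝ) ^ (s + 1) :=
        pow_le_pow_left₀ (by positivity) h6 _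
    _ ≤ _ := by exact_mod_cast h3

/-- The constant. -/
noncomputable def cc (s : ℕ) : ℝ := (1 / (48 * (s + 2))) ^ (s + 1) / (6 * (s + 2) ^ 2)

theorem cc_pos (s : ℕ) : 0 < cc s := by unfold cc; positivity

/-- No three bad numbers of the same parity close to each other. -/
theorem no_three (h : St_Win) (s n₁ n₂ n₃ : ℕ) (h0 : 20 * (s + 2) ≤ n₁) (h12 : n₁ < n₂)
    (h23 : n₂ < n₃) (h31 : 5 * n₃ ≤ 6 * n₁) (p1 : n₁ % 2 = n₂ % 2) (p2 : n₂ % 2 = n₃ % 2)
    (b1 : ((offd n₁ (s + 2) 1).ncard : ℝ) < cc s * (n₁ : ℝ) ^ (s + 1))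
    (b2 : ((offd n₂ (s + 2) 1).ncard : ℝ) < cc s * (n₂ : ℝ) ^ (s + 1))
    (b3 : ((offd n₃ (s + 2) 1).ncard : ℝ) < cc s * (n₃ : ℝ) ^ (s + 1)) : False := by
  have hW := h (s + 2) n₁ n₂ n₃ (by omega) h12 h23 (by omega) p1 p2
  set K := n₁ + n₂ - n₃ with hK
  have hK5 : 4 * n₁ ≤ 5 * K := by omega
  have hK16 : 16 * (s + 2) ≤ K := by omega
  have hL := src_lower K s hK16
  have hW' : ((src K (s + 2)).ncard : ℝ) ≤ 2 * (s + 2) * (s + 1) *
      ((offd n₁ (s + 2) 1).ncard + (offd n₂ (s + 2) 1).ncard + (offd n₃ (s + 2) 1).ncard) := by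
    have e : s + 2 - 1 = s + 1 := by omega
    rw [e] at hW
    exact_mod_cast hW
  have hn1 : (0 : ℝ) < n₁ := by
    have : 0 < n₁ := by omega
    exact_mod_cast this
  have hn3 : (n₃ : ℝ) ≤ 6 / 5 * n₁ := by
    have : (5 * n₃ : ℝ) ≤ 6 * n₁ := by exact_mod_cast h31
    linarith
  have hle : ∀ m : ℕ, m ≤ n₃ → cc s * (m : ℝ) ^ (s + 1) ≤ cc s * (6 / 5 * (n₁ : ℝ)) ^ (s + 1) := by
    intro m hm
    apply mul_le_mul_of_nonneg_left _ (cc_pos s).le
    apply pow_le_pow_left₀ (Nat.cast_nonneg m)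
    have : (m : ℝ) ≤ n₃ := by exact_mod_cast hm
    linarith
  have g1 := hle n₁ (by omega)
  have g2 := hle n₂ (by omega)
  have g3 := hle n₃ le_rfl
  have hlow : (1 / (40 * ((s : ℝ) + 2)) * n₁) ^ (s + 1) ≤ ((src K (s + 2)).ncard : ℝ) := by
    refine le_trans (pow_le_pow_left₀ (by positivity) ?_ _) hL
    have h7 : (4 * n₁ : ℝ) ≤ 5 * K := by exact_mod_cast hK5
    rw [div_mul_eq_mul_div, one_mul, div_le_div_iff₀ (by positivity) (by positivity)]
    have h8 : (0 : ℝ) ≤ (s : ℝ) + 2 := by positivity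
    nlinarith [mul_le_mul_of_nonneg_left h7 h8]
  have hup : 2 * ((s : ℝ) + 2) * (s + 1) * (3 * (cc s * (6 / 5 * (n₁ : ℝ)) ^ (s + 1))) ≤
      (1 / (40 * ((s : ℝ) + 2)) * n₁) ^ (s + 1) := by
    have h9 : cc s * (6 / 5 * (n₁ : ℝ)) ^ (s + 1) =
        (1 / (40 * ((s : ℝ) + 2)) * n₁) ^ (s + 1) / (6 * (s + 2) ^ 2) := by
      unfold cc
      rw [div_mul_eq_mul_div, ← mul_pow]
      congr 2
      field_simp
      ring
    rw [h9]
    set P := (1 / (40 * ((s : ℝ) + 2)) * n₁) ^ (s + 1) with hP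
    have hP0 : 0 ≤ P := by positivity
    have h10 : 2 * ((s : ℝ) + 2) * (s + 1) * (3 * (P / (6 * (s + 2) ^ 2))) =
        P * ((s + 1) / (s + 2)) := by
      field_simp
      ring
    rw [h10]
    have h11 : ((s : ℝ) + 1) / (s + 2) ≤ 1 := by
      rw [div_le_one (by positivity)]; linarith
    calc P * ((s + 1) / (s + 2)) ≤ P * 1 := mul_le_mul_of_nonneg_left h11 hP0
      _ = P := mul_one P
  have hlt : 2 * ((s : ℝ) + 2) * (s + 1) *
      ((offd n₁ (s + 2) 1).ncard + (offd n₂ (s + 2) 1).ncard + (offd n₃ (s + 2) 1).ncard) <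
      2 * ((s : ℝ) + 2) * (s + 1) * (3 * (cc s * (6 / 5 * (n₁ : ℝ)) ^ (s + 1))) := by
    apply mul_lt_mul_of_pos_left _ (by positivity)
    linarith
  linarith

theorem fdl_count (ρ : ℝ) (hρ : 1 < ρ) (X : ℕ) (hX : 1 ≤ X) (B : Finset ℕ)
    (hB : ∀ n ∈ B, 1 ≤ n ∧ n ≤ X)
    (hB' : ∀ n₁ ∈ B, ∀ n₂ ∈ B, ∀ n₃ ∈ B, n₁ < n₂ → n₂ < n₃ → ρ * n₁ ≤ n₃) :
    (B.card : ℝ) ≤ 2 * (Real.log X / Real.log ρ + 1) := by
  have hl : 0 < Real.log ρ := Real.log_pos hρ
  have hX0 : 0 ≤ Real.log X / Real.log ρ :=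
    div_nonneg (Real.log_nonneg (by exact_mod_cast hX)) hl.le
  let f : ℕ → ℕ := fun n => ⌊Real.log n / Real.log ρ⌋₊
  have h1 : B.card ≤ 2 * (B.image f).card := by
    apply Finset.card_le_mul_card_image
    intro a _
    by_contra hcon
    push Not at hcon
    set F := B.filter (fun x => f x = a) with hF
    have hc : F.card = F.card := rfl
    let e := F.orderEmbOfFin hc
    have m1 : e ⟨0, by omega⟩ ∈ F := F.orderEmbOfFin_mem hc _
    have m2 : e ⟨1, by omega⟩ ∈ F := F.orderEmbOfFin_mem hc _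
    have m3 : e ⟨2, by omega⟩ ∈ F := F.orderEmbOfFin_mem hc _
    have l12 : e ⟨0, by omega⟩ < e ⟨1, by omega⟩ := e.lt_iff_lt.2 (by simp)
    have l23 : e ⟨1, by omega⟩ < e ⟨2, by omega⟩ := e.lt_iff_lt.2 (by simp)
    obtain ⟨q1, r1⟩ := Finset.mem_filter.1 m1
    obtain ⟨q2, r2⟩ := Finset.mem_filter.1 m2
    obtain ⟨q3, r3⟩ := Finset.mem_filter.1 m3
    generalize e ⟨0, by omega⟩ = n₁ at *
    generalize e ⟨1, by omega⟩ = n₂ at *
    generalize e ⟨2, by omega⟩ = n₃ at *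
    have h2 := hB' n₁ q1 n₂ q2 n₃ q3 l12 l23
    have h3 : (0 : ℝ) < n₁ := by
      have := (hB n₁ q1).1
      exact_mod_cast this
    have h4 : Real.log n₁ / Real.log ρ + 1 ≤ Real.log n₃ / Real.log ρ := by
      rw [div_add_one hl.ne', div_le_div_iff_of_pos_right hl]
      rw [← Real.log_mul h3.ne' (by linarith), mul_comm]
      exact Real.log_le_log (by positivity) h2
    have h5 : 0 ≤ Real.log n₁ / Real.log ρ :=
      div_nonneg (Real.log_nonneg (by exact_mod_cast (hB n₁ q1).1)) hl.le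
    have h6 := Nat.floor_le_floor h4
    rw [Nat.floor_add_one h5] at h6
    simp only [f] at r1 r3
    omega
  have h2 : (B.image f).card ≤ ⌊Real.log X / Real.log ρ⌋₊ + 1 := by
    have h3 : B.image f ⊆ Finset.range (⌊Real.log X / Real.log ρ⌋₊ + 1) := by
      intro a ha
      obtain ⟨n, hn, rfl⟩ := Finset.mem_image.1 ha
      rw [Finset.mem_range, Nat.lt_succ_iff]
      obtain ⟨h4, h5⟩ := hB n hn
      refine Nat.floor_le_floor (div_le_div_of_nonneg_right (Real.log_le_log ?_ ?_) hl.le)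
      · exact_mod_cast h4
      · exact_mod_cast h5
    have := Finset.card_le_card h3
    rwa [Finset.card_range] at this
  have h3 := Nat.floor_le hX0
  have h4 : (B.card : ℝ) ≤ 2 * ((⌊Real.log X / Real.log ρ⌋₊ : ℝ) + 1) := by
    exact_mod_cast h1.trans (Nat.mul_le_mul_left 2 h2)
  linarith

end FdlAux

open FdlAux in
theorem thm_Fdl (h : St_Win) : St_Fdl := by
  intro r hr
  classical
  obtain ⟨s, rfl⟩ : ∃ s, r = s + 2 := ⟨r - 2, by omega⟩
  have e1 : s + 2 - 1 = s + 1 := by omega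
  rw [e1]
  set N : ℕ := 20 * (s + 2) with hN
  have hl : 0 < Real.log (6 / 5) := Real.log_pos (by norm_num)
  refine ⟨cc s, 4 / Real.log (6 / 5) + (N + 4) / Real.log 2, cc_pos s, fun X hX => ?_⟩
  let Bad : ℕ → Prop := fun n => 1 ≤ n ∧ n ≤ X ∧
    ((offd n (s + 2) 1).ncard : ℝ) < cc s * (n : ℝ) ^ (s + 1)
  let B : ℕ → Finset ℕ := fun ε =>
    (Finset.range (X + 1)).filter fun n => (N ≤ n ∧ n % 2 = ε) ∧ Bad n
  have hsub : {n : ℕ | 1 ≤ n ∧ n ≤ X ∧
      ((offd n (s + 2) 1).ncard : ℝ) < cc s * (n : ℝ) ^ (s + 1)} ⊆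
      ((Finset.range N ∪ (B 0 ∪ B 1) : Finset ℕ) : Set ℕ) := by
    intro n hn
    rw [Finset.mem_coe, Finset.mem_union, Finset.mem_union, Finset.mem_range]
    by_cases h1 : n < N
    · exact Or.inl h1
    · right
      have h2 : n ∈ Finset.range (X + 1) := Finset.mem_range.2 (Nat.lt_succ_of_le hn.2.1)
      rcases Nat.mod_two_eq_zero_or_one n with h3 | h3
      · exact Or.inl (Finset.mem_filter.2 ⟨h2, ⟨not_lt.1 h1, h3⟩, hn⟩)
      · exact Or.inr (Finset.mem_filter.2 ⟨h2, ⟨not_lt.1 h1, h3⟩, hn⟩)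
  have hc : {n : ℕ | 1 ≤ n ∧ n ≤ X ∧
      ((offd n (s + 2) 1).ncard : ℝ) < cc s * (n : ℝ) ^ (s + 1)}.ncard ≤
      N + ((B 0).card + (B 1).card) := by
    refine (Set.ncard_le_ncard hsub (Finset.finite_toSet _)).trans ?_
    rw [Set.ncard_coe_finset]
    refine (Finset.card_union_le _ _).trans ?_
    rw [Finset.card_range]
    exact Nat.add_le_add_left (Finset.card_union_le _ _) _
  have hBε : ∀ ε, ((B ε).card : ℝ) ≤ 2 * (Real.log X / Real.log (6 / 5) + 1) := by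
    intro ε
    refine fdl_count (6 / 5) (by norm_num) X (by omega) (B ε) (fun n hn => ?_) ?_
    · have := (Finset.mem_filter.1 hn).2.2
      exact ⟨this.1, this.2.1⟩
    · intro n₁ hn₁ n₂ hn₂ n₃ hn₃ h12 h23
      obtain ⟨-, ⟨h1, h2⟩, h3, -, h4⟩ := Finset.mem_filter.1 hn₁
      obtain ⟨-, ⟨h1', h2'⟩, h3', -, h4'⟩ := Finset.mem_filter.1 hn₂
      obtain ⟨-, ⟨h1'', h2''⟩, h3'', -, h4''⟩ := Finset.mem_filter.1 hn₃
      by_contra hcon
      push Not at hcon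
      have h5 : 5 * n₃ ≤ 6 * n₁ := by
        have : (5 * n₃ : ℝ) ≤ 6 * n₁ := by linarith
        exact_mod_cast this
      exact no_three h s n₁ n₂ n₃ h1 h12 h23 h5 (by omega) (by omega) h4 h4' h4''
  have hlX : Real.log 2 ≤ Real.log X := Real.log_le_log (by norm_num) (by exact_mod_cast hX)
  have hl2 : 0 < Real.log 2 := Real.log_pos (by norm_num)
  have h1 : ((N : ℝ) + 4) ≤ (N + 4) / Real.log 2 * Real.log X := by
    rw [div_mul_eq_mul_div, le_div_iff₀ hl2]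
    exact mul_le_mul_of_nonneg_left hlX (by positivity)
  have h2 : (({n : ℕ | 1 ≤ n ∧ n ≤ X ∧
      ((offd n (s + 2) 1).ncard : ℝ) < cc s * (n : ℝ) ^ (s + 1)}.ncard : ℕ) : ℝ) ≤
      N + ((B 0).card + (B 1).card) := by exact_mod_cast hc
  have h3 := hBε 0
  have h4 := hBε 1
  have h5 : 4 / Real.log (6 / 5) * Real.log X = 4 * (Real.log X / Real.log (6 / 5)) := by
    ring
  rw [add_mul, h5]
  linarith

end Pool.Agent.MZA
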