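import Pool.Agent.MZA.St

/-!
# MZA Few: lacunarity
-/

set_option autoImplicit false

namespace Pool.Agent.MZA

open Finset Filter

private theorem few_trans (j : ℕ) (hj : 1 ≤ j) :
    ¬ IsAlgebraic ℚ ((1 : ℝ) / (1 * Real.pi ^ (2 * j))) := by
  intro h
  rw [one_mul, one_div, IsAlgebraic.inv_iff] at h
  exact Pool.Agent.Helper21.transcendental_pi (h.of_pow (by omega))

private theorem few_large (δ : ℝ) (hδ : 0 < δ) :
    ∃ N : ℕ, ∀ n : ℕ, N ≤ n → 8 * (n : ℝ) ≤ 2 ^ (δ / 2 * (n : ℝ)) ∧ 3 ≤ δ * n := by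
  have hr : (1 : ℝ) < 2 ^ (δ / 2) := Real.one_lt_rpow (by norm_num) (by linarith)
  have h1 := tendsto_pow_const_div_const_pow_of_one_lt 1 hr
  have h2 := h1.eventually (ge_mem_nhds (show (0 : ℝ) < 1 / 8 by norm_num))
  have h3 : ∀ᶠ n : ℕ in atTop, 3 / δ ≤ (n : ℝ) :=
    tendsto_natCast_atTop_atTop.eventually_ge_atTop _
  obtain ⟨N, hN⟩ := eventually_atTop.1 (h2.and h3)
  refine ⟨N, fun n hn => ?_⟩
  obtain ⟨h4, h5⟩ := hN n hn
  have h6 : (0 : ℝ) < (2 ^ (δ / 2)) ^ n := by positivity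
  constructor
  · rw [Real.rpow_mul (by norm_num), Real.rpow_natCast]
    rw [div_le_iff₀ h6, pow_one] at h4
    linarith
  · rw [div_le_iff₀ hδ] at h5
    linarith

/-- two bad numbers of the same parity -/
private theorem few_gap (hM : St_Main) {δ : ℝ} (hδ : 0 < δ) (hδ1 : δ < 1) {n j : ℕ} (hn : 2 ≤ n)
    (hj : 1 ≤ j) (h1 : 8 * ((n + 2 * j : ℕ) : ℝ) ≤ 2 ^ (δ / 2 * ((n + 2 * j : ℕ) : ℝ)))
    (h2 : 3 ≤ δ * n) (b1 : ((off n 1).ncard : ℝ) < 2 ^ ((1 - δ) * n))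
    (b2 : ((off (n + 2 * j) 1).ncard : ℝ) < 2 ^ ((1 - δ) * ((n + 2 * j : ℕ) : ℝ))) :
    (1 + δ / 2) * n ≤ ((n + 2 * j : ℕ) : ℝ) := by
  have hm := hM n j hn hj 1 1 one_ne_zero (few_trans j hj)
  set m : ℕ := n + 2 * j with hmdef
  have hm' : ((2 : ℝ) ^ ((n : ℝ) - 2)) ≤ (off n 1).ncard + (m : ℝ) * (off m 1).ncard := by
    have h3 : (2 : ℝ) ^ ((n : ℝ) - 2) = ((2 ^ (n - 2) : ℕ) : ℝ) := by
      rw [Nat.cast_pow, ← Real.rpow_natCast, Nat.cast_sub hn]
      norm_num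
    rw [h3]
    have h4 : 2 ^ (n - 2) ≤ (off n 1).ncard + m * (off m 1).ncard :=
      hm.trans (Nat.add_le_add_left (Nat.mul_le_mul_right _ (Nat.div_le_self _ _)) _)
    exact_mod_cast h4
  have hm0 : (0 : ℝ) < m := by
    have : 0 < m := by omega
    exact_mod_cast this
  have h5 : (2 : ℝ) ^ ((1 - δ) * (n : ℝ)) ≤ 2 ^ ((n : ℝ) - 3) :=
    Real.rpow_le_rpow_of_exponent_le (by norm_num) (by linarith)
  have h6 : (2 : ℝ) ^ ((n : ℝ) - 2) = 2 ^ ((n : ℝ) - 3) * 2 := by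
    rw [show (n : ℝ) - 2 = (n : ℝ) - 3 + 1 by ring, Real.rpow_add (by norm_num), Real.rpow_one]
  have h7 : (m : ℝ) * (off m 1).ncard ≤ m * 2 ^ ((1 - δ) * (m : ℝ)) :=
    mul_le_mul_of_nonneg_left b2.le hm0.le
  have h8 : (2 : ℝ) ^ ((n : ℝ) - 3) ≤ m * 2 ^ ((1 - δ) * (m : ℝ)) := by linarith
  have h9 : (0 : ℝ) < 2 ^ ((1 - δ) * (m : ℝ)) := by positivity
  have h10 : (2 : ℝ) ^ (n : ℝ) ≤ 2 ^ (δ / 2 * (m : ℝ) + (1 - δ) * (m : ℝ)) := by
    rw [Real.rpow_add (by norm_num)]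
    have h11 : (2 : ℝ) ^ (n : ℝ) = 2 ^ ((n : ℝ) - 3) * 8 := by
      rw [show (n : ℝ) = (n : ℝ) - 3 + 3 by ring, Real.rpow_add (by norm_num)]
      norm_num
    rw [h11]
    have h12 := mul_le_mul_of_nonneg_right h1 h9.le
    linarith
  have h13 : (n : ℝ) ≤ δ / 2 * (m : ℝ) + (1 - δ) * (m : ℝ) :=
    (Real.rpow_le_rpow_left_iff (by norm_num)).1 h10
  have h14 : (n : ℝ) ≤ (1 - δ / 2) * m := by linarith
  have h15 : (1 + δ / 2) * n ≤ (1 + δ / 2) * ((1 - δ / 2) * m) :=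
    mul_le_mul_of_nonneg_left h14 (by linarith)
  have h16 : (1 + δ / 2) * ((1 - δ / 2) * m) ≤ (m : ℝ) := by
    nlinarith [mul_nonneg (mul_nonneg hδ.le hδ.le) hm0.le]
  linarith

/-- a set of natural numbers which grows like a geometric series -/
private theorem few_count (ρ : ℝ) (hρ : 1 < ρ) (X : ℕ) (hX : 1 ≤ X) (B : Finset ℕ)
    (hB : ∀ n ∈ B, 1 ≤ n ∧ n ≤ X) (hB' : ∀ n ∈ B, ∀ m ∈ B, n < m → ρ * n ≤ m) :
    (B.card : ℝ) ≤ Real.log X / Real.log ρ + 1 := by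
  have hl : 0 < Real.log ρ := Real.log_pos hρ
  have hX0 : 0 ≤ Real.log X / Real.log ρ :=
    div_nonneg (Real.log_nonneg (by exact_mod_cast hX)) hl.le
  have h1 : B.card ≤ (Finset.range (⌊Real.log X / Real.log ρ⌋₊ + 1)).card := by
    refine Finset.card_le_card_of_injOn (fun n => ⌊Real.log n / Real.log ρ⌋₊) ?_ ?_
    · intro n hn
      obtain ⟨h2, h3⟩ := hB n hn
      rw [Finset.coe_range, Set.mem_Iio, Nat.lt_succ_iff]
      refine Nat.floor_le_floor (div_le_div_of_nonneg_right (Real.log_le_log ?_ ?_) hl.le)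
      · exact_mod_cast h2
      · exact_mod_cast h3
    · have key : ∀ n ∈ B, ∀ m ∈ B, n < m →
          ⌊Real.log n / Real.log ρ⌋₊ < ⌊Real.log m / Real.log ρ⌋₊ := by
        intro n hn m hm hnm
        have h2 := hB' n hn m hm hnm
        have h3 : (0 : ℝ) < n := by
          have := (hB n hn).1
          exact_mod_cast this
        have h4 : Real.log n / Real.log ρ + 1 ≤ Real.log m / Real.log ρ := by
          rw [div_add_one hl.ne', div_le_div_iff_of_pos_right hl]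
          rw [← Real.log_mul h3.ne' (by linarith), mul_comm]
          exact Real.log_le_log (by positivity) h2
        have h5 : 0 ≤ Real.log n / Real.log ρ :=
          div_nonneg (Real.log_nonneg (by exact_mod_cast (hB n hn).1)) hl.le
        have h6 := Nat.floor_le_floor h4
        rw [Nat.floor_add_one h5] at h6
        omega
      intro n hn m hm hnm
      rcases lt_trichotomy n m with h2 | h2 | h2
      · exact absurd hnm (key n hn m hm h2).ne
      · exact h2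
      · exact absurd hnm.symm (key m hm n hn h2).ne
  rw [Finset.card_range] at h1
  have h2 := Nat.floor_le hX0
  have h3 : (B.card : ℝ) ≤ (⌊Real.log X / Real.log ρ⌋₊ : ℝ) + 1 := by exact_mod_cast h1
  linarith

theorem thm_Few (h : St_Main) : St_Few := by
  intro δ₀ hδ₀
  classical
  -- reduction to small exponents
  set δ : ℝ := min δ₀ (1 / 2) with hδdef
  have hδ : 0 < δ := lt_min hδ₀ (by norm_num)
  have hδ1 : δ < 1 := (min_le_right _ _).trans_lt (by norm_num)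
  obtain ⟨N, hN⟩ := few_large δ hδ
  have hρ : 1 < 1 + δ / 2 := by linarith
  have hl : 0 < Real.log (1 + δ / 2) := Real.log_pos hρ
  refine ⟨2 / Real.log (1 + δ / 2) + (N + 2) / Real.log 2, fun X hX => ?_⟩
  let Bad : ℕ → Prop := fun n => 2 ≤ n ∧ n ≤ X ∧ ((off n 1).ncard : ℝ) < 2 ^ ((1 - δ₀) * n)
  let B : ℕ → Finset ℕ := fun ε =>
    (Finset.range (X + 1)).filter fun n => (N ≤ n ∧ n % 2 = ε) ∧ Bad n
  have hsub : {n : ℕ | 2 ≤ n ∧ n ≤ X ∧ ((off n 1).ncard : ℝ) < 2 ^ ((1 - δ₀) * n)} ⊆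
      ((Finset.range N ∪ (B 0 ∪ B 1) : Finset ℕ) : Set ℕ) := by
    intro n hn
    rw [Finset.mem_coe, Finset.mem_union, Finset.mem_union, Finset.mem_range]
    by_cases h1 : n < N
    · exact Or.inl h1
    · right
      have h2 : n ∈ Finset.range (X + 1) := Finset.mem_range.2 (Nat.lt_succ_of_le hn.2.1)
      rcases Nat.mod_two_eq_zero_or_one n with h3 | h3
      · exact Or.inl (Finset.mem_filter.2 ⟨h2, ⟨not_lt.1 h1, h3⟩, hn⟩)
      · exact Or.inr (Finset.mem_filter.2 ⟨h2, ⟨not_lt.1 h1, h3⟩, hn⟩)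
  have hc : {n : ℕ | 2 ≤ n ∧ n ≤ X ∧ ((off n 1).ncard : ℝ) < 2 ^ ((1 - δ₀) * n)}.ncard ≤
      N + ((B 0).card + (B 1).card) := by
    refine (Set.ncard_le_ncard hsub (Finset.finite_toSet _)).trans ?_
    rw [Set.ncard_coe_finset]
    refine (Finset.card_union_le _ _).trans ?_
    rw [Finset.card_range]
    exact Nat.add_le_add_left (Finset.card_union_le _ _) _
  have hBε : ∀ ε, ((B ε).card : ℝ) ≤ Real.log X / Real.log (1 + δ / 2) + 1 := by
    intro ε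
    refine few_count (1 + δ / 2) hρ X (by omega) (B ε) (fun n hn => ?_) ?_
    · have := (Finset.mem_filter.1 hn).2.2
      exact ⟨by have := this.1; omega, this.2.1⟩
    · intro n hn m hm hnm
      obtain ⟨-, ⟨h1, h2⟩, h3, -, h4⟩ := Finset.mem_filter.1 hn
      obtain ⟨-, ⟨h1', h2'⟩, h3', -, h4'⟩ := Finset.mem_filter.1 hm
      obtain ⟨j, rfl⟩ : ∃ j, m = n + 2 * j := ⟨(m - n) / 2, by omega⟩
      have hmono : ∀ k : ℕ, (2 : ℝ) ^ ((1 - δ₀) * (k : ℝ)) ≤ 2 ^ ((1 - δ) * (k : ℝ)) := by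
        intro k
        refine Real.rpow_le_rpow_of_exponent_le (by norm_num) ?_
        refine mul_le_mul_of_nonneg_right ?_ (Nat.cast_nonneg k)
        have := min_le_left δ₀ (1 / 2)
        linarith
      exact few_gap h hδ hδ1 h3 (by omega) (hN _ h1').1 (hN n h1).2 (h4.trans_le (hmono n))
        (h4'.trans_le (hmono _))
  have hlX : Real.log 2 ≤ Real.log X := Real.log_le_log (by norm_num) (by exact_mod_cast hX)
  have hl2 : 0 < Real.log 2 := Real.log_pos (by norm_num)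
  have h1 : (N + 2 : ℝ) ≤ (N + 2) / Real.log 2 * Real.log X := by
    rw [div_mul_eq_mul_div, le_div_iff₀ hl2]
    exact mul_le_mul_of_nonneg_left hlX (by positivity)
  have h2 : (({n : ℕ | 2 ≤ n ∧ n ≤ X ∧ ((off n 1).ncard : ℝ) < 2 ^ ((1 - δ₀) * n)}.ncard : ℕ) : ℝ) ≤
      N + ((B 0).card + (B 1).card) := by exact_mod_cast hc
  have h3 := hBε 0
  have h4 := hBε 1
  have h5 : 2 / Real.log (1 + δ / 2) * Real.log X = 2 * (Real.log X / Real.log (1 + δ / 2)) := by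
    ring
  rw [add_mul, h5]
  linarith

end Pool.Agent.MZA
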