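import Mathlib
import Pool.Agent.MZA.St4
import Pool.Agent.Helper21.MZVGrowth

set_option autoImplicit false

/-!
# LIN: subspaces whose dimension is a small multiple of the weight
-/

namespace Pool.Agent.MZA

open Finset Filter
open Pool.Agent.Helper21 (mzv mzvSpace algSpace H zl Adm)

private lemma lin_choose (t a s : ℝ) (ht : 0 < t) (ha : 1 + t = (2 : ℝ) ^ a)
    (hs : t = (2 : ℝ) ^ (-s)) (N p : ℕ) :
    (N.choose p : ℝ) ≤ (2 : ℝ) ^ (a * N) * (2 : ℝ) ^ (s * p) := by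
  rcases le_or_gt p N with hp | hp
  · have h1 : (N.choose p : ℝ) * t ^ p ≤ (1 + t) ^ N := by
      rw [add_comm, add_pow]
      have := Finset.single_le_sum (f := fun m => t ^ m * 1 ^ (N - m) * (N.choose m : ℝ))
        (fun i _ => by positivity) (Finset.mem_range.2 (Nat.lt_succ_of_le hp))
      simp only [one_pow, mul_one] at this ⊢
      rw [mul_comm]; exact this
    have h2 : (1 + t) ^ N = (2 : ℝ) ^ (a * N) := by
      rw [ha, Real.rpow_mul_natCast (by norm_num)]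
    have h3 : t ^ p * (2 : ℝ) ^ (s * p) = 1 := by
      rw [hs, ← Real.rpow_mul_natCast (by norm_num), ← Real.rpow_add (by norm_num)]
      rw [show -s * (p : ℝ) + s * p = 0 by ring, Real.rpow_zero]
    calc (N.choose p : ℝ) = (N.choose p : ℝ) * t ^ p * (2 : ℝ) ^ (s * p) := by
          rw [mul_assoc, h3, mul_one]
      _ ≤ (1 + t) ^ N * (2 : ℝ) ^ (s * p) := by gcongr
      _ = _ := by rw [h2]
  · rw [Nat.choose_eq_zero_of_lt hp]
    simp only [Nat.cast_zero]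
    positivity

private lemma lin_big (d : ℝ) (hd : 0 < d) : ∃ C : ℕ, ∀ N : ℕ, C ≤ N →
    4 * ((N : ℝ) + 1) ^ 2 ≤ (2 : ℝ) ^ (d * N) := by
  have hr : 1 < (2 : ℝ) ^ d := Real.one_lt_rpow (by norm_num) hd
  have h := tendsto_pow_const_div_const_pow_of_one_lt 2 hr
  have h' : ∀ᶠ N : ℕ in atTop, (N : ℝ) ^ 2 / ((2 : ℝ) ^ d) ^ N < 1 / 16 :=
    h.eventually_lt_const (by norm_num)
  obtain ⟨C, hC⟩ := eventually_atTop.1 h'
  refine ⟨C + 1, fun N hN => ?_⟩
  have h1 := hC N (by omega)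
  have hN1 : (1 : ℝ) ≤ N := by exact_mod_cast (by omega : 1 ≤ N)
  rw [Real.rpow_mul_natCast (by norm_num)]
  have hp : 0 < ((2 : ℝ) ^ d) ^ N := by positivity
  rw [div_lt_iff₀ hp] at h1
  nlinarith

private lemma lin_aux (δ : ℝ) (hδ : 0 < δ) (hδ1 : δ < 1) (n' : ℕ) (hn' : 0 < n') :
    ∃ ε : ℝ, 0 < ε ∧ ∃ C : ℕ, ∀ N : ℕ, C ≤ N → ∀ k : ℕ, (k : ℝ) ≤ ε * N →
      k * n' + 2 ≤ N ∧ ∀ a : ℕ,
        2 ^ (N - k * n' - 2) ≤ (k + 1) * (2 ^ (k * n') * ∑ p ∈ range (k * n' + 1), N.choose p) * a →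
        (2 : ℝ) ^ ((1 - δ) * N) ≤ a := by
  set t : ℝ := (2 : ℝ) ^ (δ / 8) - 1 with ht
  have ht0 : 0 < t := by
    have : 1 < (2 : ℝ) ^ (δ / 8) := Real.one_lt_rpow (by norm_num) (by positivity)
    linarith
  have ht1 : t < 1 := by
    have : (2 : ℝ) ^ (δ / 8) < 2 ^ (1 : ℝ) :=
      Real.rpow_lt_rpow_of_exponent_lt (by norm_num) (by linarith)
    rw [Real.rpow_one] at this
    linarith
  set s : ℝ := - Real.logb 2 t with hs
  have hs0 : 0 < s := by
    have := Real.logb_neg (b := 2) (by norm_num) ht0 ht1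
    linarith
  have hts : t = (2 : ℝ) ^ (-s) := by
    rw [hs, neg_neg, Real.rpow_logb (by norm_num) (by norm_num) ht0]
  set η : ℝ := min (δ / 16) (δ / (8 * s)) with hη
  have hη0 : 0 < η := by
    rw [hη]
    exact lt_min (by positivity) (by positivity)
  have hη1 : η ≤ δ / 16 := min_le_left _ _
  have hη2 : s * η ≤ δ / 8 := by
    have : η ≤ δ / (8 * s) := min_le_right _ _
    calc s * η ≤ s * (δ / (8 * s)) := by gcongr
      _ = δ / 8 := by field_simp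
  have hn1 : (1 : ℝ) ≤ n' := by exact_mod_cast hn'
  set ε : ℝ := η / (2 * n') with hε
  have hε0 : 0 < ε := by positivity
  have hε1 : ε * n' = η / 2 := by
    rw [hε]
    field_simp
  have hε2 : ε ≤ 1 := by
    have : ε * 1 ≤ ε * n' := by gcongr
    nlinarith
  obtain ⟨C, hC⟩ := lin_big (δ / 4) (by positivity)
  refine ⟨ε, hε0, C + 4, fun N hN k hk => ?_⟩
  have hN4 : (4 : ℝ) ≤ N := by exact_mod_cast (by omega : 4 ≤ N)
  have hm : ((k * n' : ℕ) : ℝ) ≤ η / 2 * N := by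
    push_cast
    calc (k : ℝ) * n' ≤ ε * N * n' := by gcongr
      _ = η / 2 * N := by rw [← hε1]; ring
  have hmN : ((k * n' : ℕ) : ℝ) ≤ N / 32 := by
    have : η / 2 * N ≤ 1 / 32 * N :=
      mul_le_mul_of_nonneg_right (by linarith) (by linarith)
    linarith
  have hkm : k * n' + 2 ≤ N := by
    have : ((k * n' + 2 : ℕ) : ℝ) ≤ N := by
      push_cast at hmN ⊢
      linarith
    exact_mod_cast this
  refine ⟨hkm, fun a ha => ?_⟩
  have hkN : (k : ℝ) ≤ N := by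
    calc (k : ℝ) ≤ ε * N := hk
      _ ≤ 1 * N := by gcongr
      _ = N := one_mul _
  -- the sum
  have hsum : ((∑ p ∈ range (k * n' + 1), N.choose p : ℕ) : ℝ) ≤
      ((N : ℝ) + 1) * (2 : ℝ) ^ (δ / 4 * N) := by
    push_cast
    calc ∑ p ∈ range (k * n' + 1), (N.choose p : ℝ)
        ≤ ∑ p ∈ range (k * n' + 1), (2 : ℝ) ^ (δ / 4 * N) := by
          refine Finset.sum_le_sum fun p hp => ?_
          refine (lin_choose t (δ / 8) s ht0 (by rw [ht]; ring) hts N p).trans ?_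
          rw [← Real.rpow_add (by norm_num)]
          apply Real.rpow_le_rpow_of_exponent_le (by norm_num)
          have hp' : (p : ℝ) ≤ ((k * n' : ℕ) : ℝ) := by
            exact_mod_cast Nat.lt_succ_iff.1 (Finset.mem_range.1 hp)
          have : s * p ≤ δ / 8 * N := by
            calc s * p ≤ s * (η / 2 * N) := by gcongr; linarith
              _ = (s * η) * N / 2 := by ring
              _ ≤ δ / 8 * N / 2 := by gcongr
              _ ≤ δ / 8 * N := by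
                have : 0 ≤ δ / 8 * N := by positivity
                linarith
          linarith
      _ = ((k * n' : ℕ) + 1 : ℝ) * (2 : ℝ) ^ (δ / 4 * N) := by
          rw [Finset.sum_const, Finset.card_range, nsmul_eq_mul]
          push_cast
          ring
      _ ≤ ((N : ℝ) + 1) * (2 : ℝ) ^ (δ / 4 * N) := by
          gcongr
          linarith
  have ha' : (2 : ℝ) ^ (N - k * n' - 2) ≤ ((k : ℝ) + 1) * (2 ^ (k * n') *
      ((∑ p ∈ range (k * n' + 1), N.choose p : ℕ) : ℝ)) * a := by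
    exact_mod_cast ha
  have hpow : (2 : ℝ) ^ (N - k * n' - 2) = (2 : ℝ) ^ ((N : ℝ) - ((k * n' : ℕ) : ℝ) - 2) := by
    rw [← Real.rpow_natCast]
    congr 1
    rw [Nat.cast_sub (by omega), Nat.cast_sub (by omega)]
    push_cast
    ring
  have hpow2 : (2 : ℝ) ^ (k * n') = (2 : ℝ) ^ (((k * n' : ℕ) : ℝ)) := by
    rw [Real.rpow_natCast]
  have hbig := hC N (by omega)
  -- collect
  have h1 : (2 : ℝ) ^ ((N : ℝ) - ((k * n' : ℕ) : ℝ) - 2) ≤
      (((N : ℝ) + 1) * ((2 : ℝ) ^ (((k * n' : ℕ) : ℝ)) * (((N : ℝ) + 1) *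
        (2 : ℝ) ^ (δ / 4 * N)))) * a := by
    rw [← hpow]
    refine ha'.trans ?_
    rw [hpow2]
    gcongr
  have h2 : ((N : ℝ) + 1) * ((2 : ℝ) ^ (((k * n' : ℕ) : ℝ)) * (((N : ℝ) + 1) *
        (2 : ℝ) ^ (δ / 4 * N))) ≤ (2 : ℝ) ^ (((k * n' : ℕ) : ℝ) + δ / 4 * N + δ / 4 * N - 2) := by
    have e : (2 : ℝ) ^ (((k * n' : ℕ) : ℝ) + δ / 4 * N + δ / 4 * N - 2) =
        (2 : ℝ) ^ (((k * n' : ℕ) : ℝ)) * (2 : ℝ) ^ (δ / 4 * N) * ((2 : ℝ) ^ (δ / 4 * N) / 4) := by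
      rw [Real.rpow_sub (by norm_num), Real.rpow_add (by norm_num), Real.rpow_add (by norm_num)]
      norm_num
      ring
    rw [e]
    have : ((N : ℝ) + 1) ^ 2 ≤ (2 : ℝ) ^ (δ / 4 * N) / 4 := by linarith
    calc ((N : ℝ) + 1) * ((2 : ℝ) ^ (((k * n' : ℕ) : ℝ)) * (((N : ℝ) + 1) *
        (2 : ℝ) ^ (δ / 4 * N))) = (2 : ℝ) ^ (((k * n' : ℕ) : ℝ)) * (2 : ℝ) ^ (δ / 4 * N) *
          ((N : ℝ) + 1) ^ 2 := by ring
      _ ≤ _ := by gcongr
  have h3 : (2 : ℝ) ^ ((N : ℝ) - ((k * n' : ℕ) : ℝ) - 2) ≤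
      (2 : ℝ) ^ (((k * n' : ℕ) : ℝ) + δ / 4 * N + δ / 4 * N - 2) * a :=
    h1.trans (by gcongr)
  have h4 : (2 : ℝ) ^ ((1 - δ) * N) * (2 : ℝ) ^ (((k * n' : ℕ) : ℝ) + δ / 4 * N + δ / 4 * N - 2) ≤
      (2 : ℝ) ^ ((N : ℝ) - ((k * n' : ℕ) : ℝ) - 2) := by
    rw [← Real.rpow_add (by norm_num)]
    apply Real.rpow_le_rpow_of_exponent_le (by norm_num)
    have : ((k * n' : ℕ) : ℝ) ≤ δ / 32 * N := by
      calc ((k * n' : ℕ) : ℝ) ≤ η / 2 * N := hm
        _ ≤ (δ / 16) / 2 * N := by gcongr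
        _ = δ / 32 * N := by ring
    nlinarith
  have hpos : 0 < (2 : ℝ) ^ (((k * n' : ℕ) : ℝ) + δ / 4 * N + δ / 4 * N - 2) := by positivity
  have h5 := h4.trans h3
  rw [mul_comm] at h5
  exact le_of_mul_le_mul_left h5 hpos

theorem thm_Lin (h : St_Exp) : St_Lin := by
  by_cases halg : ∀ n, ∀ z ∈ mzvSpace n, IsAlgebraic ℚ (z / Real.pi ^ n)
  · left
    intro N w hw
    apply halg N
    apply Submodule.subset_span
    refine ⟨w.length, fun i => w.get i, fun i => hw.1 _ (List.get_mem w i), fun h => ?_, ?_, rfl⟩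
    · cases w with
      | nil => simp at h
      | cons a t => exact hw.2.1 a t rfl
    · rw [← hw.2.2, ← List.sum_ofFn, List.ofFn_get]
  · right
    push Not at halg
    obtain ⟨n, z, hz, ht⟩ := halg
    obtain ⟨n', hn', -, x, hx, y, hy, hxy⟩ := Pool.Agent.Helper21.exists_ratio (le_refl n) hz ht
    intro δ₀ hδ₀
    obtain ⟨ε, hε, C, hC⟩ := lin_aux (min δ₀ (1 / 2)) (lt_min hδ₀ (by norm_num))
      ((min_le_right _ _).trans_lt (by norm_num)) n' hn'
    refine ⟨ε, hε, C, fun N hN V hV hVr => ?_⟩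
    set k := Module.finrank (algebraicClosure ℚ ℝ) V with hk
    obtain ⟨h1, h2⟩ := hC N hN k hVr
    have h3 := h k (k * n') N
      (Pool.Agent.Helper21.growthAlg hx hy hxy k (k * n') le_rfl (by omega)) h1 V hV le_rfl
    refine le_trans ?_ (h2 _ h3)
    apply Real.rpow_le_rpow_of_exponent_le (by norm_num)
    have : min δ₀ (1 / 2) ≤ δ₀ := min_le_left _ _
    have hN0 : (0 : ℝ) ≤ N := Nat.cast_nonneg _
    nlinarith

end Pool.Agent.MZA
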