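import Mathlib
import Pool.Agent.MZA.St

set_option autoImplicit false

namespace Pool.Agent.MZA

open Finset Filter
open Pool.Agent.Helper21 (mzv H zl Adm)

namespace SymAux

/-- Sum of `f` over a list of lists. -/
noncomputable def sf (f : List ℕ → ℝ) (L : List (List ℕ)) : ℝ := (L.map f).sum

theorem sf_nil (f : List ℕ → ℝ) : sf f [] = 0 := by simp [sf]

theorem sf_cons (f : List ℕ → ℝ) (v : List ℕ) (L : List (List ℕ)) :
    sf f (v :: L) = f v + sf f L := by simp [sf]

theorem sf_map (f : List ℕ → ℝ) (g : List ℕ → List ℕ) (L : List (List ℕ)) :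
    sf f (L.map g) = sf (fun v => f (g v)) L := by
  simp [sf, Function.comp_def]

theorem sf_add (f g : List ℕ → ℝ) (L : List (List ℕ)) :
    sf (fun v => f v + g v) L = sf f L + sf g L := by
  induction L with
  | nil => simp [sf_nil]
  | cons v L ih => rw [sf_cons, sf_cons, sf_cons, ih]; ring

theorem sf_mul (c : ℝ) (f : List ℕ → ℝ) (L : List (List ℕ)) :
    c * sf f L = sf (fun v => c * f v) L := by
  induction L with
  | nil => simp [sf_nil]
  | cons v L ih => rw [sf_cons, sf_cons, ← ih]; ring

theorem sf_congr (f g : List ℕ → ℝ) (L : List (List ℕ)) (h : ∀ v ∈ L, f v = g v) :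
    sf f L = sf g L := by
  induction L with
  | nil => simp [sf_nil]
  | cons v L ih =>
    rw [sf_cons, sf_cons, h v (by simp), ih (fun u hu => h u (by simp [hu]))]

theorem sf_append (f : List ℕ → ℝ) (L M : List (List ℕ)) :
    sf f (L ++ M) = sf f L + sf f M := by
  simp [sf]

theorem sf_flatMap (f : List ℕ → ℝ) (g : List ℕ → List (List ℕ)) (L : List (List ℕ)) :
    sf f (L.flatMap g) = sf (fun v => sf f (g v)) L := by
  induction L with
  | nil => simp [sf_nil]
  | cons v L ih => rw [List.flatMap_cons, sf_append, ih, sf_cons]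

theorem sf_st (b : ℕ) (v : List ℕ) : ∀ f : List ℕ → ℝ,
    sf f (st b v) = sf f (List.permutations'Aux b v) + sf f (adds b v) := by
  induction v with
  | nil => intro f; simp [st, adds, sf]
  | cons a t ih =>
    intro f
    rw [st, adds, List.permutations'Aux, sf_cons, sf_cons, sf_cons, sf_cons, sf_map, sf_map,
      sf_map, ih]
    ring

theorem sf_aux (a b : ℕ) (v : List ℕ) : ∀ f : List ℕ → ℝ,
    sf (fun u => sf f (adds b u)) (List.permutations'Aux a v) =
      sf f (List.permutations'Aux (a + b) v) +
        sf (fun u => sf f (List.permutations'Aux a u)) (adds b v) := by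
  induction v with
  | nil => intro f; simp [adds, sf]
  | cons c t ih =>
    intro f
    have h1 : ∀ u : List ℕ, sf f (adds b (c :: u)) =
        f ((c + b) :: u) + sf (fun z => f (c :: z)) (adds b u) := by
      intro u; rw [adds, sf_cons, sf_map]
    have h2 : ∀ u : List ℕ, sf f (List.permutations'Aux a (c :: u)) =
        f (a :: c :: u) + sf (fun z => f (c :: z)) (List.permutations'Aux a u) := by
      intro u; rw [List.permutations'Aux, sf_cons, sf_map]
    have h3 : ∀ (x : ℕ) (g : List ℕ → ℝ), sf g (List.permutations'Aux x (c :: t)) =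
        g (x :: c :: t) + sf (fun z => g (c :: z)) (List.permutations'Aux x t) := by
      intro x g; rw [List.permutations'Aux, sf_cons, sf_map]
    have h4 : ∀ g : List ℕ → ℝ, sf g (adds b (c :: t)) =
        g ((c + b) :: t) + sf (fun z => g (c :: z)) (adds b t) := by
      intro g; rw [adds, sf_cons, sf_map]
    have h5 : sf f (adds b (a :: c :: t)) =
        f ((a + b) :: c :: t) + (f (a :: (c + b) :: t) +
          sf (fun z => f (a :: c :: z)) (adds b t)) := by
      rw [adds, sf_cons, sf_map, h4]
    have h6 : sf f (List.permutations'Aux a ((c + b) :: t)) =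
        f (a :: (c + b) :: t) +
          sf (fun z => f ((c + b) :: z)) (List.permutations'Aux a t) := by
      rw [List.permutations'Aux, sf_cons, sf_map]
    rw [h3, h3, h4, h5, h6]
    simp only [h1, h2]
    rw [sf_add, sf_add, ih]
    ring

theorem sf_perm (b : ℕ) (w : List ℕ) : ∀ f : List ℕ → ℝ,
    sf (fun u => sf f (adds b u)) w.permutations' =
      sf (fun u => sf f u.permutations') (adds b w) := by
  induction w with
  | nil => intro f; simp [adds, sf]
  | cons a t ih =>
    intro f
    rw [List.permutations', sf_flatMap]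
    simp only [sf_aux]
    rw [sf_add, adds, sf_cons, sf_map, List.permutations', sf_flatMap, ih]
    have h2 : ∀ u : List ℕ, sf f (a :: u).permutations' =
        sf (fun z => sf f (List.permutations'Aux a z)) u.permutations' := by
      intro u; rw [List.permutations', sf_flatMap]
    simp only [h2]

theorem adds_mem (b : ℕ) (w : List ℕ) : ∀ u ∈ adds b w,
    u.length = w.length ∧ u.sum = w.sum + b ∧
      ((∀ a ∈ w, 2 ≤ a ∧ Even a) → 2 ≤ b ∧ Even b → ∀ a ∈ u, 2 ≤ a ∧ Even a) := by
  induction w with
  | nil => intro u hu; simp [adds] at hu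
  | cons a t ih =>
    intro u hu
    rw [adds, List.mem_cons, List.mem_map] at hu
    rcases hu with rfl | ⟨v, hv, rfl⟩
    · refine ⟨by simp, by simp; ring, ?_⟩
      intro hw hb c hc
      rcases List.mem_cons.1 hc with rfl | hc
      · have := hw a (by simp)
        exact ⟨by omega, this.2.add hb.2⟩
      · exact hw c (by simp [hc])
    · obtain ⟨h1, h2, h3⟩ := ih v hv
      refine ⟨by simp [h1], by simp [h2]; ring, ?_⟩
      intro hw hb c hc
      rcases List.mem_cons.1 hc with rfl | hc
      · exact hw c (by simp)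
      · exact h3 (fun d hd => hw d (by simp [hd])) hb c hc

theorem H_pos (w : List ℕ) : ∀ n : ℕ, w.length ≤ n → 0 < H w n := by
  induction w with
  | nil => intro n _; rw [Pool.Agent.Helper21.H_nil]; norm_num
  | cons a t ih =>
    intro n hn
    obtain ⟨m, rfl⟩ : ∃ m, n = m + 1 := ⟨n - 1, by simp at hn; omega⟩
    have hm : t.length ≤ m := by simpa using hn
    rw [Pool.Agent.Helper21.H_cons, Finset.sum_range_succ]
    have h1 : 0 ≤ ∑ x ∈ range m, (1 / ((x + 1 : ℕ) : ℝ)) ^ a * H t x := by
      apply Finset.sum_nonneg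
      intro x _
      have := Pool.Agent.Helper21.H_nonneg t x
      positivity
    have h2 : 0 < (1 / ((m + 1 : ℕ) : ℝ)) ^ a * H t m := by
      have := ih m hm
      positivity
    linarith

theorem zl_pos (w : List ℕ) (hw : Adm w) : 0 < zl w := by
  have h := Pool.Agent.Helper21.tendsto_zl w hw
  have h1 : H w w.length ≤ zl w := (Pool.Agent.Helper21.H_mono w).ge_of_tendsto h _
  have h2 := H_pos w w.length le_rfl
  linarith

theorem adm_of (w : List ℕ) (hw : ∀ a ∈ w, 2 ≤ a) : Adm w := by
  refine ⟨fun a ha => by have := hw a ha; omega, ?_⟩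
  rintro a t rfl
  exact hw a (by simp)

theorem sf_pos (L : List (List ℕ)) (hne : L ≠ []) (h : ∀ v ∈ L, 0 < zl v) : 0 < sf zl L := by
  induction L with
  | nil => exact absurd rfl hne
  | cons v L ih =>
    rw [sf_cons]
    have h1 := h v (by simp)
    by_cases hL : L = []
    · subst hL; rw [sf_nil]; linarith
    · have := ih hL (fun u hu => h u (by simp [hu]))
      linarith

theorem prod_eq (h1 : St_Stf) (b : ℕ) (hb : 2 ≤ b) (w : List ℕ) (hw : ∀ a ∈ w, 2 ≤ a) :
    zl [b] * sf zl w.permutations' =
      sf zl (b :: w).permutations' + sf (fun u => sf zl u.permutations') (adds b w) := by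
  rw [sf_mul, ← sf_perm, List.permutations', sf_flatMap, ← sf_add]
  apply sf_congr
  intro v hv
  rw [List.mem_permutations'] at hv
  have hadm : Adm v := adm_of v (fun a ha => hw a (hv.mem_iff.1 ha))
  rw [(h1 b v hb hadm).1]
  exact sf_st b v zl

theorem rat_sum (N : ℕ) (L : List (List ℕ)) (g : List ℕ → ℝ)
    (h : ∀ u ∈ L, ∃ q : ℚ, g u = q * Real.pi ^ N) : ∃ q : ℚ, sf g L = q * Real.pi ^ N := by
  induction L with
  | nil => exact ⟨0, by simp [sf_nil]⟩
  | cons v L ih =>
    obtain ⟨q, hq⟩ := ih (fun u hu => h u (by simp [hu]))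
    obtain ⟨p, hp⟩ := h v (by simp)
    refine ⟨p + q, ?_⟩
    rw [sf_cons, hq, hp]; push_cast; ring

theorem main (h1 : St_Stf) (h2 : St_Zev) : ∀ r : ℕ, ∀ w : List ℕ, w.length = r →
    (∀ a ∈ w, 2 ≤ a ∧ Even a) →
    ∃ q : ℚ, sf zl w.permutations' = q * Real.pi ^ w.sum := by
  intro r
  induction r with
  | zero =>
    intro w hw _
    have : w = [] := List.length_eq_zero_iff.1 hw
    subst this
    refine ⟨1, ?_⟩
    simp [sf, Pool.Agent.Helper21.zl_nil]
  | succ r ih =>
    intro w hw hev
    obtain ⟨b, t, rfl⟩ : ∃ b t, w = b :: t := by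
      cases w with
      | nil => simp at hw
      | cons b t => exact ⟨b, t, rfl⟩
    have ht : t.length = r := by simpa using hw
    have hb := hev b (by simp)
    have hte : ∀ a ∈ t, 2 ≤ a ∧ Even a := fun a ha => hev a (by simp [ha])
    obtain ⟨j, hj⟩ := hb.2
    obtain ⟨q1, hq1p, hq1⟩ := h2 j (by omega)
    have hb2 : b = 2 * j := by omega
    obtain ⟨q2, hq2⟩ := ih t ht hte
    obtain ⟨q3, hq3⟩ := rat_sum (t.sum + b) (adds b t) (fun u => sf zl u.permutations') (by
      intro u hu
      obtain ⟨hl, hs, he⟩ := adds_mem b t u hu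
      obtain ⟨q, hq⟩ := ih u (by omega) (he hte hb)
      exact ⟨q, by rw [← hs]; exact hq⟩)
    have hp := prod_eq h1 b hb.1 t (fun a ha => (hte a ha).1)
    refine ⟨q1 * q2 - q3, ?_⟩
    have h5 : sf zl (b :: t).permutations' = zl [b] * sf zl t.permutations' -
        sf (fun u => sf zl u.permutations') (adds b t) := by linarith
    rw [h5, hq3, hq2]
    rw [← hb2] at hq1
    rw [hq1, List.sum_cons]
    push_cast
    rw [pow_add, pow_add]
    ring

end SymAux

open SymAux in
theorem thm_Sym (h1 : St_Stf) (h2 : St_Zev) : St_Sym := by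
  intro w hw
  obtain ⟨q, hq⟩ := main h1 h2 w.length w rfl hw
  have hpos : 0 < sf zl w.permutations' := by
    apply sf_pos
    · intro h
      have : w ∈ w.permutations' := List.mem_permutations'.2 (List.Perm.refl w)
      rw [h] at this
      simp at this
    · intro v hv
      rw [List.mem_permutations'] at hv
      exact zl_pos v (adm_of v (fun a ha => (hw a (hv.mem_iff.1 ha)).1))
  refine ⟨q, ?_, hq⟩
  rw [hq] at hpos
  have hpi : 0 < Real.pi ^ w.sum := by positivity
  have : (0 : ℝ) < q := by
    by_contra hc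
    push Not at hc
    have := mul_nonpos_of_nonpos_of_nonneg hc hpi.le
    linarith
  exact_mod_cast this

end Pool.Agent.MZA
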