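import Mathlib
import Pool.Agent.MZA.St2
import Pool.Agent.MZA.Sym
import Pool.Agent.MZA.Fin
import Pool.Agent.Helper21.MZVGrowth

set_option autoImplicit false

/-!
# LOC (MP_2000e9_nt), helper67 for helper46
-/

namespace Pool.Agent.MZA

open Finset Filter
open Pool.Agent.Helper21 (mzv H zl Adm)

namespace LocAux

open SymAux (sf sf_nil sf_cons sf_map sf_add sf_mul sf_congr sf_append sf_flatMap sf_st)

theorem sf_adds_comm (a b : ℕ) (u : List ℕ) : ∀ f : List ℕ → ℝ,
    sf (fun w => sf f (adds b w)) (adds a u) = sf (fun w => sf f (adds a w)) (adds b u) := by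
  induction u with
  | nil => intro f; simp [adds, sf]
  | cons c t ih =>
    intro f
    have key : ∀ a b : ℕ, sf (fun w => sf f (adds b w)) (adds a (c :: t)) =
        f ((c + a + b) :: t) + sf (fun v => f ((c + a) :: v)) (adds b t) +
          (sf (fun v => f ((c + b) :: v)) (adds a t) +
            sf (fun v => sf (fun z => f (c :: z)) (adds b v)) (adds a t)) := by
      intro a b
      have h1 : ∀ v : List ℕ, sf f (adds b (c :: v)) =
          f ((c + b) :: v) + sf (fun z => f (c :: z)) (adds b v) := by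
        intro v
        rw [adds, sf_cons, sf_map]
      rw [adds, sf_cons, sf_map, adds, sf_cons, sf_map]
      simp only [h1]
      rw [sf_add]
    rw [key a b, key b a, ih]
    have e : c + a + b = c + b + a := by omega
    rw [e]
    ring

theorem sf_alg (f : List ℕ → ℝ) (L : List (List ℕ)) (h : ∀ v ∈ L, IsAlgebraic ℚ (f v)) :
    IsAlgebraic ℚ (sf f L) := by
  induction L with
  | nil =>
    rw [sf_nil]
    exact isAlgebraic_zero
  | cons v L ih =>
    rw [sf_cons]
    exact (h v (by simp)).add (ih fun w hw => h w (by simp [hw]))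

theorem prod (h1 : St_Stf) (u : List ℕ) (hu : Adm u) (a b : ℕ) (hb : 1 ≤ b) :
    zl [2 * b] * sf zl (adds (2 * a) u) =
      sf (fun w => sf zl (w.permutations'Aux (2 * b))) (adds (2 * a) u) +
        sf (fun w => sf zl (adds (2 * b) w)) (adds (2 * a) u) := by
  rw [sf_mul, ← sf_add]
  refine sf_congr _ _ _ fun w hw => ?_
  rw [(h1 (2 * b) w (by omega) (adds_adm (2 * a) u hu w hw)).1]
  exact sf_st (2 * b) w zl

end LocAux

open SymAux (sf) in
theorem thm_Loc (h1 : St_Stf) (h2 : St_Zev) (h3 : St_Mon) : St_Loc := by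
  intro u hu0 hu i j k hi hij hjk
  by_contra hcon
  push Not at hcon
  have hκ : ∀ a ∈ [i, j, k], ∀ b ∈ [i, j, k], a ≠ b → 1 ≤ a → 1 ≤ b →
      IsAlgebraic ℚ (zl [2 * b] * sf zl (adds (2 * a) u) - zl [2 * a] * sf zl (adds (2 * b) u)) := by
    intro a ha b hb hab ha1 hb1
    have e : zl [2 * b] * sf zl (adds (2 * a) u) - zl [2 * a] * sf zl (adds (2 * b) u) =
        sf (fun w => sf zl (w.permutations'Aux (2 * b))) (adds (2 * a) u) -
          sf (fun w => sf zl (w.permutations'Aux (2 * a))) (adds (2 * b) u) := by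
      rw [LocAux.prod h1 u hu a b hb1, LocAux.prod h1 u hu b a ha1,
        LocAux.sf_adds_comm (2 * a) (2 * b) u zl]
      ring
    rw [e]
    refine IsAlgebraic.sub ?_ ?_
    · exact LocAux.sf_alg _ _ fun w hw => LocAux.sf_alg _ _ fun v hv =>
        hcon a ha b hb hab w hw v hv
    · exact LocAux.sf_alg _ _ fun w hw => LocAux.sf_alg _ _ fun v hv =>
        hcon b hb a ha hab.symm w hw v hv
  have hz : ∀ a : ℕ, 1 ≤ a → ∀ κ : ℝ, IsAlgebraic ℚ κ →
      IsAlgebraic ℚ (κ * zl [2 * a] / Real.pi ^ (2 * a)) := by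
    intro a ha κ hκ
    obtain ⟨q, -, hq⟩ := h2 a ha
    have hp : Real.pi ^ (2 * a) ≠ 0 := pow_ne_zero _ Real.pi_ne_zero
    have e : κ * zl [2 * a] / Real.pi ^ (2 * a) = κ * (q : ℝ) := by
      rw [hq]
      field_simp
    rw [e]
    exact hκ.mul (isAlgebraic_algebraMap (R := ℚ) (A := ℝ) q)
  set mi := sf zl (adds (2 * i) u) with hmi
  set mj := sf zl (adds (2 * j) u) with hmj
  set mk := sf zl (adds (2 * k) u) with hmk
  have a1 := hz k (by omega) _ (hκ i (by simp) j (by simp) (by omega) (by omega) (by omega))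
  have a2 := hz i (by omega) _ (hκ j (by simp) k (by simp) (by omega) (by omega) (by omega))
  have a3 := hz j (by omega) _ (hκ k (by simp) i (by simp) (by omega) (by omega) (by omega))
  rw [← hmi, ← hmj] at a1
  rw [← hmj, ← hmk] at a2
  rw [← hmk, ← hmi] at a3
  have key := Pool.Agent.Helper21.indep_of_alg_aux (2 * k) (fun n =>
    (if n = 2 * k then (zl [2 * j] * mi - zl [2 * i] * mj) * zl [2 * k] else 0) +
      ((if n = 2 * i then (zl [2 * k] * mj - zl [2 * j] * mk) * zl [2 * i] else 0) +
        (if n = 2 * j then (zl [2 * i] * mk - zl [2 * k] * mi) * zl [2 * j] else 0)))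
    (by
      intro n hn
      by_cases c1 : n = 2 * k
      · have c2 : n ≠ 2 * i := by omega
        have c3 : n ≠ 2 * j := by omega
        rw [if_pos c1, if_neg c2, if_neg c3, add_zero, add_zero, c1]
        exact a1
      · by_cases c2 : n = 2 * i
        · have c3 : n ≠ 2 * j := by omega
          rw [if_neg c1, if_pos c2, if_neg c3, add_zero, zero_add, c2]
          exact a2
        · by_cases c3 : n = 2 * j
          · rw [if_neg c1, if_neg c2, if_pos c3, zero_add, zero_add, c3]
            exact a3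
          · rw [if_neg c1, if_neg c2, if_neg c3, zero_add, zero_add, zero_div]
            exact isAlgebraic_zero)
    (by
      rw [Finset.sum_add_distrib, Finset.sum_add_distrib, Finset.sum_ite_eq', Finset.sum_ite_eq',
        Finset.sum_ite_eq', if_pos (Finset.mem_range.2 (by omega)),
        if_pos (Finset.mem_range.2 (by omega)), if_pos (Finset.mem_range.2 (by omega))]
      ring) (2 * k) le_rfl
  beta_reduce at key
  rw [if_pos rfl, if_neg (by omega), if_neg (by omega), add_zero, add_zero] at key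
  have h4 := h3 u hu0 hu j i hi hij
  have h4' : mi * zl [2 * j] < mj * zl [2 * i] := h4
  obtain ⟨q, hq, hq'⟩ := h2 k (by omega)
  have h5 : zl [2 * k] ≠ 0 := by
    rw [hq']
    have : (q : ℝ) ≠ 0 := by exact_mod_cast hq.ne'
    exact mul_ne_zero this (pow_ne_zero _ Real.pi_ne_zero)
  rcases mul_eq_zero.1 key with h6 | h6
  · linarith
  · exact h5 h6

end Pool.Agent.MZA
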