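import Mathlib
import Pool.Agent.MZA.St2
import Pool.Agent.MZA.Sym

set_option autoImplicit false

namespace Pool.Agent.MZA

open Finset Filter
open Pool.Agent.Helper21 (mzv H zl Adm)

namespace MonAux

/-- `1 / (m + 1)`. -/
noncomputable def ee (m : ℕ) : ℝ := 1 / ((m + 1 : ℕ) : ℝ)

theorem ee_pos (m : ℕ) : 0 < ee m := by unfold ee; positivity

theorem ee_anti {m n : ℕ} (h : m ≤ n) : ee n ≤ ee m := by
  unfold ee
  apply one_div_le_one_div_of_le (by positivity)
  exact_mod_cast Nat.succ_le_succ h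

theorem ee_zero : ee 0 = 1 := by simp [ee]

theorem ee_one_lt : ee 1 < 1 := by norm_num [ee]

theorem H_c (a : ℕ) (w : List ℕ) (n : ℕ) :
    H (a :: w) n = ∑ m ∈ range n, ee m ^ a * H w m := rfl

/-- Weight of the tuples that contain the number `m + 1`. -/
noncomputable def W : List ℕ → ℕ → ℕ → ℝ
  | [], _, _ => 0
  | a :: t, n, m => (if m < n then ee m ^ a * H t m else 0) + ∑ l ∈ range n, ee l ^ a * W t l m

theorem W_nil (n m : ℕ) : W [] n m = 0 := rfl

theorem W_cons (a : ℕ) (t : List ℕ) (n m : ℕ) : W (a :: t) n m =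
    (if m < n then ee m ^ a * H t m else 0) + ∑ l ∈ range n, ee l ^ a * W t l m := rfl

theorem W_zero (u : List ℕ) : ∀ n m : ℕ, n ≤ m → W u n m = 0 := by
  induction u with
  | nil => intros; rfl
  | cons a t ih =>
    intro n m h
    rw [W_cons, if_neg (by omega), Finset.sum_eq_zero, add_zero]
    intro l hl
    rw [ih l m (by have := Finset.mem_range.1 hl; omega), mul_zero]

theorem W_nonneg (u : List ℕ) : ∀ n m : ℕ, 0 ≤ W u n m := by
  induction u with
  | nil => intro n m; rw [W_nil]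
  | cons a t ih =>
    intro n m
    rw [W_cons]
    have h1 : 0 ≤ ∑ l ∈ range n, ee l ^ a * W t l m :=
      Finset.sum_nonneg (fun l _ => mul_nonneg (pow_nonneg (ee_pos l).le _) (ih l m))
    have h2 : 0 ≤ (if m < n then ee m ^ a * H t m else 0) := by
      split_ifs
      · exact mul_nonneg (pow_nonneg (ee_pos m).le _) (Pool.Agent.Helper21.H_nonneg t m)
      · exact le_rfl
    linarith

theorem W_diag (u : List ℕ) (m : ℕ) : W u (m + 1) m = H u (m + 1) - H u m := by
  cases u with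
  | nil => rw [W_nil, Pool.Agent.Helper21.H_nil, Pool.Agent.Helper21.H_nil]; ring
  | cons a t =>
    rw [W_cons, if_pos (by omega), Finset.sum_eq_zero, H_c, H_c, Finset.sum_range_succ]
    · ring
    · intro l hl
      rw [W_zero t l m (by have := Finset.mem_range.1 hl; omega), mul_zero]

theorem sf_H (a : ℕ) (n : ℕ) (L : List (List ℕ)) :
    SymAux.sf (fun v => H (a :: v) n) L =
      ∑ l ∈ range n, ee l ^ a * SymAux.sf (fun v => H v l) L := by
  induction L with
  | nil => simp [SymAux.sf_nil]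
  | cons v L ih2 =>
    rw [SymAux.sf_cons, ih2, H_c, ← Finset.sum_add_distrib]
    apply Finset.sum_congr rfl
    intro l _
    rw [SymAux.sf_cons]; ring

theorem sum_adds (c : ℕ) (u : List ℕ) : ∀ n : ℕ,
    SymAux.sf (fun v => H v n) (adds c u) = ∑ m ∈ range n, ee m ^ c * W u n m := by
  induction u with
  | nil => intro n; simp [adds, SymAux.sf_nil, W_nil]
  | cons a t ih =>
    intro n
    rw [adds, SymAux.sf_cons, SymAux.sf_map, H_c, sf_H]
    have h2 : ∀ l ∈ range n, ee l ^ a * SymAux.sf (fun v => H v l) (adds c t) =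
        ∑ m ∈ range n, ee m ^ c * (ee l ^ a * W t l m) := by
      intro l hl
      rw [ih l, Finset.mul_sum]
      have h3 : ∑ m ∈ range n, ee m ^ c * (ee l ^ a * W t l m) =
          ∑ m ∈ range l, ee m ^ c * (ee l ^ a * W t l m) := by
        symm
        apply Finset.sum_subset (Finset.range_subset_range.2 (Finset.mem_range.1 hl).le)
        intro m _ hm
        rw [W_zero t l m (by simpa using hm)]; ring
      rw [h3]
      apply Finset.sum_congr rfl
      intro m _; ring
    rw [Finset.sum_congr rfl h2, Finset.sum_comm, ← Finset.sum_add_distrib]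
    apply Finset.sum_congr rfl
    intro m hm
    rw [W_cons, if_pos (Finset.mem_range.1 hm), mul_add, Finset.mul_sum]
    congr 1
    ring

theorem W_step (a : ℕ) (t : List ℕ) (n m : ℕ) (hm : m + 1 < n) :
    (ee m ^ a - ee (m + 1) ^ a) * H t m +
      ∑ l ∈ (range n).erase (m + 1), ee l ^ a * (W t l m - W t l (m + 1)) =
    W (a :: t) n m - W (a :: t) n (m + 1) := by
  rw [W_cons, W_cons, if_pos (by omega), if_pos hm]
  have h1 : ∑ l ∈ range n, ee l ^ a * W t l m - ∑ l ∈ range n, ee l ^ a * W t l (m + 1) =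
      ∑ l ∈ range n, ee l ^ a * (W t l m - W t l (m + 1)) := by
    rw [← Finset.sum_sub_distrib]
    exact Finset.sum_congr rfl (fun l _ => by ring)
  have h2 : ∑ l ∈ range n, ee l ^ a * (W t l m - W t l (m + 1)) =
      ee (m + 1) ^ a * (H t (m + 1) - H t m) +
        ∑ l ∈ (range n).erase (m + 1), ee l ^ a * (W t l m - W t l (m + 1)) := by
    rw [← Finset.add_sum_erase _ _ (Finset.mem_range.2 hm), W_diag,
      W_zero t (m + 1) (m + 1) le_rfl, sub_zero]
  linear_combination -h1 - h2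

theorem W_anti (u : List ℕ) : ∀ n m : ℕ, W u n (m + 1) ≤ W u n m := by
  induction u with
  | nil => intro n m; rw [W_nil, W_nil]
  | cons a t ih =>
    intro n m
    by_cases hm : m + 1 < n
    · have h := W_step a t n m hm
      have h1 : 0 ≤ (ee m ^ a - ee (m + 1) ^ a) * H t m :=
        mul_nonneg (sub_nonneg.2 (pow_le_pow_left₀ (ee_pos _).le (ee_anti (by omega)) a))
          (Pool.Agent.Helper21.H_nonneg t m)
      have h2 : 0 ≤ ∑ l ∈ (range n).erase (m + 1), ee l ^ a * (W t l m - W t l (m + 1)) :=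
        Finset.sum_nonneg (fun l _ =>
          mul_nonneg (pow_nonneg (ee_pos l).le _) (sub_nonneg.2 (ih l m)))
      linarith
    · rw [W_zero _ n (m + 1) (by omega)]
      exact W_nonneg _ _ _

theorem W_antitone (u : List ℕ) (n : ℕ) : Antitone (W u n) :=
  antitone_nat_of_succ_le (W_anti u n)

theorem W_gap (u : List ℕ) (hu : u ≠ []) (h1 : ∀ a ∈ u, 1 ≤ a) :
    ∃ δ : ℝ, 0 < δ ∧ ∃ N : ℕ, ∀ n, N ≤ n → δ ≤ W u n 0 - W u n 1 := by
  induction u with
  | nil => exact absurd rfl hu
  | cons a t ih =>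
    have ha : 1 ≤ a := h1 a (by simp)
    by_cases ht : t = []
    · subst ht
      refine ⟨1 - ee 1 ^ a, ?_, 2, ?_⟩
      · have : ee 1 ^ a < 1 := pow_lt_one₀ (ee_pos 1).le ee_one_lt (by omega)
        linarith
      · intro n hn
        have h := W_step a [] n 0 (by omega)
        rw [Pool.Agent.Helper21.H_nil, ee_zero, one_pow, mul_one] at h
        have h2 : 0 ≤ ∑ l ∈ (range n).erase (0 + 1), ee l ^ a * (W [] l 0 - W [] l (0 + 1)) :=
          Finset.sum_nonneg (fun l _ =>
            mul_nonneg (pow_nonneg (ee_pos l).le _) (sub_nonneg.2 (W_anti [] l 0)))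
        simp only [Nat.zero_add] at h h2
        linarith
    · obtain ⟨δ, hδ, N, hN⟩ := ih ht (fun b hb => h1 b (by simp [hb]))
      refine ⟨ee (max N 2) ^ a * δ, mul_pos (pow_pos (ee_pos _) _) hδ, max N 2 + 1, ?_⟩
      intro n hn
      have h2le : 2 ≤ max N 2 := le_max_right _ _
      have h := W_step a t n 0 (by omega)
      have h1 : 0 ≤ (ee 0 ^ a - ee (0 + 1) ^ a) * H t 0 :=
        mul_nonneg (sub_nonneg.2 (pow_le_pow_left₀ (ee_pos _).le (ee_anti (by omega)) a))
          (Pool.Agent.Helper21.H_nonneg t 0)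
      have hmem : max N 2 ∈ (range n).erase (0 + 1) := by
        rw [Finset.mem_erase, Finset.mem_range]
        constructor <;> omega
      have h2 : ee (max N 2) ^ a * (W t (max N 2) 0 - W t (max N 2) (0 + 1)) ≤
          ∑ l ∈ (range n).erase (0 + 1), ee l ^ a * (W t l 0 - W t l (0 + 1)) :=
        Finset.single_le_sum (f := fun l => ee l ^ a * (W t l 0 - W t l (0 + 1)))
          (fun l _ => mul_nonneg (pow_nonneg (ee_pos l).le _) (sub_nonneg.2 (W_anti t l 0))) hmem
      have h3 : ee (max N 2) ^ a * δ ≤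
          ee (max N 2) ^ a * (W t (max N 2) 0 - W t (max N 2) (0 + 1)) :=
        mul_le_mul_of_nonneg_left (hN _ (le_max_left _ _)) (pow_nonneg (ee_pos _).le _)
      simp only [Nat.zero_add] at h h1 h2 h3
      linarith

theorem term_nonneg (i j m k : ℕ) (hj : j < i) (w : ℕ → ℝ) (hw : Antitone w) :
    0 ≤ (w m - w k) * (ee m ^ (2 * i) * ee k ^ (2 * j) - ee m ^ (2 * j) * ee k ^ (2 * i)) := by
  have key : ∀ m k : ℕ, m ≤ k →
      0 ≤ (w m - w k) * (ee m ^ (2 * i) * ee k ^ (2 * j) - ee m ^ (2 * j) * ee k ^ (2 * i)) := by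
    intro m k h
    have h1 : 0 ≤ w m - w k := sub_nonneg.2 (hw h)
    obtain ⟨d, rfl⟩ : ∃ d, i = j + d := ⟨i - j, by omega⟩
    have h2 : ee m ^ (2 * (j + d)) * ee k ^ (2 * j) - ee m ^ (2 * j) * ee k ^ (2 * (j + d)) =
        ee m ^ (2 * j) * ee k ^ (2 * j) * (ee m ^ (2 * d) - ee k ^ (2 * d)) := by
      rw [mul_add, pow_add, pow_add]; ring
    rw [h2]
    have h3 : 0 ≤ ee m ^ (2 * d) - ee k ^ (2 * d) :=
      sub_nonneg.2 (pow_le_pow_left₀ (ee_pos _).le (ee_anti h) _)
    have h4 := (ee_pos m).le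
    have h5 := (ee_pos k).le
    positivity
  rcases le_total m k with h | h
  · exact key m k h
  · have := key k m h
    have h6 : (w m - w k) * (ee m ^ (2 * i) * ee k ^ (2 * j) - ee m ^ (2 * j) * ee k ^ (2 * i)) =
        (w k - w m) * (ee k ^ (2 * i) * ee m ^ (2 * j) - ee k ^ (2 * j) * ee m ^ (2 * i)) := by
      ring
    rw [h6]; exact this

theorem cheb (n i j : ℕ) (hj : j < i) (hn : 2 ≤ n) (w : ℕ → ℝ) (hw : Antitone w) :
    (w 0 - w 1) * (ee 1 ^ (2 * j) - ee 1 ^ (2 * i)) ≤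
      2 * ((∑ m ∈ range n, ee m ^ (2 * i) * w m) * (∑ m ∈ range n, ee m ^ (2 * j)) -
        (∑ m ∈ range n, ee m ^ (2 * j) * w m) * (∑ m ∈ range n, ee m ^ (2 * i))) := by
  have h1 : 2 * ((∑ m ∈ range n, ee m ^ (2 * i) * w m) * (∑ m ∈ range n, ee m ^ (2 * j)) -
        (∑ m ∈ range n, ee m ^ (2 * j) * w m) * (∑ m ∈ range n, ee m ^ (2 * i))) =
      ∑ m ∈ range n, ∑ k ∈ range n,
        (w m - w k) * (ee m ^ (2 * i) * ee k ^ (2 * j) - ee m ^ (2 * j) * ee k ^ (2 * i)) := by
    have e : ∀ m ∈ range n, ∀ k ∈ range n,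
        (w m - w k) * (ee m ^ (2 * i) * ee k ^ (2 * j) - ee m ^ (2 * j) * ee k ^ (2 * i)) =
        ((ee m ^ (2 * i) * w m) * ee k ^ (2 * j) - (ee m ^ (2 * j) * w m) * ee k ^ (2 * i)) -
        (ee m ^ (2 * i) * (ee k ^ (2 * j) * w k) - ee m ^ (2 * j) * (ee k ^ (2 * i) * w k)) := by
      intro m _ k _; ring
    rw [Finset.sum_congr rfl (fun m hm => Finset.sum_congr rfl (e m hm))]
    simp only [Finset.sum_sub_distrib, ← Finset.sum_mul_sum]
    ring
  rw [h1]
  have h0 : (0 : ℕ) ∈ range n := Finset.mem_range.2 (by omega)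
  have h0' : (1 : ℕ) ∈ range n := Finset.mem_range.2 (by omega)
  have h2 : ∑ k ∈ range n,
        (w 0 - w k) * (ee 0 ^ (2 * i) * ee k ^ (2 * j) - ee 0 ^ (2 * j) * ee k ^ (2 * i)) ≤
      ∑ m ∈ range n, ∑ k ∈ range n,
        (w m - w k) * (ee m ^ (2 * i) * ee k ^ (2 * j) - ee m ^ (2 * j) * ee k ^ (2 * i)) :=
    Finset.single_le_sum (f := fun m => ∑ k ∈ range n,
        (w m - w k) * (ee m ^ (2 * i) * ee k ^ (2 * j) - ee m ^ (2 * j) * ee k ^ (2 * i)))
      (fun m _ => Finset.sum_nonneg (fun k _ => term_nonneg i j m k hj w hw)) h0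
  have h3 : (w 0 - w 1) * (ee 0 ^ (2 * i) * ee 1 ^ (2 * j) - ee 0 ^ (2 * j) * ee 1 ^ (2 * i)) ≤
      ∑ k ∈ range n,
        (w 0 - w k) * (ee 0 ^ (2 * i) * ee k ^ (2 * j) - ee 0 ^ (2 * j) * ee k ^ (2 * i)) :=
    Finset.single_le_sum (f := fun k =>
        (w 0 - w k) * (ee 0 ^ (2 * i) * ee k ^ (2 * j) - ee 0 ^ (2 * j) * ee k ^ (2 * i)))
      (fun k _ => term_nonneg i j 0 k hj w hw) h0'
  rw [ee_zero, one_pow, one_pow, one_mul, one_mul] at h3
  rw [ee_zero] at h2
  simp only [one_pow, one_mul] at h2 h3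
  linarith

theorem adds_one (b : ℕ) (u : List ℕ) : (∀ a ∈ u, 1 ≤ a) → ∀ v ∈ adds b u, ∀ a ∈ v, 1 ≤ a := by
  induction u with
  | nil => intro _ v hv; simp [adds] at hv
  | cons c t ih =>
    intro h v hv a ha
    rw [adds, List.mem_cons, List.mem_map] at hv
    rcases hv with rfl | ⟨v', hv', rfl⟩
    · rcases List.mem_cons.1 ha with rfl | ha
      · have := h c (by simp); omega
      · exact h a (by simp [ha])
    · rcases List.mem_cons.1 ha with rfl | ha
      · exact h a (by simp)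
      · exact ih (fun d hd => h d (by simp [hd])) v' hv' a ha

theorem adds_adm (b : ℕ) (u : List ℕ) (hu : Adm u) : ∀ v ∈ adds b u, Adm v := by
  intro v hv
  refine ⟨adds_one b u hu.1 v hv, ?_⟩
  rintro a t rfl
  cases u with
  | nil => simp [adds] at hv
  | cons c s =>
    have h2 := hu.2 c s rfl
    rw [adds, List.mem_cons, List.mem_map] at hv
    rcases hv with h | ⟨v', _, h⟩
    · have := (List.cons.inj h).1; omega
    · have := (List.cons.inj h).1; omega

theorem tend_sf (L : List (List ℕ)) (h : ∀ v ∈ L, Adm v) :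
    Tendsto (fun n => SymAux.sf (fun v => H v n) L) atTop (nhds (SymAux.sf zl L)) := by
  induction L with
  | nil => simp only [SymAux.sf_nil]; exact tendsto_const_nhds
  | cons v L ih =>
    simp only [SymAux.sf_cons]
    exact (Pool.Agent.Helper21.tendsto_zl v (h v (by simp))).add
      (ih (fun u hu => h u (by simp [hu])))

theorem H_single (a n : ℕ) : H [a] n = ∑ m ∈ range n, ee m ^ a := by
  rw [H_c]
  apply Finset.sum_congr rfl
  intro m _
  rw [Pool.Agent.Helper21.H_nil, mul_one]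

theorem adm_single (a : ℕ) (h : 2 ≤ a) : Adm [a] := by
  refine ⟨?_, ?_⟩
  · intro b hb
    have : b = a := by simpa using hb
    omega
  · intro b t hb
    have := (List.cons.inj hb).1
    omega

end MonAux

open MonAux in
theorem thm_Mon : St_Mon := by
  intro u hu hadm i j hj0 hji
  obtain ⟨δ, hδ, N, hN⟩ := W_gap u hu hadm.1
  have hlim : ∀ c : ℕ, Tendsto (fun n => ∑ m ∈ range n, ee m ^ (2 * c) * W u n m) atTop
      (nhds ((adds (2 * c) u).map zl).sum) := by
    intro c
    have h := tend_sf (adds (2 * c) u) (adds_adm (2 * c) u hadm)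
    simp only [sum_adds] at h
    exact h
  have hz : ∀ c : ℕ, 0 < c → Tendsto (fun n => ∑ m ∈ range n, ee m ^ (2 * c)) atTop
      (nhds (zl [2 * c])) := by
    intro c hc
    have h := Pool.Agent.Helper21.tendsto_zl [2 * c] (adm_single (2 * c) (by omega))
    have h2 : H [2 * c] = fun n => ∑ m ∈ range n, ee m ^ (2 * c) := by
      funext n; exact H_single _ _
    rw [h2] at h
    exact h
  have hT := (((hlim i).mul (hz j hj0)).sub ((hlim j).mul (hz i (by omega)))).const_mul 2
  have hpos : 0 < ee 1 ^ (2 * j) - ee 1 ^ (2 * i) := by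
    have : ee 1 ^ (2 * i) < ee 1 ^ (2 * j) :=
      pow_lt_pow_right_of_lt_one₀ (ee_pos 1) ee_one_lt (by omega)
    linarith
  have hge : δ * (ee 1 ^ (2 * j) - ee 1 ^ (2 * i)) ≤
      2 * (((adds (2 * i) u).map zl).sum * zl [2 * j] -
        ((adds (2 * j) u).map zl).sum * zl [2 * i]) := by
    apply ge_of_tendsto hT
    filter_upwards [eventually_ge_atTop (max N 2)] with n hn
    have h1 := cheb n i j hji (le_trans (le_max_right _ _) hn) (W u n) (W_antitone u n)
    have h2 := hN n (le_trans (le_max_left _ _) hn)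
    have h3 : δ * (ee 1 ^ (2 * j) - ee 1 ^ (2 * i)) ≤
        (W u n 0 - W u n 1) * (ee 1 ^ (2 * j) - ee 1 ^ (2 * i)) :=
      mul_le_mul_of_nonneg_right h2 hpos.le
    exact h3.trans h1
  have : 0 < δ * (ee 1 ^ (2 * j) - ee 1 ^ (2 * i)) := mul_pos hδ hpos
  linarith

end Pool.Agent.MZA
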