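import Mathlib
import Pool.Agent.MZA.St2

set_option autoImplicit false

namespace Pool.Agent.MZA

open Finset Filter
open Pool.Agent.Helper21 (mzv H zl Adm)

namespace QshAux

theorem qs_nil (v : List ℕ) : qs [] v = [v] := by rw [qs]

theorem qs_cons_nil (a : ℕ) (u : List ℕ) : qs (a :: u) [] = [a :: u] := by rw [qs]

theorem qs_cons_cons (a b : ℕ) (u v : List ℕ) : qs (a :: u) (b :: v) =
    (qs u (b :: v)).map (fun t => a :: t) ++
      ((qs (a :: u) v).map (fun t => b :: t) ++ (qs u v).map (fun t => (a + b) :: t)) := by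
  rw [qs]

/-- Induction along `qs`. -/
theorem two_ind {P : List ℕ → List ℕ → Prop} (h1 : ∀ v, P [] v) (h2 : ∀ a u, P (a :: u) [])
    (h3 : ∀ a u b v, P u (b :: v) → P (a :: u) v → P u v → P (a :: u) (b :: v)) :
    ∀ u v, P u v := by
  intro u
  induction u with
  | nil => exact h1
  | cons a u ihu =>
    intro v
    induction v with
    | nil => exact h2 a u
    | cons b v ihv => exact h3 a u b v (ihu _) ihv (ihu _)

theorem sum_cons_H (c : ℕ) (n : ℕ) (ws : List (List ℕ)) :
    ((ws.map (fun w => c :: w)).map (fun w => H w n)).sum =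
      ∑ m ∈ range n, (1 / ((m + 1 : ℕ) : ℝ)) ^ c * (ws.map (fun w => H w m)).sum := by
  induction ws with
  | nil => simp
  | cons w ws ih2 =>
    rw [List.map_cons, List.map_cons, List.sum_cons, ih2]
    simp only [List.map_cons, List.sum_cons]
    rw [Pool.Agent.Helper21.H_cons, ← Finset.sum_add_distrib]
    apply Finset.sum_congr rfl
    intro m _
    ring

theorem H_succ' (a : ℕ) (w : List ℕ) (n : ℕ) :
    H (a :: w) (n + 1) = H (a :: w) n + (1 / ((n + 1 : ℕ) : ℝ)) ^ a * H w n := by
  rw [Pool.Agent.Helper21.H_cons, Pool.Agent.Helper21.H_cons, Finset.sum_range_succ]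

theorem H_qs : ∀ u v : List ℕ, ∀ n, H u n * H v n = ((qs u v).map (fun w => H w n)).sum := by
  apply two_ind
  · intro v n; rw [qs_nil]; simp [Pool.Agent.Helper21.H_nil]
  · intro a u n; rw [qs_cons_nil]; simp [Pool.Agent.Helper21.H_nil]
  · intro a u b v h1 h2 h3 n
    rw [qs_cons_cons, List.map_append, List.map_append, List.sum_append, List.sum_append,
      sum_cons_H, sum_cons_H, sum_cons_H]
    simp only [← h1, ← h2, ← h3]
    clear h1 h2 h3
    induction n with
    | zero => simp [Pool.Agent.Helper21.H_cons]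
    | succ n ihn =>
      rw [Finset.sum_range_succ, Finset.sum_range_succ, Finset.sum_range_succ, H_succ', H_succ',
        pow_add]
      linear_combination ihn

theorem nil_mem_rem (w : List ℕ) : [] ∈ rem w w := by
  induction w with
  | nil => simp [rem]
  | cons a u ih =>
    rw [rem, List.mem_append]
    exact Or.inl ih

theorem mem_qs : ∀ w x : List ℕ, ∀ v ∈ qs w x, x ∈ rem w v ∧ v.sum = w.sum + x.sum ∧
    ((∀ a ∈ w, 1 ≤ a) → (∀ a ∈ x, 1 ≤ a) → ∀ a ∈ v, 1 ≤ a) ∧
    ((∀ a t, w = a :: t → 2 ≤ a) → (∀ a t, x = a :: t → 2 ≤ a) → (∀ a t, v = a :: t → 2 ≤ a)) := by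
  apply two_ind
  · intro x v hv
    rw [qs_nil, List.mem_singleton] at hv
    subst hv
    exact ⟨by simp [rem], by simp, fun _ h => h, fun _ h => h⟩
  · intro a u v hv
    rw [qs_cons_nil, List.mem_singleton] at hv
    subst hv
    exact ⟨nil_mem_rem _, by simp, fun h _ => h, fun h _ => h⟩
  · intro a u b x h1 h2 h3 v hv
    rw [qs_cons_cons, List.mem_append, List.mem_append, List.mem_map, List.mem_map,
      List.mem_map] at hv
    rcases hv with ⟨t, ht, rfl⟩ | ⟨t, ht, rfl⟩ | ⟨t, ht, rfl⟩
    · obtain ⟨p1, p2, p3, _⟩ := h1 t ht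
      refine ⟨?_, ?_, ?_, ?_⟩
      · rw [rem, List.mem_append]; exact Or.inl p1
      · simp only [List.sum_cons] at p2 ⊢; omega
      · intro q1 q2 c hc
        rcases List.mem_cons.1 hc with rfl | hc
        · exact q1 _ (by simp)
        · exact p3 (fun d hd => q1 d (by simp [hd])) q2 c hc
      · intro q1 _ c s hc
        have := (List.cons.inj hc).1
        have := q1 a u rfl
        omega
    · obtain ⟨p1, p2, p3, _⟩ := h2 t ht
      refine ⟨?_, ?_, ?_, ?_⟩
      · rw [rem, List.mem_append, List.mem_append]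
        exact Or.inr (Or.inl (List.mem_map.2 ⟨x, p1, rfl⟩))
      · simp only [List.sum_cons] at p2 ⊢; omega
      · intro q1 q2 c hc
        rcases List.mem_cons.1 hc with rfl | hc
        · exact q2 _ (by simp)
        · exact p3 q1 (fun d hd => q2 d (by simp [hd])) c hc
      · intro _ q2 c s hc
        have := (List.cons.inj hc).1
        have := q2 b x rfl
        omega
    · obtain ⟨p1, p2, p3, _⟩ := h3 t ht
      refine ⟨?_, ?_, ?_, ?_⟩
      · rw [rem, List.mem_append, List.mem_append]
        refine Or.inr (Or.inr (List.mem_map.2 ⟨x, p1, ?_⟩))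
        rw [Nat.add_sub_cancel_left]
      · simp only [List.sum_cons] at p2 ⊢; omega
      · intro q1 q2 c hc
        rcases List.mem_cons.1 hc with rfl | hc
        · have := q1 a (by simp); omega
        · exact p3 (fun d hd => q1 d (by simp [hd])) (fun d hd => q2 d (by simp [hd])) c hc
      · intro q1 _ c s hc
        have := (List.cons.inj hc).1
        have := q1 a u rfl
        omega

theorem rem_length : ∀ w v : List ℕ, (rem w v).length ≤ (2 * v.length) ^ w.length := by
  intro w
  induction w with
  | nil => intro v; simp [rem]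
  | cons a u ihu =>
    intro v
    induction v with
    | nil => simp [rem]
    | cons c v ihv =>
      rw [rem]
      simp only [List.length_append, List.length_map, List.length_cons] at ihv ⊢
      have h1 := ihu v
      have h2 : (2 * v.length) ^ u.length ≤ (2 * (v.length + 1)) ^ u.length :=
        Nat.pow_le_pow_left (by omega) _
      have h3 : (2 * v.length) ^ (u.length + 1) = (2 * v.length) ^ u.length * (2 * v.length) :=
        pow_succ _ _
      have h4 : (2 * (v.length + 1)) ^ (u.length + 1) =
          (2 * (v.length + 1)) ^ u.length * (2 * (v.length + 1)) := pow_succ _ _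
      rw [h4]
      rw [h3] at ihv
      nlinarith

theorem tend_list (ws : List (List ℕ)) (h : ∀ w ∈ ws, Adm w) :
    Tendsto (fun n => (ws.map (fun w => H w n)).sum) atTop (nhds ((ws.map zl).sum)) := by
  induction ws with
  | nil => simp
  | cons w ws ih =>
    simp only [List.map_cons, List.sum_cons]
    apply Tendsto.add
    · exact Pool.Agent.Helper21.tendsto_zl w (h w List.mem_cons_self)
    · exact ih (fun w' hw' => h w' (List.mem_cons_of_mem _ hw'))

end QshAux

open QshAux in
theorem thm_Qsh : St_Qsh := by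
  refine ⟨?_, rem_length⟩
  intro w x hw hx
  have hadm : ∀ v ∈ qs w x, Adm v := fun v hv =>
    ⟨(mem_qs w x v hv).2.2.1 hw.1 hx.1, (mem_qs w x v hv).2.2.2 hw.2 hx.2⟩
  refine ⟨?_, fun v hv => ⟨hadm v hv, (mem_qs w x v hv).2.1, (mem_qs w x v hv).1⟩⟩
  have t1 : Tendsto (fun n => H w n * H x n) atTop (nhds (zl w * zl x)) :=
    (Pool.Agent.Helper21.tendsto_zl w hw).mul (Pool.Agent.Helper21.tendsto_zl x hx)
  have t2 := tend_list (qs w x) hadm
  have t3 : (fun n => H w n * H x n) = fun n => ((qs w x).map (fun v => H v n)).sum :=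
    funext (H_qs w x)
  rw [t3] at t1
  exact tendsto_nhds_unique t1 t2

end Pool.Agent.MZA
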