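import Mathlib
import Pool.Agent.MZA.St3
import Pool.Agent.MZA.Main

set_option autoImplicit false

namespace Pool.Agent.MZA

open Finset Filter
open Pool.Agent.Helper21 (mzv mzvSpace algSpace H zl Adm)

theorem thm_Rdi (h : St_Rob) : St_Rdi := by
  by_cases hal : ∀ n : ℕ, ∀ z ∈ mzvSpace n, IsAlgebraic ℚ (z / Real.pi ^ n)
  · left
    intro N w hw
    have hadm : Adm w := ⟨hw.1, hw.2.1⟩
    rw [main_mzv w hadm]
    have h1 := Pool.Agent.Helper21.zl_mem w hadm
    rw [hw.2.2] at h1
    exact hal N _ h1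
  · right
    push Not at hal
    obtain ⟨n, z, hz, ht⟩ := hal
    obtain ⟨n', hn', -, x, hx, y, hy, hxy⟩ :=
      Pool.Agent.Helper21.exists_ratio (N := n) (n := n) le_rfl hz ht
    intro k
    have h2 := Pool.Agent.Helper21.growthAlg hx hy hxy k (k * n') le_rfl (by omega)
    exact h k (k * n') (by omega)

end Pool.Agent.MZA
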