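import Mathlib
import Pool.Agent.MZA.St4

set_option autoImplicit false

/-!
# MZA Rem: the binomial bound for the length of `rem w v`
-/

namespace Pool.Agent.MZA

theorem thm_Rem : St_Rem := by
  intro w v
  induction v generalizing w with
  | nil =>
    cases w with
    | nil => simp [rem]
    | cons a u => simp [rem]
  | cons c v ih =>
    cases w with
    | nil => simp [rem]
    | cons a u =>
      have h1 := ih u
      have h2 := ih (a :: u)
      simp only [List.length_cons] at h2
      simp only [rem, List.length_append, List.length_map, List.length_cons]
      rw [Nat.choose_succ_succ]
      have h3 : 2 ^ (u.length + 1) = 2 * 2 ^ u.length := by ring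
      rw [h3] at h2 ⊢
      have h4 : 2 * 2 ^ u.length * (v.length.choose u.length + v.length.choose (u.length + 1)) =
          2 * (2 ^ u.length * v.length.choose u.length) +
            2 * 2 ^ u.length * v.length.choose (u.length + 1) := by ring
      have h5 : u.length.succ = u.length + 1 := rfl
      rw [h5, h4]
      omega

end Pool.Agent.MZA
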