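import Mathlib
import Pool.Agent.MZA.St3
import Pool.Agent.MZA.Exp
import Pool.Agent.MZA.Rem

set_option autoImplicit false

/-!
# MZA Rob: multiple zeta values outside a subspace of bounded dimension
-/

namespace Pool.Agent.MZA

open Finset Filter
open Pool.Agent.Helper21 (mzv mzvSpace algSpace H zl Adm)

theorem rob_sum (m N : ℕ) (hN : 1 ≤ N) :
    ∑ p ∈ range (m + 1), N.choose p ≤ (m + 1) * N ^ m := by
  calc ∑ p ∈ range (m + 1), N.choose p ≤ ∑ _p ∈ range (m + 1), N ^ m := by
        apply Finset.sum_le_sum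
        intro p hp
        rw [Finset.mem_range] at hp
        exact (Nat.choose_le_pow N p).trans (Nat.pow_le_pow_right hN (by omega))
    _ = (m + 1) * N ^ m := by rw [Finset.sum_const, Finset.card_range, smul_eq_mul]

theorem thm_Rob (h1 : St_Qsh) (h2 : St_Cnt) : St_Rob := by
  intro k m hk
  set K : ℕ := 2 ^ (2 * m + 2) * (k + 1) * (m + 1) with hK
  refine ⟨K + m + 2, ?_⟩
  intro N hN V hVf hV
  have h3 := thm_Exp h1 h2 thm_Rem k m N hk (by omega) V hVf hV
  have hN1 : 1 ≤ N := by omega
  have h4 : 2 ^ N ≤ (out N V).ncard * N ^ (K + m + 2) := by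
    have e1 : 2 ^ N = 2 ^ (m + 2) * 2 ^ (N - m - 2) := by
      rw [← pow_add]
      congr 1
      omega
    have e2 : 2 ^ (N - m - 2) ≤ (k + 1) * (2 ^ m * ((m + 1) * N ^ m)) * (out N V).ncard := by
      refine h3.trans ?_
      apply Nat.mul_le_mul_right
      apply Nat.mul_le_mul_left
      exact Nat.mul_le_mul_left _ (rob_sum m N hN1)
    calc 2 ^ N = 2 ^ (m + 2) * 2 ^ (N - m - 2) := e1
      _ ≤ 2 ^ (m + 2) * ((k + 1) * (2 ^ m * ((m + 1) * N ^ m)) * (out N V).ncard) :=
          Nat.mul_le_mul_left _ e2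
      _ = (out N V).ncard * (K * N ^ m) := by
          rw [hK]
          ring
      _ ≤ (out N V).ncard * (N * N ^ m) := by
          apply Nat.mul_le_mul_left
          apply Nat.mul_le_mul_right
          omega
      _ = (out N V).ncard * N ^ (m + 1) := by ring
      _ ≤ (out N V).ncard * N ^ (K + m + 2) := by
          apply Nat.mul_le_mul_left
          exact Nat.pow_le_pow_right hN1 (by omega)
  have hNp : (0 : ℝ) < (N : ℝ) ^ (K + m + 2) := by
    have : (0 : ℝ) < N := by exact_mod_cast hN1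
    positivity
  rw [div_le_iff₀ hNp]
  exact_mod_cast h4

end Pool.Agent.MZA
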