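import Pool.Agent.MZA.St

set_option autoImplicit false

namespace Pool.Agent.MZA

open Finset Filter
open Pool.Agent.Helper21 (mzv H zl Adm H_cons H_nil tendsto_zl)

theorem H_zero (a : ℕ) (w : List ℕ) : H (a :: w) 0 = 0 := by
  rw [H_cons, Finset.range_zero, Finset.sum_empty]

theorem H_succ (a : ℕ) (w : List ℕ) (n : ℕ) :
    H (a :: w) (n + 1) = H (a :: w) n + (1 / ((n + 1 : ℕ) : ℝ)) ^ a * H w n := by
  rw [H_cons, H_cons, Finset.sum_range_succ]

theorem sum_map_cons_H (a : ℕ) (L : List (List ℕ)) (n : ℕ) :
    ((L.map (fun v => a :: v)).map (fun v => H v (n + 1))).sum =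
      ((L.map (fun v => a :: v)).map (fun v => H v n)).sum +
        (1 / ((n + 1 : ℕ) : ℝ)) ^ a * (L.map (fun v => H v n)).sum := by
  induction L with
  | nil => simp
  | cons v L ih =>
    simp only [List.map_cons, List.sum_cons] at ih ⊢
    rw [ih, H_succ]
    ring

theorem sum_map_cons_H_zero (a : ℕ) (L : List (List ℕ)) :
    ((L.map (fun v => a :: v)).map (fun v => H v 0)).sum = 0 := by
  induction L with
  | nil => simp
  | cons v L ih =>
    simp only [List.map_cons, List.sum_cons] at ih ⊢
    rw [ih, H_zero, add_zero]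

theorem H_st (b : ℕ) (w : List ℕ) : ∀ n, H [b] n * H w n = ((st b w).map (fun v => H v n)).sum := by
  induction w with
  | nil =>
    intro n
    simp [st, H_nil]
  | cons a t ih =>
    intro n
    induction n with
    | zero =>
      simp only [st, List.map_cons, List.sum_cons]
      rw [sum_map_cons_H_zero, H_zero, H_zero, H_zero, H_zero]
      simp
    | succ n ihn =>
      simp only [st, List.map_cons, List.sum_cons] at ihn ⊢
      rw [sum_map_cons_H, H_succ, H_succ a t, H_succ b (a :: t), H_succ (a + b) t, H_nil]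
      have h1 := ih n
      rw [← h1]
      have e : (1 / ((n + 1 : ℕ) : ℝ)) ^ (a + b) =
          (1 / ((n + 1 : ℕ) : ℝ)) ^ a * (1 / ((n + 1 : ℕ) : ℝ)) ^ b := pow_add _ _ _
      rw [e]
      linear_combination ihn

theorem st_pos (b : ℕ) (hb : 2 ≤ b) (w : List ℕ) (hw : ∀ a ∈ w, 1 ≤ a) :
    ∀ v ∈ st b w, (∀ a ∈ v, 1 ≤ a) ∧ v.sum = w.sum + b ∧
      (v.length = w.length ∨ v.length = w.length + 1) ∧
      ∃ i < v.length, b ≤ v.getD i 0 ∧ del b v i = w := by
  induction w with
  | nil =>
    intro v hv
    rw [st, List.mem_singleton] at hv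
    subst hv
    refine ⟨by simp; omega, by simp, Or.inr (by simp), 0, by simp, by simp, ?_⟩
    simp [del]
  | cons a t ih =>
    intro v hv
    rw [st, List.mem_cons, List.mem_cons, List.mem_map] at hv
    have ha : 1 ≤ a := hw a List.mem_cons_self
    have ht : ∀ c ∈ t, 1 ≤ c := fun c hc => hw c (List.mem_cons_of_mem _ hc)
    rcases hv with rfl | rfl | ⟨v', hv', rfl⟩
    · refine ⟨?_, ?_, Or.inr (by simp), 0, by simp, by simp, ?_⟩
      · intro c hc
        rcases List.mem_cons.mp hc with rfl | hc
        · omega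
        · exact hw c hc
      · simp only [List.sum_cons]
        omega
      · simp [del]
    · refine ⟨?_, ?_, Or.inl (by simp), 0, by simp, by simp, ?_⟩
      · intro c hc
        rcases List.mem_cons.mp hc with rfl | hc
        · omega
        · exact ht c hc
      · simp only [List.sum_cons]
        omega
      · have h0 : a ≠ 0 := by omega
        simp [del, h0]
    · obtain ⟨h1, h2, h3, i, hi, h4, h5⟩ := ih ht v' hv'
      refine ⟨?_, ?_, ?_, i + 1, by simpa using hi, by simpa using h4, ?_⟩
      · intro c hc
        rcases List.mem_cons.mp hc with rfl | hc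
        · exact ha
        · exact h1 c hc
      · simp only [List.sum_cons, h2]
        omega
      · simp only [List.length_cons]
        omega
      · unfold del at h5 ⊢
        rw [List.getD_cons_succ]
        split_ifs at h5 ⊢ with h6
        · rw [List.eraseIdx_cons_succ, h5]
        · rw [List.set_cons_succ, h5]

theorem st_head (b : ℕ) (hb : 2 ≤ b) (w : List ℕ) (hw : ∀ a t, w = a :: t → 2 ≤ a) :
    ∀ v ∈ st b w, ∀ a t, v = a :: t → 2 ≤ a := by
  cases w with
  | nil =>
    intro v hv a t h
    rw [st, List.mem_singleton] at hv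
    rw [hv] at h
    obtain ⟨rfl, -⟩ := List.cons.inj h
    exact hb
  | cons c s =>
    have hc := hw c s rfl
    intro v hv a t h
    rw [st, List.mem_cons, List.mem_cons, List.mem_map] at hv
    rcases hv with rfl | rfl | ⟨v', -, rfl⟩
    · obtain ⟨rfl, -⟩ := List.cons.inj h
      exact hb
    · obtain ⟨rfl, -⟩ := List.cons.inj h
      omega
    · obtain ⟨rfl, -⟩ := List.cons.inj h
      exact hc

theorem thm_Stf : St_Stf := by
  intro b w hb hw
  have hb' : Adm [b] := by
    refine ⟨?_, ?_⟩
    · intro a ha
      rw [List.mem_singleton] at ha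
      omega
    · intro a t h
      obtain ⟨rfl, -⟩ := List.cons.inj h
      exact hb
  have hst : ∀ v ∈ st b w, Adm v := fun v hv =>
    ⟨(st_pos b hb w hw.1 v hv).1, st_head b hb w hw.2 v hv⟩
  refine ⟨?_, fun v hv => ⟨hst v hv, (st_pos b hb w hw.1 v hv).2⟩⟩
  have t1 : Tendsto (fun n => H [b] n * H w n) atTop (nhds (zl [b] * zl w)) :=
    (tendsto_zl [b] hb').mul (tendsto_zl w hw)
  have t2 : Tendsto (fun n => ((st b w).map (fun v => H v n)).sum) atTop
      (nhds ((st b w).map zl).sum) := by
    revert hst
    generalize st b w = L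
    intro hL
    induction L with
    | nil => simp
    | cons v L ih =>
      simp only [List.map_cons, List.sum_cons]
      exact (tendsto_zl v (hL v List.mem_cons_self)).add
        (ih fun u hu => hL u (List.mem_cons_of_mem _ hu))
  have e : (fun n => H [b] n * H w n) = fun n => ((st b w).map (fun v => H v n)).sum :=
    funext (H_st b w)
  rw [e] at t1
  exact tendsto_nhds_unique t1 t2

end Pool.Agent.MZA
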