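import Mathlib
import Pool.Agent.MZA.St4
import Pool.Agent.MZA.Cnt
import Pool.Agent.MZA.Main

set_option autoImplicit false

/-!
# MZA Tup: linear independence of most tuples of multiple zeta values of different weights
-/

namespace Pool.Agent.MZA

open Finset Filter
open Pool.Agent.Helper21 (mzv mzvSpace algSpace H zl Adm)

/-- The multiple zeta value of the list `w`. -/
noncomputable def mz (w : List ℕ) : ℝ := mzv (fun i : Fin w.length => w.get i)

/-- The tuples of indices `w i` of weight `n i` such that `1` and the `ζ(w i)` are linearly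
independent over the real algebraic numbers. -/
def ind {k : ℕ} (n : Fin k → ℕ) : Set (Fin k → List ℕ) :=
  {w | (∀ i, w i ∈ Idx (n i)) ∧ LinearIndependent (algebraicClosure ℚ ℝ)
    (Fin.cons 1 (fun i => mz (w i)) : Fin (k + 1) → ℝ)}

theorem tup_fin {k : ℕ} (n : Fin k → ℕ) (hn : ∀ i, 2 ≤ n i) :
    {w : Fin k → List ℕ | ∀ i, w i ∈ Idx (n i)}.Finite := by
  have h1 : {w : Fin k → List ℕ | ∀ i, w i ∈ Idx (n i)} = Set.pi Set.univ (fun i => Idx (n i)) := by
    ext w
    simp [Set.mem_pi]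
  rw [h1]
  exact Set.Finite.pi fun i => (thm_Cnt (n i) (hn i)).1

theorem tup_card {k : ℕ} (n : Fin k → ℕ) (hn : ∀ i, 2 ≤ n i) :
    {w : Fin k → List ℕ | ∀ i, w i ∈ Idx (n i)}.ncard = ∏ i, 2 ^ (n i - 2) := by
  classical
  set F : Fin k → Finset (List ℕ) := fun i => (thm_Cnt (n i) (hn i)).1.toFinset with hF
  have h1 : {w : Fin k → List ℕ | ∀ i, w i ∈ Idx (n i)} = (Fintype.piFinset F : Set _) := by
    ext w
    simp [hF]
  rw [h1, Set.ncard_coe_finset, Fintype.card_piFinset]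
  apply Finset.prod_congr rfl
  intro i _
  rw [hF, ← (thm_Cnt (n i) (hn i)).2, Set.ncard_eq_toFinset_card _ (thm_Cnt (n i) (hn i)).1]

theorem tup_step {k : ℕ} (n : Fin (k + 1) → ℕ) (hn : ∀ i, 2 ≤ n i) (c : ℝ)
    (h : ∀ w ∈ ind (Fin.init n), c ≤ ((out (n (Fin.last k)) (Submodule.span (algebraicClosure ℚ ℝ)
      (Set.range (Fin.cons 1 (fun i => mz (w i)) : Fin (k + 1) → ℝ)))).ncard : ℝ)) :
    ((ind (Fin.init n)).ncard : ℝ) * c ≤ ((ind n).ncard : ℝ) := by
  classical
  have hf1 : (ind (Fin.init n)).Finite :=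
    (tup_fin (Fin.init n) (fun i => hn i.castSucc)).subset fun w hw => hw.1
  have hf2 : (ind n).Finite := (tup_fin n hn).subset fun w hw => hw.1
  have hfo : ∀ V : Submodule (algebraicClosure ℚ ℝ) ℝ, (out (n (Fin.last k)) V).Finite :=
    fun V => (thm_Cnt _ (hn (Fin.last k))).1.subset fun w hw => hw.1
  set S : Finset (Fin k → List ℕ) := hf1.toFinset with hS
  set T : Finset (Fin (k + 1) → List ℕ) := hf2.toFinset with hT
  set O : (Fin k → List ℕ) → Finset (List ℕ) := fun w =>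
    (hfo (Submodule.span (algebraicClosure ℚ ℝ)
      (Set.range (Fin.cons 1 (fun i => mz (w i)) : Fin (k + 1) → ℝ)))).toFinset with hO
  have hc1 : ((ind (Fin.init n)).ncard : ℝ) = S.card := by
    rw [Set.ncard_eq_toFinset_card _ hf1]
  have hc2 : ((ind n).ncard : ℝ) = T.card := by
    rw [Set.ncard_eq_toFinset_card _ hf2]
  have hc3 : ∀ w ∈ S, c ≤ ((O w).card : ℝ) := by
    intro w hw
    have h1 := h w (by rw [hS, Set.Finite.mem_toFinset] at hw; exact hw)
    rw [Set.ncard_eq_toFinset_card _ (hfo _)] at h1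
    exact h1
  have h2 : (S.sigma O).card ≤ T.card := by
    apply Finset.card_le_card_of_injOn (fun q => (Fin.snoc q.1 q.2 : Fin (k + 1) → List ℕ))
    · intro q hq
      rw [Finset.mem_coe, Finset.mem_sigma] at hq
      obtain ⟨hq1, hq2⟩ := hq
      rw [hS, Set.Finite.mem_toFinset] at hq1
      rw [hO, Set.Finite.mem_toFinset] at hq2
      rw [Finset.mem_coe, hT, Set.Finite.mem_toFinset]
      refine ⟨?_, ?_⟩
      · intro i
        refine Fin.lastCases ?_ (fun j => ?_) i
        · simp only [Fin.snoc_last]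
          exact hq2.1
        · simp only [Fin.snoc_castSucc]
          exact hq1.1 j
      · have e1 : (fun i => mz ((Fin.snoc q.1 q.2 : Fin (k + 1) → List ℕ) i)) =
            (Fin.snoc (fun i => mz (q.1 i)) (mz q.2) : Fin (k + 1) → ℝ) := by
          funext i
          refine Fin.lastCases ?_ (fun j => ?_) i
          · simp only [Fin.snoc_last]
          · simp only [Fin.snoc_castSucc]
        rw [e1, Fin.cons_snoc_eq_snoc_cons, linearIndependent_finSnoc]
        exact ⟨hq1.2, hq2.2⟩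
    · intro q _ r _ hqr
      have e1 : q.1 = r.1 := by
        have := congrArg Fin.init hqr
        simpa only [Fin.init_snoc] using this
      have e2 : q.2 = r.2 := by
        have := congrFun hqr (Fin.last k)
        simpa only [Fin.snoc_last] using this
      exact Sigma.ext e1 (heq_of_eq e2)
  rw [hc1, hc2]
  calc (S.card : ℝ) * c = ∑ _w ∈ S, c := by rw [Finset.sum_const, nsmul_eq_mul]
    _ ≤ ∑ w ∈ S, ((O w).card : ℝ) := Finset.sum_le_sum hc3
    _ = ((S.sigma O).card : ℝ) := by rw [Finset.card_sigma]; push_cast; rfl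
    _ ≤ T.card := by exact_mod_cast h2

/-- many independent tuples if many multiple zeta values are outside every small subspace -/
theorem tup_prod (K : ℕ) : ∀ (k : ℕ), k ≤ K → ∀ (n : Fin k → ℕ), (∀ i, 2 ≤ n i) →
    ∀ c : Fin k → ℝ, (∀ i, 0 ≤ c i) →
    (∀ i, ∀ V : Submodule (algebraicClosure ℚ ℝ) ℝ, Module.Finite (algebraicClosure ℚ ℝ) V →
      Module.finrank (algebraicClosure ℚ ℝ) V ≤ K → c i ≤ ((out (n i) V).ncard : ℝ)) →
    ∏ i, c i ≤ ((ind n).ncard : ℝ) := by
  intro k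
  induction k with
  | zero =>
    intro _ n _ c _ _
    rw [Finset.univ_eq_empty, Finset.prod_empty]
    have h1 : (ind n) = {fun i => []} := by
      ext w
      simp only [ind, Set.mem_ofPred_eq, Set.mem_singleton_iff]
      refine ⟨fun _ => funext fun i => i.elim0, fun _ => ⟨fun i => i.elim0, ?_⟩⟩
      rw [linearIndependent_finCons]
      refine ⟨linearIndependent_empty_type, ?_⟩
      rw [Set.range_eq_empty, Submodule.span_empty]
      simp
    rw [h1, Set.ncard_singleton]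
    norm_num
  | succ k ih =>
    intro hk n hn c hc h
    rw [Fin.prod_univ_castSucc]
    have h1 := ih (by omega) (Fin.init n) (fun i => hn i.castSucc) (fun i => c i.castSucc)
      (fun i => hc i.castSucc) (fun i => h i.castSucc)
    refine le_trans (mul_le_mul_of_nonneg_right h1 (hc (Fin.last k))) ?_
    apply tup_step n hn
    intro w _
    apply h
    · exact Module.Finite.span_of_finite _ (Set.finite_range _)
    · refine (finrank_range_le_card (R := algebraicClosure ℚ ℝ) _).trans ?_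
      rw [Fintype.card_fin]
      exact hk

/-- TUP1.  `1` and the members of most `k`-tuples of multiple zeta values of different large weights
are linearly independent over the real algebraic numbers. -/
def St_Tup1 : Prop := ∀ k : ℕ, ∃ C : ℕ, ∀ n : Fin k → ℕ, Function.Injective n → (∀ i, C ≤ n i) →
  ∏ i, ((2 : ℝ) ^ n i / (n i : ℝ) ^ C) ≤ (ind n).ncard

/-- TUP2.  The number of the weights may grow linearly. -/
def St_Tup2 : Prop := ∀ δ : ℝ, 0 < δ → ∃ ε : ℝ, 0 < ε ∧ ∃ C : ℕ, ∀ (k : ℕ) (n : Fin k → ℕ),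
  Function.Injective n → (∀ i, C ≤ n i ∧ (k : ℝ) ≤ ε * n i) →
  (2 : ℝ) ^ ((1 - δ) * ∑ i, (n i : ℝ)) ≤ (ind n).ncard

/-- SUB1.  Subspaces of bounded dimension that do not contain `π^N`. -/
def St_Sub1 : Prop := ∀ k : ℕ, ∃ C : ℕ, ∀ N : ℕ, C ≤ N →
  ∀ V : Submodule (algebraicClosure ℚ ℝ) ℝ, Module.Finite (algebraicClosure ℚ ℝ) V →
  Module.finrank (algebraicClosure ℚ ℝ) V ≤ k → Real.pi ^ N ∉ V →
  (2 : ℝ) ^ N / (N : ℝ) ^ C ≤ (out N V).ncard

/-- SUB2.  Subspaces of dimension at most `ε N` that do not contain `π^N`. -/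
def St_Sub2 : Prop := ∀ δ : ℝ, 0 < δ → ∃ ε : ℝ, 0 < ε ∧ ∃ C : ℕ, ∀ N : ℕ, C ≤ N →
  ∀ V : Submodule (algebraicClosure ℚ ℝ) ℝ, Module.Finite (algebraicClosure ℚ ℝ) V →
  (Module.finrank (algebraicClosure ℚ ℝ) V : ℝ) ≤ ε * N → Real.pi ^ N ∉ V →
  (2 : ℝ) ^ ((1 - δ) * N) ≤ (out N V).ncard

/-- powers of `π` -/
theorem tup_pi : LinearIndependent (algebraicClosure ℚ ℝ) (fun i : ℕ => Real.pi ^ i) := by
  rw [linearIndependent_iff']
  intro s g hg i hi
  obtain ⟨D, hD⟩ : ∃ D, s ⊆ Finset.range (D + 1) := by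
    refine ⟨s.sup id, fun j hj => ?_⟩
    rw [Finset.mem_range]
    exact Nat.lt_succ_of_le (Finset.le_sup (f := id) hj)
  set c : ℕ → algebraicClosure ℚ ℝ := fun j => if j ∈ s then g j else 0 with hc
  have h1 : ∑ j ∈ Finset.range (D + 1), algebraMap (algebraicClosure ℚ ℝ) ℝ (c j) * Real.pi ^ j =
      0 := by
    rw [← hg, ← Finset.sum_subset hD]
    · apply Finset.sum_congr rfl
      intro j hj
      rw [hc]
      simp only [if_pos hj]
      rw [Algebra.smul_def]
    · intro j _ hj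
      rw [hc]
      simp only [if_neg hj]
      rw [map_zero, zero_mul]
  have h2 := Pool.Agent.Helper21.pow_comb_eq_zero
    Pool.Agent.Helper21.transcendental_pi.algebraicClosure D c h1 i
    (Nat.lt_succ_iff.1 (Finset.mem_range.1 (hD hi)))
  rw [hc] at h2
  simpa only [if_pos hi] using h2

theorem tup_pos {N : ℕ} {w : List ℕ} (hw : w ∈ Idx N) : 0 < mz w := by
  have hadm : Adm w := ⟨hw.1, hw.2.1⟩
  unfold mz
  rw [main_mzv w hadm]
  exact main_zl_pos w hadm

/-- the first alternative: all tuples are independent -/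
theorem tup_alg (h : ∀ N : ℕ, ∀ w ∈ Idx N,
      IsAlgebraic ℚ (mzv (fun i : Fin w.length => w.get i) / Real.pi ^ N))
    {k : ℕ} (n : Fin k → ℕ) (hn : ∀ i, 2 ≤ n i) (hinj : Function.Injective n) :
    ind n = {w : Fin k → List ℕ | ∀ i, w i ∈ Idx (n i)} := by
  ext w
  simp only [ind, Set.mem_ofPred_eq]
  refine ⟨fun h => h.1, fun hw => ⟨hw, ?_⟩⟩
  have e1 : ∀ i, ∃ u : (algebraicClosure ℚ ℝ)ˣ, mz (w i) = u • Real.pi ^ (n i) := by
    intro i
    have h1 := h (n i) (w i) (hw i)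
    have h2 := tup_pos (hw i)
    have h3 : 0 < Real.pi ^ (n i) := by positivity
    have h4 : (⟨mz (w i) / Real.pi ^ (n i), mem_algebraicClosure_iff.2 h1⟩ :
        algebraicClosure ℚ ℝ) ≠ 0 := by
      intro h5
      have h6 := congrArg (fun z : algebraicClosure ℚ ℝ => (z : ℝ)) h5
      have h7 : 0 < mz (w i) / Real.pi ^ (n i) := by positivity
      exact h7.ne' h6
    refine ⟨Units.mk0 _ h4, ?_⟩
    rw [Units.smul_def, Units.val_mk0, Algebra.smul_def]
    show mz (w i) = mz (w i) / Real.pi ^ (n i) * Real.pi ^ (n i)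
    rw [div_mul_cancel₀ _ h3.ne']
  choose u hu using e1
  set m : Fin (k + 1) → ℕ := Fin.cons 0 n with hm
  have hminj : Function.Injective m := by
    rw [hm, Fin.cons_injective_iff]
    refine ⟨?_, hinj⟩
    rintro ⟨i, hi⟩
    have := hn i
    omega
  have e2 : (Fin.cons 1 (fun i => mz (w i)) : Fin (k + 1) → ℝ) =
      (Fin.cons 1 u : Fin (k + 1) → (algebraicClosure ℚ ℝ)ˣ) • ((fun i : ℕ => Real.pi ^ i) ∘ m) := by
    funext i
    refine Fin.cases ?_ (fun j => ?_) i
    · simp [hm]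
    · simp only [Fin.cons_succ, Pi.smul_apply', Function.comp_apply, hm]
      exact hu j
  rw [e2]
  exact (tup_pi.comp m hminj).units_smul _

theorem tup_sub (h : ∀ N : ℕ, ∀ w ∈ Idx N,
      IsAlgebraic ℚ (mzv (fun i : Fin w.length => w.get i) / Real.pi ^ N))
    (N : ℕ) (V : Submodule (algebraicClosure ℚ ℝ) ℝ) (hV : Real.pi ^ N ∉ V) : out N V = Idx N := by
  ext w
  simp only [out, Set.mem_ofPred_eq]
  refine ⟨fun h => h.1, fun hw => ⟨hw, fun hcon => hV ?_⟩⟩
  have h1 := h N w hw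
  have h2 := tup_pos hw
  have h3 : 0 < Real.pi ^ N := by positivity
  have h4 : IsAlgebraic ℚ (Real.pi ^ N / mz w) := by
    have := h1.inv
    rw [inv_div] at this
    exact this
  have h5 := V.smul_mem (⟨Real.pi ^ N / mz w, mem_algebraicClosure_iff.2 h4⟩ :
    algebraicClosure ℚ ℝ) hcon
  rw [Algebra.smul_def] at h5
  have h6 : algebraMap (algebraicClosure ℚ ℝ) ℝ ⟨Real.pi ^ N / mz w, mem_algebraicClosure_iff.2 h4⟩ *
      mzv (fun i : Fin w.length => w.get i) = Real.pi ^ N := by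
    show Real.pi ^ N / mz w * mz w = Real.pi ^ N
    rw [div_mul_cancel₀ _ h2.ne']
  rwa [h6] at h5

theorem tup_two {N C : ℕ} (hC : 2 ≤ C) (hN : C ≤ N) :
    (2 : ℝ) ^ N / (N : ℝ) ^ C ≤ (2 : ℝ) ^ (N - 2) := by
  have hNR : (2 : ℝ) ≤ N := by exact_mod_cast hC.trans hN
  have h1 : (4 : ℝ) ≤ (N : ℝ) ^ C := by
    calc (4 : ℝ) = 2 ^ 2 := by norm_num
      _ ≤ (N : ℝ) ^ 2 := pow_le_pow_left₀ (by norm_num) hNR 2
      _ ≤ (N : ℝ) ^ C := pow_le_pow_right₀ (by linarith) hC
  rw [div_le_iff₀ (by linarith)]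
  have h2 : (2 : ℝ) ^ N = 2 ^ (N - 2) * 4 := by
    have : N = N - 2 + 2 := by omega
    conv_lhs => rw [this, pow_add]
    norm_num
  rw [h2]
  exact mul_le_mul_of_nonneg_left h1 (by positivity)

theorem tup_two' {N C : ℕ} {δ : ℝ} (hC : 2 ≤ C) (hδ : 2 ≤ δ * C) (hδ0 : 0 < δ) (hN : C ≤ N) :
    (2 : ℝ) ^ ((1 - δ) * N) ≤ (2 : ℝ) ^ (N - 2) := by
  have hNR : (C : ℝ) ≤ N := by exact_mod_cast hN
  rw [← Real.rpow_natCast]
  apply Real.rpow_le_rpow_of_exponent_le (by norm_num)
  have h1 : ((N - 2 : ℕ) : ℝ) = N - 2 := by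
    rw [Nat.cast_sub (hC.trans hN)]
    norm_num
  rw [h1]
  nlinarith

theorem thm_Sub1 (h : St_Rdi) : St_Sub1 := by
  intro k
  rcases h with h | h
  · refine ⟨2, ?_⟩
    intro N hN V _ _ hV
    rw [tup_sub h N V hV, (thm_Cnt N hN).2]
    push_cast
    exact tup_two le_rfl hN
  · obtain ⟨C, hC⟩ := h k
    exact ⟨C, fun N hN V h1 h2 _ => hC N hN V h1 h2⟩

theorem thm_Sub2 (h : St_Lin) : St_Sub2 := by
  intro δ hδ
  rcases h with h | h
  · obtain ⟨C, hC⟩ := exists_nat_ge (2 / δ)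
    refine ⟨1, one_pos, max C 2, ?_⟩
    intro N hN V _ _ hV
    have h2 : 2 ≤ N := (le_max_right _ _).trans hN
    rw [tup_sub h N V hV, (thm_Cnt N h2).2]
    push_cast
    apply tup_two' (le_max_right C 2) _ hδ hN
    have h3 : (C : ℝ) ≤ ((max C 2 : ℕ) : ℝ) := by exact_mod_cast le_max_left C 2
    have h4 : 2 / δ ≤ ((max C 2 : ℕ) : ℝ) := hC.trans h3
    rw [div_le_iff₀ hδ] at h4
    linarith
  · obtain ⟨ε, hε, C, hC⟩ := h δ hδ
    exact ⟨ε, hε, C, fun N hN V h1 h2 _ => hC N hN V h1 h2⟩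

theorem thm_Tup1 (h : St_Rdi) : St_Tup1 := by
  intro k
  rcases h with h | h
  · refine ⟨2, ?_⟩
    intro n hinj hn
    rw [tup_alg h n hn hinj, tup_card n hn]
    push_cast
    apply Finset.prod_le_prod
    · intro i _
      positivity
    · intro i _
      exact tup_two le_rfl (hn i)
  · obtain ⟨C, hC⟩ := h k
    refine ⟨max C 2, ?_⟩
    intro n _ hn
    have hn2 : ∀ i, 2 ≤ n i := fun i => (le_max_right _ _).trans (hn i)
    have hnC : ∀ i, C ≤ n i := fun i => (le_max_left _ _).trans (hn i)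
    refine le_trans ?_ (tup_prod k k le_rfl n hn2 (fun i => (2 : ℝ) ^ n i / (n i : ℝ) ^ C)
      (fun i => by positivity) (fun i V h1 h2 => hC (n i) (hnC i) V h1 h2))
    apply Finset.prod_le_prod
    · intro i _
      positivity
    · intro i _
      have h3 : (1 : ℝ) ≤ n i := by
        have : 1 ≤ n i := by have := hn2 i; omega
        exact_mod_cast this
      apply div_le_div_of_nonneg_left (by positivity) (by positivity)
      exact pow_le_pow_right₀ h3 (le_max_left _ _)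

theorem thm_Tup2 (h : St_Lin) : St_Tup2 := by
  intro δ hδ
  have hexp : ∀ (k : ℕ) (n : Fin k → ℕ), (2 : ℝ) ^ ((1 - δ) * ∑ i, (n i : ℝ)) =
      ∏ i, (2 : ℝ) ^ ((1 - δ) * (n i : ℝ)) := by
    intro k n
    rw [Finset.mul_sum, Real.rpow_sum_of_pos (by norm_num)]
  rcases h with h | h
  · obtain ⟨C, hC⟩ := exists_nat_ge (2 / δ)
    refine ⟨1, one_pos, max C 2, ?_⟩
    intro k n hinj hn
    have hn2 : ∀ i, 2 ≤ n i := fun i => (le_max_right _ _).trans (hn i).1
    rw [tup_alg h n hn2 hinj, tup_card n hn2, hexp]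
    push_cast
    apply Finset.prod_le_prod
    · intro i _
      positivity
    · intro i _
      apply tup_two' (le_max_right C 2) _ hδ (hn i).1
      have h3 : (C : ℝ) ≤ ((max C 2 : ℕ) : ℝ) := by exact_mod_cast le_max_left C 2
      have h4 : 2 / δ ≤ ((max C 2 : ℕ) : ℝ) := hC.trans h3
      rw [div_le_iff₀ hδ] at h4
      linarith
  · obtain ⟨ε, hε, C, hC⟩ := h δ hδ
    refine ⟨ε, hε, max C 2, ?_⟩
    intro k n _ hn
    rw [hexp]
    exact tup_prod k k le_rfl n (fun i => (le_max_right _ _).trans (hn i).1) _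
      (fun i => by positivity) (fun i V h1 h2 => hC (n i) ((le_max_left _ _).trans (hn i).1) V h1
        (le_trans (by exact_mod_cast h2) (hn i).2))

end Pool.Agent.MZA
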