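import Mathlib
import Pool.Agent.MZA.Tup

set_option autoImplicit false

/-!
# MZA TupV: linear independence of most tuples modulo a subspace

`A` denotes the real algebraic numbers.  For all `k` there is `C` such that for every `A`-subspace `V`
of dimension at most `k` and all pairwise different weights `n_1, …, n_l ≥ C`, `l ≤ k`, such that `V`
meets the `A`-span of the `π^(n_i)` only in `0`, at least `∏ 2^(n_i)/n_i^C` of the tuples of multiple
zeta values of these weights are linearly independent over `A` modulo `V`.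
-/

namespace Pool.Agent.MZA

open Finset Filter
open Pool.Agent.Helper21 (mzv mzvSpace algSpace H zl Adm)

/-- The tuples of indices `w i` of weight `n i` such that the `ζ(w i)` are linearly independent over
the real algebraic numbers modulo `V`. -/
def indm (V : Submodule (algebraicClosure ℚ ℝ) ℝ) {k : ℕ} (n : Fin k → ℕ) :
    Set (Fin k → List ℕ) :=
  {w | (∀ i, w i ∈ Idx (n i)) ∧
    LinearIndependent (algebraicClosure ℚ ℝ) (fun i => V.mkQ (mz (w i)))}

theorem tv_step (V : Submodule (algebraicClosure ℚ ℝ) ℝ) {k : ℕ} (n : Fin (k + 1) → ℕ)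
    (hn : ∀ i, 2 ≤ n i) (c : ℝ)
    (h : ∀ w ∈ indm V (Fin.init n), c ≤ ((out (n (Fin.last k)) (V ⊔ Submodule.span
      (algebraicClosure ℚ ℝ) (Set.range (fun i => mz (w i))))).ncard : ℝ)) :
    ((indm V (Fin.init n)).ncard : ℝ) * c ≤ ((indm V n).ncard : ℝ) := by
  classical
  have hf1 : (indm V (Fin.init n)).Finite :=
    (tup_fin (Fin.init n) (fun i => hn i.castSucc)).subset fun w hw => hw.1
  have hf2 : (indm V n).Finite := (tup_fin n hn).subset fun w hw => hw.1
  have hfo : ∀ U : Submodule (algebraicClosure ℚ ℝ) ℝ, (out (n (Fin.last k)) U).Finite :=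
    fun U => (thm_Cnt _ (hn (Fin.last k))).1.subset fun w hw => hw.1
  set S : Finset (Fin k → List ℕ) := hf1.toFinset with hS
  set T : Finset (Fin (k + 1) → List ℕ) := hf2.toFinset with hT
  set O : (Fin k → List ℕ) → Finset (List ℕ) := fun w =>
    (hfo (V ⊔ Submodule.span (algebraicClosure ℚ ℝ)
      (Set.range (fun i => mz (w i))))).toFinset with hO
  have hc1 : ((indm V (Fin.init n)).ncard : ℝ) = S.card := by
    rw [Set.ncard_eq_toFinset_card _ hf1]
  have hc2 : ((indm V n).ncard : ℝ) = T.card := by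
    rw [Set.ncard_eq_toFinset_card _ hf2]
  have hc3 : ∀ w ∈ S, c ≤ ((O w).card : ℝ) := by
    intro w hw
    have h1 := h w (by rw [hS, Set.Finite.mem_toFinset] at hw; exact hw)
    rw [Set.ncard_eq_toFinset_card _ (hfo _)] at h1
    exact h1
  have h2 : (S.sigma O).card ≤ T.card := by
    apply Finset.card_le_card_of_injOn (fun q => (Fin.snoc q.1 q.2 : Fin (k + 1) → List ℕ))
    · intro q hq
      rw [Finset.mem_coe, Finset.mem_sigma] at hq
      obtain ⟨hq1, hq2⟩ := hq
      rw [hS, Set.Finite.mem_toFinset] at hq1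
      rw [hO, Set.Finite.mem_toFinset] at hq2
      rw [Finset.mem_coe, hT, Set.Finite.mem_toFinset]
      refine ⟨?_, ?_⟩
      · intro i
        refine Fin.lastCases ?_ (fun j => ?_) i
        · simp only [Fin.snoc_last]
          exact hq2.1
        · simp only [Fin.snoc_castSucc]
          exact hq1.1 j
      · have e1 : (fun i => V.mkQ (mz ((Fin.snoc q.1 q.2 : Fin (k + 1) → List ℕ) i))) =
            (Fin.snoc (fun i => V.mkQ (mz (q.1 i))) (V.mkQ (mz q.2)) : Fin (k + 1) → ℝ ⧸ V) := by
          funext i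
          refine Fin.lastCases ?_ (fun j => ?_) i
          · simp only [Fin.snoc_last]
          · simp only [Fin.snoc_castSucc]
        rw [e1, linearIndependent_finSnoc]
        refine ⟨hq1.2, fun hcon => hq2.2 ?_⟩
        have e2 : Set.range (fun i => V.mkQ (mz (q.1 i))) =
            V.mkQ '' Set.range (fun i => mz (q.1 i)) := by
          rw [← Set.range_comp]
          rfl
        rw [e2, ← Submodule.map_span] at hcon
        obtain ⟨u, hu, hu2⟩ := hcon
        have e3 : mz q.2 - u ∈ V := by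
          rw [← Submodule.ker_mkQ V, LinearMap.mem_ker, map_sub, hu2, sub_self]
        have e4 := Submodule.add_mem_sup e3 hu
        rw [sub_add_cancel] at e4
        exact e4
    · intro q _ r _ hqr
      have e1 : q.1 = r.1 := by
        have := congrArg Fin.init hqr
        simpa only [Fin.init_snoc] using this
      have e2 : q.2 = r.2 := by
        have := congrFun hqr (Fin.last k)
        simpa only [Fin.snoc_last] using this
      exact Sigma.ext e1 (heq_of_eq e2)
  rw [hc1, hc2]
  calc (S.card : ℝ) * c = ∑ _w ∈ S, c := by rw [Finset.sum_const, nsmul_eq_mul]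
    _ ≤ ∑ w ∈ S, ((O w).card : ℝ) := Finset.sum_le_sum hc3
    _ = ((S.sigma O).card : ℝ) := by rw [Finset.card_sigma]; push_cast; rfl
    _ ≤ T.card := by exact_mod_cast h2

/-- many independent tuples if many multiple zeta values are outside every small subspace -/
theorem tv_prod (V : Submodule (algebraicClosure ℚ ℝ) ℝ)
    (hV : Module.Finite (algebraicClosure ℚ ℝ) V) (K : ℕ) : ∀ (k : ℕ),
    Module.finrank (algebraicClosure ℚ ℝ) V + k ≤ K → ∀ (n : Fin k → ℕ), (∀ i, 2 ≤ n i) →
    ∀ c : Fin k → ℝ, (∀ i, 0 ≤ c i) →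
    (∀ i, ∀ U : Submodule (algebraicClosure ℚ ℝ) ℝ, Module.Finite (algebraicClosure ℚ ℝ) U →
      Module.finrank (algebraicClosure ℚ ℝ) U ≤ K → c i ≤ ((out (n i) U).ncard : ℝ)) →
    ∏ i, c i ≤ ((indm V n).ncard : ℝ) := by
  intro k
  induction k with
  | zero =>
    intro _ n _ c _ _
    rw [Finset.univ_eq_empty, Finset.prod_empty]
    have h1 : (indm V n) = {fun i => []} := by
      ext w
      simp only [indm, Set.mem_ofPred_eq, Set.mem_singleton_iff]
      exact ⟨fun _ => funext fun i => i.elim0, fun _ => ⟨fun i => i.elim0,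
        linearIndependent_empty_type⟩⟩
    rw [h1, Set.ncard_singleton]
    norm_num
  | succ k ih =>
    intro hk n hn c hc h
    rw [Fin.prod_univ_castSucc]
    have h1 := ih (by omega) (Fin.init n) (fun i => hn i.castSucc) (fun i => c i.castSucc)
      (fun i => hc i.castSucc) (fun i => h i.castSucc)
    refine le_trans (mul_le_mul_of_nonneg_right h1 (hc (Fin.last k))) ?_
    apply tv_step V n hn
    intro w _
    have hfs : Module.Finite (algebraicClosure ℚ ℝ) (Submodule.span (algebraicClosure ℚ ℝ)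
        (Set.range (fun i => mz (w i)))) := Module.Finite.span_of_finite _ (Set.finite_range _)
    apply h
    · exact Submodule.finite_sup _ _
    · refine (Submodule.finrank_add_le_finrank_add_finrank _ _).trans ?_
      have h2 := finrank_range_le_card (R := algebraicClosure ℚ ℝ) (fun i => mz (w i))
      rw [Fintype.card_fin] at h2
      unfold Set.finrank at h2
      omega

/-- the first alternative: all tuples are independent modulo `V` -/
theorem tv_alg (h : ∀ N : ℕ, ∀ w ∈ Idx N,
      IsAlgebraic ℚ (mzv (fun i : Fin w.length => w.get i) / Real.pi ^ N))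
    (V : Submodule (algebraicClosure ℚ ℝ) ℝ)
    {k : ℕ} (n : Fin k → ℕ) (hinj : Function.Injective n)
    (hV : Disjoint V (Submodule.span (algebraicClosure ℚ ℝ)
      (Set.range (fun i => Real.pi ^ n i)))) :
    indm V n = {w : Fin k → List ℕ | ∀ i, w i ∈ Idx (n i)} := by
  ext w
  simp only [indm, Set.mem_ofPred_eq]
  refine ⟨fun h => h.1, fun hw => ⟨hw, ?_⟩⟩
  have e1 : ∀ i, ∃ u : (algebraicClosure ℚ ℝ)ˣ, mz (w i) = u • Real.pi ^ (n i) := by
    intro i
    have h1 := h (n i) (w i) (hw i)
    have h2 := tup_pos (hw i)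
    have h3 : 0 < Real.pi ^ (n i) := by positivity
    have h4 : (⟨mz (w i) / Real.pi ^ (n i), mem_algebraicClosure_iff.2 h1⟩ :
        algebraicClosure ℚ ℝ) ≠ 0 := by
      intro h5
      have h6 := congrArg (fun z : algebraicClosure ℚ ℝ => (z : ℝ)) h5
      have h7 : 0 < mz (w i) / Real.pi ^ (n i) := by positivity
      exact h7.ne' h6
    refine ⟨Units.mk0 _ h4, ?_⟩
    rw [Units.smul_def, Units.val_mk0, Algebra.smul_def]
    show mz (w i) = mz (w i) / Real.pi ^ (n i) * Real.pi ^ (n i)
    rw [div_mul_cancel₀ _ h3.ne']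
  choose u hu using e1
  have h5 : LinearIndependent (algebraicClosure ℚ ℝ) (fun i => Real.pi ^ n i) :=
    tup_pi.comp n hinj
  have h6 : LinearIndependent (algebraicClosure ℚ ℝ) (V.mkQ ∘ fun i => Real.pi ^ n i) := by
    apply h5.map
    rw [Submodule.ker_mkQ]
    exact hV.symm
  have e2 : (fun i => V.mkQ (mz (w i))) = u • (V.mkQ ∘ fun i => Real.pi ^ n i) := by
    funext i
    simp only [Pi.smul_apply', Function.comp_apply]
    rw [hu i, Units.smul_def, Units.smul_def, map_smul]
  rw [e2]
  exact h6.units_smul _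

/-- TUPV1.  Bounded dimension, bounded number of weights. -/
def St_TupV1 : Prop := ∀ k : ℕ, ∃ C : ℕ, ∀ V : Submodule (algebraicClosure ℚ ℝ) ℝ,
  Module.Finite (algebraicClosure ℚ ℝ) V → ∀ (l : ℕ) (n : Fin l → ℕ),
  Module.finrank (algebraicClosure ℚ ℝ) V + l ≤ k → Function.Injective n → (∀ i, C ≤ n i) →
  Disjoint V (Submodule.span (algebraicClosure ℚ ℝ) (Set.range (fun i => Real.pi ^ n i))) →
  ∏ i, ((2 : ℝ) ^ n i / (n i : ℝ) ^ C) ≤ (indm V n).ncard

/-- TUPV2.  Dimension and number of weights at most linear in the weights. -/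
def St_TupV2 : Prop := ∀ δ : ℝ, 0 < δ → ∃ ε : ℝ, 0 < ε ∧ ∃ C : ℕ,
  ∀ V : Submodule (algebraicClosure ℚ ℝ) ℝ,
  Module.Finite (algebraicClosure ℚ ℝ) V → ∀ (l : ℕ) (n : Fin l → ℕ), Function.Injective n →
  (∀ i, C ≤ n i ∧ ((Module.finrank (algebraicClosure ℚ ℝ) V + l : ℕ) : ℝ) ≤ ε * n i) →
  Disjoint V (Submodule.span (algebraicClosure ℚ ℝ) (Set.range (fun i => Real.pi ^ n i))) →
  (2 : ℝ) ^ ((1 - δ) * ∑ i, (n i : ℝ)) ≤ (indm V n).ncard

theorem thm_TupV1 (h : St_Rdi) : St_TupV1 := by
  intro k
  rcases h with h | h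
  · refine ⟨2, ?_⟩
    intro V _ l n _ hinj hn hV
    rw [tv_alg h V n hinj hV, tup_card n hn]
    push_cast
    apply Finset.prod_le_prod
    · intro i _
      positivity
    · intro i _
      exact tup_two le_rfl (hn i)
  · obtain ⟨C, hC⟩ := h k
    refine ⟨max C 2, ?_⟩
    intro V hVf l n hl _ hn _
    have hn2 : ∀ i, 2 ≤ n i := fun i => (le_max_right _ _).trans (hn i)
    have hnC : ∀ i, C ≤ n i := fun i => (le_max_left _ _).trans (hn i)
    refine le_trans ?_ (tv_prod V hVf k l hl n hn2 (fun i => (2 : ℝ) ^ n i / (n i : ℝ) ^ C)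
      (fun i => by positivity) (fun i U h1 h2 => hC (n i) (hnC i) U h1 h2))
    apply Finset.prod_le_prod
    · intro i _
      positivity
    · intro i _
      have h3 : (1 : ℝ) ≤ n i := by
        have : 1 ≤ n i := by have := hn2 i; omega
        exact_mod_cast this
      apply div_le_div_of_nonneg_left (by positivity) (by positivity)
      exact pow_le_pow_right₀ h3 (le_max_left _ _)

theorem thm_TupV2 (h : St_Lin) : St_TupV2 := by
  intro δ hδ
  have hexp : ∀ (k : ℕ) (n : Fin k → ℕ), (2 : ℝ) ^ ((1 - δ) * ∑ i, (n i : ℝ)) =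
      ∏ i, (2 : ℝ) ^ ((1 - δ) * (n i : ℝ)) := by
    intro k n
    rw [Finset.mul_sum, Real.rpow_sum_of_pos (by norm_num)]
  rcases h with h | h
  · obtain ⟨C, hC⟩ := exists_nat_ge (2 / δ)
    refine ⟨1, one_pos, max C 2, ?_⟩
    intro V _ l n hinj hn hV
    have hn2 : ∀ i, 2 ≤ n i := fun i => (le_max_right _ _).trans (hn i).1
    rw [tv_alg h V n hinj hV, tup_card n hn2, hexp]
    push_cast
    apply Finset.prod_le_prod
    · intro i _
      positivity
    · intro i _
      apply tup_two' (le_max_right C 2) _ hδ (hn i).1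
      have h3 : (C : ℝ) ≤ ((max C 2 : ℕ) : ℝ) := by exact_mod_cast le_max_left C 2
      have h4 : 2 / δ ≤ ((max C 2 : ℕ) : ℝ) := hC.trans h3
      rw [div_le_iff₀ hδ] at h4
      linarith
  · obtain ⟨ε, hε, C, hC⟩ := h δ hδ
    refine ⟨ε, hε, max C 2, ?_⟩
    intro V hVf l n _ hn _
    rw [hexp]
    exact tv_prod V hVf _ l le_rfl n (fun i => (le_max_right _ _).trans (hn i).1) _
      (fun i => by positivity) (fun i U h1 h2 => hC (n i) ((le_max_left _ _).trans (hn i).1) U h1
        (le_trans (by exact_mod_cast h2) (hn i).2))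

end Pool.Agent.MZA
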