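import Mathlib
import Pool.Agent.MZA.St2
import Pool.Agent.MZA.Fin
import Pool.Agent.MZA.Dep

set_option autoImplicit false

/-!
# WIN (MP_2000e9_nt), helper67 for helper46
-/

namespace Pool.Agent.MZA

open Finset Filter
open Pool.Agent.Helper21 (mzv H zl Adm)

/-- the reconstruction of `u` -/
def winG (α β : ℕ) (v : List ℕ) (q p : ℕ) : List ℕ :=
  (v.eraseIdx q).set p ((v.eraseIdx q).getD p 0 - (v.getD q 0 - 2 * β + 2 * α))

theorem winG_eq (u : List ℕ) (p q i α β : ℕ) (hp : p < u.length) (hq : q ≤ u.length) :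
    winG α β ((u.set p (u.getD p 0 + 2 * (i + α))).insertIdx q (2 * (i + β))) q p = u := by
  have h1 : ((u.set p (u.getD p 0 + 2 * (i + α))).insertIdx q (2 * (i + β))).eraseIdx q =
      u.set p (u.getD p 0 + 2 * (i + α)) := List.eraseIdx_insertIdx_self _
  have hl : q < ((u.set p (u.getD p 0 + 2 * (i + α))).insertIdx q (2 * (i + β))).length := by
    rw [List.length_insertIdx_of_le_length (by rw [List.length_set]; exact hq), List.length_set]
    omega
  have h2 : ((u.set p (u.getD p 0 + 2 * (i + α))).insertIdx q (2 * (i + β))).getD q 0 =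
      2 * (i + β) := by
    rw [List.getD_eq_getElem _ _ hl]
    exact List.getElem_insertIdx_self _
  have h3 : (u.set p (u.getD p 0 + 2 * (i + α))).getD p 0 = u.getD p 0 + 2 * (i + α) := by
    rw [List.getD_eq_getElem _ _ (by rw [List.length_set]; exact hp)]
    exact List.getElem_set_self _
  rw [winG, h1, h2, h3, List.set_set]
  have h4 : u.getD p 0 + 2 * (i + α) - (2 * (i + β) - 2 * β + 2 * α) = u.getD p 0 := by omega
  rw [h4, List.getD_eq_getElem _ _ hp]
  exact List.set_getElem_self _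

/-- the candidates for `u` -/
def winS (r α β N : ℕ) : Set (List ℕ) :=
  ⋃ s : Fin r × Fin (r - 1), (fun v => winG α β v s.1 s.2) '' offd N r 1

theorem winS_finite (r α β N : ℕ) : (winS r α β N).Finite :=
  Set.finite_iUnion fun _ => (dep_finite N r 1).image _

theorem winS_ncard (r α β N : ℕ) : (winS r α β N).ncard ≤ r * (r - 1) * (offd N r 1).ncard := by
  refine (Set.ncard_iUnion_le_of_fintype _).trans ?_
  calc ∑ s : Fin r × Fin (r - 1), ((fun v => winG α β v s.1 s.2) '' offd N r 1).ncard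
      ≤ ∑ s : Fin r × Fin (r - 1), (offd N r 1).ncard :=
        Finset.sum_le_sum fun s _ => Set.ncard_image_le (dep_finite N r 1)
    _ = r * (r - 1) * (offd N r 1).ncard := by
        rw [Finset.sum_const, Finset.card_univ, Fintype.card_prod, Fintype.card_fin,
          Fintype.card_fin, smul_eq_mul]

theorem winS_mem (r α β N : ℕ) (u : List ℕ) (i p q : ℕ) (hr : u.length = r - 1) (hr2 : 2 ≤ r)
    (hp : p < u.length) (hq : q ≤ u.length)
    (h : (u.set p (u.getD p 0 + 2 * (i + α))).insertIdx q (2 * (i + β)) ∈ tra N) :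
    u ∈ winS r α β N := by
  refine Set.mem_iUnion.2 ⟨(⟨q, by omega⟩, ⟨p, by omega⟩), ?_⟩
  refine ⟨_, ⟨?_, ?_⟩, winG_eq u p q i α β hp hq⟩
  · rw [off_one]
    exact h
  · rw [List.length_insertIdx_of_le_length (by rw [List.length_set]; exact hq), List.length_set]
    omega

theorem thm_Win (h : St_Loc) : St_Win := by
  intro r n₁ n₂ n₃ hr h12 h23 h3 hp12 hp23
  obtain ⟨d, hd⟩ : ∃ d, n₃ = n₂ + 2 * d := ⟨(n₃ - n₂) / 2, by omega⟩
  obtain ⟨e, he⟩ : ∃ e, n₃ = n₁ + 2 * e := ⟨(n₃ - n₁) / 2, by omega⟩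
  have hsub : src (n₁ + n₂ - n₃) r ⊆
      (winS r 0 d n₁ ∪ winS r d 0 n₁) ∪ ((winS r 0 e n₂ ∪ winS r e 0 n₂) ∪
        (winS r d e n₃ ∪ winS r e d n₃)) := by
    rintro u ⟨hI, hl, hK, hm⟩
    obtain ⟨i, hi⟩ : ∃ i, n₁ + n₂ - n₃ = u.sum + 4 * i := ⟨(n₁ + n₂ - n₃ - u.sum) / 4, by omega⟩
    have hi0 : 0 < i := by omega
    have hu : u ≠ [] := by
      rintro rfl
      simp at hl
      omega
    have e1 : u.sum + 2 * i + 2 * (i + d) = n₁ := by omega
    have e1' : u.sum + 2 * (i + d) + 2 * i = n₁ := by omega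
    have e2 : u.sum + 2 * i + 2 * (i + e) = n₂ := by omega
    have e2' : u.sum + 2 * (i + e) + 2 * i = n₂ := by omega
    have e3 : u.sum + 2 * (i + d) + 2 * (i + e) = n₃ := by omega
    have e3' : u.sum + 2 * (i + e) + 2 * (i + d) = n₃ := by omega
    obtain ⟨a, ha, b, hb, hab, p, hp, q, hq, ht⟩ :=
      loc_final h u hu hI i (i + d) (i + e) (by omega) (by omega) (by omega)
    simp only [List.mem_cons, List.not_mem_nil, or_false] at ha hb
    rcases ha with ha | ha | ha <;> rcases hb with hb | hb | hb <;> rw [ha, hb] at ht hab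
    · exact absurd rfl hab
    · rw [e1] at ht
      exact Or.inl (Or.inl (winS_mem r 0 d n₁ u i p q hl hr hp hq ht))
    · rw [e2] at ht
      exact Or.inr (Or.inl (Or.inl (winS_mem r 0 e n₂ u i p q hl hr hp hq ht)))
    · rw [e1'] at ht
      exact Or.inl (Or.inr (winS_mem r d 0 n₁ u i p q hl hr hp hq ht))
    · exact absurd rfl hab
    · rw [e3] at ht
      exact Or.inr (Or.inr (Or.inl (winS_mem r d e n₃ u i p q hl hr hp hq ht)))
    · rw [e2'] at ht
      exact Or.inr (Or.inl (Or.inr (winS_mem r e 0 n₂ u i p q hl hr hp hq ht)))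
    · rw [e3'] at ht
      exact Or.inr (Or.inr (Or.inr (winS_mem r e d n₃ u i p q hl hr hp hq ht)))
    · exact absurd rfl hab
  have hfin : ((winS r 0 d n₁ ∪ winS r d 0 n₁) ∪ ((winS r 0 e n₂ ∪ winS r e 0 n₂) ∪
        (winS r d e n₃ ∪ winS r e d n₃))).Finite :=
    ((winS_finite _ _ _ _).union (winS_finite _ _ _ _)).union
      (((winS_finite _ _ _ _).union (winS_finite _ _ _ _)).union
        ((winS_finite _ _ _ _).union (winS_finite _ _ _ _)))
  have h1 := Set.ncard_le_ncard hsub hfin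
  have h2 := Set.ncard_union_le (winS r 0 d n₁ ∪ winS r d 0 n₁) ((winS r 0 e n₂ ∪ winS r e 0 n₂) ∪
        (winS r d e n₃ ∪ winS r e d n₃))
  have h3' := Set.ncard_union_le (winS r 0 e n₂ ∪ winS r e 0 n₂) (winS r d e n₃ ∪ winS r e d n₃)
  have h4 := Set.ncard_union_le (winS r 0 d n₁) (winS r d 0 n₁)
  have h5 := Set.ncard_union_le (winS r 0 e n₂) (winS r e 0 n₂)
  have h6 := Set.ncard_union_le (winS r d e n₃) (winS r e d n₃)
  have b1 := winS_ncard r 0 d n₁
  have b2 := winS_ncard r d 0 n₁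
  have b3 := winS_ncard r 0 e n₂
  have b4 := winS_ncard r e 0 n₂
  have b5 := winS_ncard r d e n₃
  have b6 := winS_ncard r e d n₃
  calc (src (n₁ + n₂ - n₃) r).ncard
      ≤ 2 * (r * (r - 1) * (offd n₁ r 1).ncard) + 2 * (r * (r - 1) * (offd n₂ r 1).ncard) +
        2 * (r * (r - 1) * (offd n₃ r 1).ncard) := by omega
    _ = _ := by ring

end Pool.Agent.MZA
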