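import Pool.Agent.MZA.St

/-!
# Even zeta values
-/

set_option autoImplicit false

namespace Pool.Agent.MZA

open Finset Filter
open Pool.Agent.Helper21 (mzv H zl Adm tendsto_zl H_cons H_nil H_bddAbove)

theorem thm_Zev : St_Zev := by
  intro j hj
  have hadm : Adm [2 * j] :=
    ⟨by
      intro a ha
      rw [List.mem_singleton] at ha
      omega, by
      intro a t h
      have := (List.cons.inj h).1
      omega⟩
  have h1 : Tendsto (H [2 * j]) atTop (nhds (zl [2 * j])) := tendsto_zl [2 * j] hadm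
  set q : ℚ := (-1) ^ (j + 1) * 2 ^ (2 * j - 1) * bernoulli (2 * j) / (2 * j).factorial with hq
  have hz := hasSum_zeta_nat (k := j) (by omega)
  have hval : ((-1 : ℝ) ^ (j + 1) * 2 ^ (2 * j - 1) * Real.pi ^ (2 * j) * (bernoulli (2 * j) : ℝ) /
      ((2 * j).factorial : ℝ)) = (q : ℝ) * Real.pi ^ (2 * j) := by
    rw [hq]
    push_cast
    ring
  have h2 : HasSum (fun m : ℕ => (1 / ((m + 1 : ℕ) : ℝ)) ^ (2 * j))
      ((q : ℝ) * Real.pi ^ (2 * j)) := by
    rw [← hval]
    have h0 : (1 : ℝ) / ((0 : ℕ) : ℝ) ^ (2 * j) = 0 := by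
      rw [Nat.cast_zero, zero_pow (by omega), div_zero]
    have h := (hasSum_nat_add_iff' (f := fun n : ℕ => (1 : ℝ) / (n : ℝ) ^ (2 * j)) 1).2 hz
    rw [Finset.sum_range_one, h0, sub_zero] at h
    have e : (fun m : ℕ => (1 / ((m + 1 : ℕ) : ℝ)) ^ (2 * j)) =
        fun n : ℕ => (1 : ℝ) / ((n + 1 : ℕ) : ℝ) ^ (2 * j) := by
      funext m
      rw [one_div_pow]
    rw [e]
    exact h
  have h3 := h2.tendsto_sum_nat
  have heq : zl [2 * j] = (q : ℝ) * Real.pi ^ (2 * j) := by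
    refine tendsto_nhds_unique h1 (h3.congr ?_)
    intro n
    rw [H_cons]
    apply Finset.sum_congr rfl
    intro m _
    rw [H_nil, mul_one]
  have hpos : 0 < zl [2 * j] := by
    have h4 : H [2 * j] 1 ≤ zl [2 * j] := le_ciSup (H_bddAbove [2 * j] hadm.1 hadm.2) 1
    have h5 : H [2 * j] 1 = 1 := by
      rw [H_cons]
      simp [H_nil]
    rw [h5] at h4
    linarith
  refine ⟨q, ?_, heq⟩
  rw [heq] at hpos
  have hpi : 0 < Real.pi ^ (2 * j) := pow_pos Real.pi_pos _
  have h6 : (0 : ℝ) < (q : ℝ) := pos_of_mul_pos_left hpos hpi.le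
  exact_mod_cast h6

end Pool.Agent.MZA
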